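import Pool.Agent.Lib.H78A.C1

/-!
# H78A, chunk C3 (M): ideals of small dimension contain long regular sequences
-/

set_option autoImplicit false

open CategoryTheory CategoryTheory.Abelian IsLocalRing
open Pool.Agent.Lib.Helper92 Pool.Agent.Lib.H44V

namespace Pool.Agent.H78A

universe u

/-- Proof. If `b = ⊤` take `β i = 1` (`S ⧸ Jx β j` is a zero ring for `j ≥ 1`). Otherwise `dim S/b ≥ 0`, so `s < r`. Construct the sequence step by step as in
`R1_grade` (`H44V/R1.lean`, `Function.update`): for `j < s + 1` and `β_0, …, β_(j-1)` in `b` regular there is `z ∈ b` which is regular on `S ⧸ Jx β j`. Otherwise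
(as in `R1_step`) `b` is contained in the union of the associated primes, so `b ≤ P` with `P` an associated prime, `a ∈ P ↔ a * w ∈ Jx β j`, `w ∉ Jx β j`. `C1_isch` with
`k = j`, `t = r - j`: `r - j ≤ dim S/P ≤ dim S/b` (`ringKrullDim_le_of_surjective`), so `r ≤ dim S/b + j ≤ dim S/b + s < r`: contradiction. -/
theorem C3_seq {S : Type u} [CommRing S] [IsNoetherianRing S] [IsLocalRing S] (r : ℕ)
    (hS : Dp (ModuleCat.of S S) r) (b : Ideal S) (s : ℕ)
    (hdim : ringKrullDim (S ⧸ b) + (s : WithBot ℕ∞) < (r : WithBot ℕ∞)) :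
    ∃ β : ℕ → S, (∀ i < s + 1, β i ∈ b) ∧ ∀ j < s + 1, IsSMulRegular (S ⧸ Jx β j) (β j) := by
  by_cases hb : b = ⊤
  · refine ⟨fun _ => 1, fun i _ => by rw [hb]; trivial, fun j _ => ?_⟩
    intro a c h
    simpa using h
  have hnt : Nontrivial (S ⧸ b) := Ideal.Quotient.nontrivial_iff.mpr hb
  have h0 : (0 : WithBot ℕ∞) ≤ ringKrullDim (S ⧸ b) := ringKrullDim_nonneg_of_nontrivial
  have hsr : s < r := by
    have h1 : (s : WithBot ℕ∞) ≤ ringKrullDim (S ⧸ b) + (s : WithBot ℕ∞) := le_add_of_nonneg_left h0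
    exact_mod_cast h1.trans_lt hdim
  have step : ∀ (k : ℕ), k < s + 1 → ∀ x : ℕ → S, (∀ j < k, IsSMulRegular (S ⧸ Jx x j) (x j)) →
      ∃ z ∈ b, IsSMulRegular (S ⧸ Jx x k) z := by
    intro k hk x hreg
    by_contra hcon
    push Not at hcon
    have hsub : (b : Set S) ⊆ ⋃ p ∈ associatedPrimes S (S ⧸ Jx x k), (p : Set S) := by
      rw [biUnion_associatedPrimes_eq_compl_regular]
      intro y hy
      exact hcon y hy
    rw [Ideal.subset_union_prime_finite (associatedPrimes.finite S (S ⧸ Jx x k))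
      (⊥ : Ideal S) ⊥ (fun p hp _ _ => IsAssociatedPrime.isPrime hp)] at hsub
    obtain ⟨P, hP, hle⟩ := hsub
    have hass := isAssociatedPrime_iff.mp (AssociatedPrimes.mem_iff.mp hP)
    obtain ⟨hprime, z, hz⟩ := hass
    obtain ⟨w, rfl⟩ := Submodule.Quotient.mk_surjective _ z
    have hmem : ∀ a : S, a ∈ P ↔ a * w ∈ Jx x k := by
      intro a
      rw [hz, Submodule.mem_colon_singleton, Submodule.mem_bot, ← Submodule.Quotient.mk_smul,
        Submodule.Quotient.mk_eq_zero, smul_eq_mul]
    have hw : w ∉ Jx x k := fun hc => by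
      have : (1 : S) ∈ P := (hmem 1).mpr (by simpa using hc)
      exact hprime.ne_top ((Ideal.eq_top_iff_one _).mpr this)
    have h1 := C1_isch r hS (r - k) k (by omega) x hreg P w hw fun a ha => (hmem a).1 ha
    have h2 : ringKrullDim (S ⧸ P) ≤ ringKrullDim (S ⧸ b) :=
      ringKrullDim_le_of_surjective (Ideal.Quotient.factor hle) (Ideal.Quotient.factor_surjective hle)
    have h3 : ((r - k : ℕ) : WithBot ℕ∞) + (s : WithBot ℕ∞) ≤ ringKrullDim (S ⧸ b) + (s : WithBot ℕ∞) :=
      add_le_add_left (h1.trans h2) _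
    have h4 : ((r - k : ℕ) : WithBot ℕ∞) + (s : WithBot ℕ∞) < (r : WithBot ℕ∞) := h3.trans_lt hdim
    have h5 : r - k + s < r := by exact_mod_cast h4
    omega
  have key : ∀ k ≤ s + 1, ∃ x : ℕ → S, (∀ j < k, x j ∈ b) ∧
      ∀ j < k, IsSMulRegular (S ⧸ Jx x j) (x j) := by
    intro k
    induction k with
    | zero =>
      intro _
      exact ⟨fun _ => 0, fun j hj => absurd hj (by omega), fun j hj => absurd hj (by omega)⟩
    | succ k ih =>
      intro hk
      obtain ⟨x, hx, hreg⟩ := ih (by omega)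
      obtain ⟨z, hz, hzr⟩ := step k (by omega) x hreg
      let x' : ℕ → S := Function.update x k z
      have hx'k : x' k = z := Function.update_self _ _ _
      have hx'j : ∀ j < k, x' j = x j := fun j hj => Function.update_of_ne (by omega) _ _
      have hJ : ∀ j ≤ k, Jx x' j = Jx x j :=
        fun j hj => Jx_congr _ _ _ fun i hi => hx'j i (by omega)
      refine ⟨x', ?_, ?_⟩
      · intro j hj
        rcases Nat.lt_succ_iff_lt_or_eq.mp hj with h1 | h1
        · rw [hx'j j h1]; exact hx j h1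
        · rw [h1, hx'k]; exact hz
      · intro j hj
        rcases Nat.lt_succ_iff_lt_or_eq.mp hj with h1 | h1
        · rw [hx'j j h1, hJ j (by omega)]; exact hreg j h1
        · rw [h1, hx'k, hJ k le_rfl]; exact hzr
  exact key (s + 1) le_rfl

end Pool.Agent.H78A
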