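import Pool.Agent.Lib.H78A.Z7

/-!
# H78A, chunk Z8 (M): units of the local ring
-/

set_option autoImplicit false

namespace Pool.Agent.H78A

universe u

/-- Proof. `A = S/Q`, `B = MvPolynomial (Fin d) k`, `φ = aeval (mk ∘ Y) : B → A` injective and finite, so integral; `A` is a `B`-algebra by `φ` (`toAlgebra`).
`I = span {mk f}`, `M₀ = ker constantCoeff` (a prime, even maximal, ideal of `B`). Suppose that no `b ∈ B` with `constantCoeff b ≠ 0` has `φ b ∈ I`: then
`I.comap φ ≤ M₀`, and `Ideal.exists_ideal_over_prime_of_isIntegral` gives a prime `P ≥ I` of `A` with `P.comap φ = M₀`. So `mk (Y j) = φ (X j) ∈ P`, the preimage of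
`P` in `S` contains `Q ⊔ span (range Y)`, so it contains a power of every `X i` (`Z7_pow`), so every `X i` (prime). `f - C (constantCoeff f)` is in the ideal of
the variables, `mk f ∈ P`: so `C (constantCoeff f) ∈` preimage of `P`, a unit: contradiction. So there is `b` with `constantCoeff b ≠ 0` and
`φ b = mk f * mk g` (`Ideal.mem_span_singleton'`, `Ideal.Quotient.mk_surjective`), i.e. `f g - aeval Y b ∈ Q` (`Ideal.Quotient.eq`;
`mk (aeval Y b) = φ b`). -/
theorem Z_unit {k : Type u} [Field k] [CharZero k] {n : ℕ} (w : Fin n → ℕ) (hw : ∀ i, 0 < w i)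
    (Q : Ideal (MvPolynomial (Fin n) k)) [Q.IsPrime]
    (hQ : ∀ f ∈ Q, ∀ m, MvPolynomial.weightedHomogeneousComponent w m f ∈ Q)
    (N d : ℕ) (Y : Fin d → MvPolynomial (Fin n) k) (hN : 0 < N)
    (hY : ∀ j, MvPolynomial.IsWeightedHomogeneous w (Y j) N)
    (hinj : Function.Injective (MvPolynomial.aeval (R := k) fun j => Ideal.Quotient.mk Q (Y j)))
    (hfin : (MvPolynomial.aeval (R := k) fun j => Ideal.Quotient.mk Q (Y j)).toRingHom.Finite)
    (f : MvPolynomial (Fin n) k) (hf : MvPolynomial.constantCoeff f ≠ 0) :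
    ∃ (g : MvPolynomial (Fin n) k) (b : MvPolynomial (Fin d) k),
      MvPolynomial.constantCoeff b ≠ 0 ∧ f * g - MvPolynomial.aeval Y b ∈ Q := by
  classical
  by_contra hcon
  push Not at hcon
  let φ : MvPolynomial (Fin d) k →ₐ[k] (MvPolynomial (Fin n) k ⧸ Q) :=
    MvPolynomial.aeval (R := k) fun j => Ideal.Quotient.mk Q (Y j)
  have hφ : ∀ b : MvPolynomial (Fin d) k, Ideal.Quotient.mk Q (MvPolynomial.aeval Y b) = φ b := fun b =>
    MvPolynomial.comp_aeval_apply (f := Y) (Ideal.Quotient.mkₐ k Q) b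
  let M₀ : Ideal (MvPolynomial (Fin d) k) := RingHom.ker (MvPolynomial.constantCoeff (R := k) (σ := Fin d))
  have hM₀ : M₀.IsPrime := RingHom.ker_isPrime _
  let I : Ideal (MvPolynomial (Fin n) k ⧸ Q) := Ideal.span {Ideal.Quotient.mk Q f}
  have hI : I.comap φ.toRingHom ≤ M₀ := by
    intro b hb
    have h1 : φ b ∈ I := hb
    obtain ⟨c, hc⟩ := Ideal.mem_span_singleton.1 h1
    obtain ⟨g, rfl⟩ := Ideal.Quotient.mk_surjective c
    change MvPolynomial.constantCoeff b = 0
    by_contra h2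
    refine hcon g b h2 ?_
    rw [← Ideal.Quotient.eq_zero_iff_mem, map_sub, map_mul, hφ, hc, sub_self]
  obtain ⟨P, hIP, hP, hPM⟩ : ∃ P : Ideal (MvPolynomial (Fin n) k ⧸ Q), I ≤ P ∧ P.IsPrime ∧ P.comap φ.toRingHom = M₀ := by
    let _ : Algebra (MvPolynomial (Fin d) k) (MvPolynomial (Fin n) k ⧸ Q) := φ.toRingHom.toAlgebra
    have hint : Algebra.IsIntegral (MvPolynomial (Fin d) k) (MvPolynomial (Fin n) k ⧸ Q) :=
      ⟨fun x => hfin.to_isIntegral x⟩
    obtain ⟨P, h1, h2, h3⟩ := Ideal.exists_ideal_over_prime_of_isIntegral M₀ I hI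
    exact ⟨P, h1, h2, h3⟩
  let P' : Ideal (MvPolynomial (Fin n) k) := P.comap (Ideal.Quotient.mk Q)
  have hP' : P'.IsPrime := Ideal.IsPrime.comap (Ideal.Quotient.mk Q)
  have hle : Q ⊔ Ideal.span (Set.range Y) ≤ P' := by
    refine sup_le ?_ ?_
    · intro q hq
      change Ideal.Quotient.mk Q q ∈ P
      rw [Ideal.Quotient.eq_zero_iff_mem.2 hq]
      exact P.zero_mem
    · rw [Ideal.span_le]
      rintro _ ⟨j, rfl⟩
      change Ideal.Quotient.mk Q (Y j) ∈ P
      have h1 : (MvPolynomial.X j : MvPolynomial (Fin d) k) ∈ P.comap φ.toRingHom := by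
        rw [hPM]
        change MvPolynomial.constantCoeff (MvPolynomial.X j) = 0
        exact MvPolynomial.constantCoeff_X k j
      have h2 : φ (MvPolynomial.X j) ∈ P := h1
      have h3 : φ (MvPolynomial.X j) = Ideal.Quotient.mk Q (Y j) := MvPolynomial.aeval_X _ _
      rwa [h3] at h2
  have hX : ∀ i, (MvPolynomial.X i : MvPolynomial (Fin n) k) ∈ P' := by
    intro i
    obtain ⟨M, hM⟩ := Z7_pow w hw Q hQ N Y hY hfin i
    exact hP'.mem_of_pow_mem M (hle hM)
  have hf' : f ∈ P' := hIP (Ideal.subset_span rfl)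
  have h1 : Ideal.Quotient.mk P' f = Ideal.Quotient.mk P' (MvPolynomial.C (MvPolynomial.constantCoeff f)) := by
    have h3 := MvPolynomial.comp_aeval_apply (f := MvPolynomial.X) (Ideal.Quotient.mkₐ k P') f
    have h4 : (fun j => (Ideal.Quotient.mkₐ k P') (MvPolynomial.X j)) = 0 := by
      funext j
      exact Ideal.Quotient.eq_zero_iff_mem.2 (hX j)
    rw [h4, MvPolynomial.aeval_zero, MvPolynomial.aeval_X_left_apply] at h3
    exact h3
  rw [Ideal.Quotient.eq_zero_iff_mem.2 hf', eq_comm, Ideal.Quotient.eq_zero_iff_mem] at h1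
  have h2 : IsUnit (MvPolynomial.C (MvPolynomial.constantCoeff f) : MvPolynomial (Fin n) k) :=
    (IsUnit.mk0 _ hf).map MvPolynomial.C
  exact hP'.ne_top (Ideal.eq_top_of_isUnit_mem _ h1 h2)

end Pool.Agent.H78A
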