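import Pool.Agent.Lib.H44X.Defs
import Pool.Agent.Lib.H78A.Z8

/-!
# H78A, chunk D1 (M): `k[y]_(y) → k[x]_(x) / Q` is integral
-/

set_option autoImplicit false

open Pool.Agent.Lib.H44X

namespace Pool.Agent.H78A

universe u

theorem d1_aeval {k : Type u} [Field k] {n d : ℕ} (Q₀ : Ideal (MvPolynomial (Fin n) k))
    (Y : Fin d → MvPolynomial (Fin n) k) (b : MvPolynomial (Fin d) k) :
    (MvPolynomial.aeval (R := k) fun j => Ideal.Quotient.mk Q₀ (Y j)) b =
      Ideal.Quotient.mk Q₀ (MvPolynomial.aeval Y b) := by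
  have h : (MvPolynomial.aeval (R := k) fun j => Ideal.Quotient.mk Q₀ (Y j)) =
      (Ideal.Quotient.mkₐ k Q₀).comp (MvPolynomial.aeval Y) := by
    apply MvPolynomial.algHom_ext
    intro j
    simp
  rw [h]
  rfl

theorem d1_psi {k : Type u} [Field k] {n d : ℕ} (Y : Fin d → MvPolynomial (Fin n) k)
    (hY0 : ∀ j, MvPolynomial.constantCoeff (Y j) = 0) (b : MvPolynomial (Fin d) k) :
    psi Y hY0 (algebraMap (MvPolynomial (Fin d) k) (SS k d) b) =
      algebraMap (MvPolynomial (Fin n) k) (SS k n) (MvPolynomial.aeval Y b) :=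
  Localization.localRingHom_to_map _ _ _ _ b

/-- Proof. `P = MvPolynomial (Fin n) k`, `S = SS k n`, `φ = (mk Q).comp (psi Y hY0)`. (1) For `f ∈ P` the class of `algebraMap f` is integral over `SS k d`: `mk Q₀ f` is a root of a
monic polynomial over `MvPolynomial (Fin d) k` (`hfin`, `RingHom.Finite.to_isIntegral`); apply the homomorphisms `MvPolynomial (Fin d) k → SS k d` and `P/Q₀ → S/Q`
(`psi (algebraMap b) = algebraMap (aeval Y b)`: `Localization.localRingHom_to_map`; `Polynomial.map`, `RingHom.IsIntegralElem`). (2) An element of `S/Q` is the class of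
`f / g`, `constantCoeff g ≠ 0` (`IsLocalization.mk'_surjective`). `Z_unit`: `g g' - aeval Y b ∈ Q₀`, `constantCoeff b ≠ 0`. So `f / g = f g' / aeval Y b` in `S/Q`, and
`1 / aeval Y b = φ (1 / b)` (`b` is a unit of `SS k d`: not in `org k d`). The product of two integral elements is integral (`RingHom.IsIntegralElem.mul`,
`RingHom.isIntegralElem_map`). -/
theorem D1_int {k : Type u} [Field k] [CharZero k] {n : ℕ} (w : Fin n → ℕ) (hw : ∀ i, 0 < w i)
    (Q₀ : Ideal (MvPolynomial (Fin n) k)) [Q₀.IsPrime]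
    (hQ : ∀ f ∈ Q₀, ∀ m, MvPolynomial.weightedHomogeneousComponent w m f ∈ Q₀)
    (N d : ℕ) (Y : Fin d → MvPolynomial (Fin n) k) (hN : 0 < N)
    (hY : ∀ j, MvPolynomial.IsWeightedHomogeneous w (Y j) N)
    (hY0 : ∀ j, MvPolynomial.constantCoeff (Y j) = 0)
    (hinj : Function.Injective (MvPolynomial.aeval (R := k) fun j => Ideal.Quotient.mk Q₀ (Y j)))
    (hfin : (MvPolynomial.aeval (R := k) fun j => Ideal.Quotient.mk Q₀ (Y j)).toRingHom.Finite) :
    ((Ideal.Quotient.mk (Q₀.map (algebraMap (MvPolynomial (Fin n) k) (SS k n)))).comp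
      (psi Y hY0)).IsIntegral := by
  obtain ⟨Q, hQd⟩ : ∃ Q, Q = Q₀.map (algebraMap (MvPolynomial (Fin n) k) (SS k n)) := ⟨_, rfl⟩
  rw [← hQd]
  obtain ⟨φ, hφ⟩ : ∃ φ, φ = (Ideal.Quotient.mk Q).comp (psi Y hY0) := ⟨_, rfl⟩
  rw [← hφ]
  have hle : Q₀ ≤ Q.comap (algebraMap (MvPolynomial (Fin n) k) (SS k n)) := by
    rw [hQd]
    exact Ideal.le_comap_map
  have hφb : ∀ b : MvPolynomial (Fin d) k, φ (algebraMap (MvPolynomial (Fin d) k) (SS k d) b) =
      Ideal.Quotient.mk Q (algebraMap (MvPolynomial (Fin n) k) (SS k n) (MvPolynomial.aeval Y b)) := by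
    intro b
    rw [hφ, RingHom.comp_apply, d1_psi]
  -- (1)
  have h1 : ∀ f : MvPolynomial (Fin n) k,
      φ.IsIntegralElem (Ideal.Quotient.mk Q (algebraMap (MvPolynomial (Fin n) k) (SS k n) f)) := by
    intro f
    obtain ⟨p, hp, hp0⟩ := hfin.to_isIntegral (Ideal.Quotient.mk Q₀ f)
    refine ⟨p.map (algebraMap (MvPolynomial (Fin d) k) (SS k d)), hp.map _, ?_⟩
    rw [Polynomial.eval₂_map]
    have h2 : φ.comp (algebraMap (MvPolynomial (Fin d) k) (SS k d)) =
        (Ideal.quotientMap Q (algebraMap (MvPolynomial (Fin n) k) (SS k n)) hle).comp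
          (MvPolynomial.aeval (R := k) fun j => Ideal.Quotient.mk Q₀ (Y j)).toRingHom := by
      refine RingHom.ext fun b => ?_
      rw [RingHom.comp_apply, hφb, RingHom.comp_apply]
      change _ = (Ideal.quotientMap Q (algebraMap (MvPolynomial (Fin n) k) (SS k n)) hle)
        ((MvPolynomial.aeval (R := k) fun j => Ideal.Quotient.mk Q₀ (Y j)) b)
      rw [d1_aeval, Ideal.quotientMap_mk]
    have h3 : Ideal.Quotient.mk Q (algebraMap (MvPolynomial (Fin n) k) (SS k n) f) =
        (Ideal.quotientMap Q (algebraMap (MvPolynomial (Fin n) k) (SS k n)) hle) (Ideal.Quotient.mk Q₀ f) := by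
      rw [Ideal.quotientMap_mk]
    rw [h2, h3, ← Polynomial.hom_eval₂, hp0, map_zero]
  intro y
  obtain ⟨s, rfl⟩ := Ideal.Quotient.mk_surjective y
  obtain ⟨⟨f, g⟩, hs⟩ := IsLocalization.surj (org k n).primeCompl s
  have hg : MvPolynomial.constantCoeff (g : MvPolynomial (Fin n) k) ≠ 0 := fun h => g.2 h
  obtain ⟨g', b, hb, hgb⟩ := Z_unit w hw Q₀ hQ N d Y hN hY hinj hfin g hg
  have hub : IsUnit (algebraMap (MvPolynomial (Fin d) k) (SS k d) b) :=
    IsLocalization.map_units (SS k d) (⟨b, fun h => hb h⟩ : (org k d).primeCompl)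
  obtain ⟨v, hv⟩ := hub.exists_right_inv
  have e1 : Ideal.Quotient.mk Q (algebraMap (MvPolynomial (Fin n) k) (SS k n) (MvPolynomial.aeval Y b)) =
      Ideal.Quotient.mk Q (algebraMap (MvPolynomial (Fin n) k) (SS k n) (g * g')) := by
    rw [eq_comm, Ideal.Quotient.eq, ← map_sub]
    exact hle hgb
  have e2 : Ideal.Quotient.mk Q s = Ideal.Quotient.mk Q (algebraMap (MvPolynomial (Fin n) k) (SS k n) (f * g')) *
      φ v := by
    have e3 : φ (algebraMap (MvPolynomial (Fin d) k) (SS k d) b) * φ v = 1 := by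
      rw [← map_mul, hv, map_one]
    calc Ideal.Quotient.mk Q s = Ideal.Quotient.mk Q s * (φ (algebraMap (MvPolynomial (Fin d) k) (SS k d) b) * φ v) := by
          rw [e3, mul_one]
      _ = Ideal.Quotient.mk Q (algebraMap (MvPolynomial (Fin n) k) (SS k n) (f * g')) * φ v := by
          rw [hφb, e1, ← mul_assoc]
          congr 1
          rw [map_mul (algebraMap (MvPolynomial (Fin n) k) (SS k n)) (g : MvPolynomial (Fin n) k) g',
            map_mul (Ideal.Quotient.mk Q), ← mul_assoc, ← map_mul (Ideal.Quotient.mk Q), hs, ← map_mul,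
            ← map_mul]
  rw [e2]
  have h4 : φ.IsIntegralElem (φ v) := φ.isIntegralElem_map
  exact @RingHom.IsIntegralElem.mul (SS k d) (SS k n ⧸ Q) _ _ φ _ _ (h1 _) h4

end Pool.Agent.H78A
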