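import Mathlib

/-!
# H78A, chunk D2 (M, only Mathlib, two theorems): the dimension and integral extensions
-/

set_option autoImplicit false

namespace Pool.Agent.H78A

/-- Proof. The map on prime spectra `PrimeSpectrum.comap f : Spec B → Spec A` is strictly monotone (incomparability: `Ideal.comap_lt_comap_of_integral_mem_sdiff` or similar,
with the algebra structure `f.toAlgebra`), so `Order.krullDim_le_of_strictMono`. -/
theorem D2_le {A B : Type*} [CommRing A] [CommRing B] (f : A →+* B) (hf : f.IsIntegral) :
    ringKrullDim B ≤ ringKrullDim A := by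
  let _ : Algebra A B := f.toAlgebra
  have _hi : Algebra.IsIntegral A B := ⟨hf⟩
  refine Order.krullDim_le_of_strictMono (PrimeSpectrum.comap f) ?_
  intro p q hpq
  have hp := p.isPrime
  have h1 : p.asIdeal < q.asIdeal := hpq
  have h2 : p.asIdeal.comap (algebraMap A B) < q.asIdeal.comap (algebraMap A B) :=
    Ideal.IsIntegral.comap_lt_comap h1
  exact h2

/-- Proof. Every chain `p_0 < … < p_l` of primes of `A` is the contraction of a chain of primes of `B` of the same length (going up: induction on the chain,
`Ideal.exists_ideal_over_prime_of_isIntegral` with `I = ⊥` for the first step, `f` injective, and `I = ` the last prime for the next steps; contractions different and the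
inclusion give `<`). So `ringKrullDim A ≤ ringKrullDim B` (`iSup_le`, `LTSeries`: prove by induction on `p : LTSeries (PrimeSpectrum A)`,
`RelSeries.inductionOn'`/`snoc`: `∃ q : LTSeries (PrimeSpectrum B), q.length = p.length ∧ comap q.last = p.last`). -/
theorem D2_ge {A B : Type*} [CommRing A] [CommRing B] (f : A →+* B) (hf : f.IsIntegral)
    (hinj : Function.Injective f) : ringKrullDim A ≤ ringKrullDim B := by
  let _ : Algebra A B := f.toAlgebra
  have _hi : Algebra.IsIntegral A B := ⟨hf⟩
  have key : ∀ p : LTSeries (PrimeSpectrum A), ∃ q : LTSeries (PrimeSpectrum B), q.length = p.length ∧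
      q.last.asIdeal.comap (algebraMap A B) = p.last.asIdeal := by
    intro p
    induction p using RelSeries.inductionOn' with
    | singleton x =>
      have hx := x.isPrime
      obtain ⟨Q, -, hQ, hc⟩ := Ideal.exists_ideal_over_prime_of_isIntegral x.asIdeal (⊥ : Ideal B) (by
        intro a ha
        have h0 : f a = 0 := ha
        have h1 : a = 0 := hinj (h0.trans (map_zero f).symm)
        rw [h1]
        exact x.asIdeal.zero_mem)
      exact ⟨RelSeries.singleton _ ⟨Q, hQ⟩, rfl, hc⟩
    | snoc p x hx hp =>
      obtain ⟨q, hl, hq⟩ := hp
      have hx1 := x.isPrime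
      have hq1 := q.last.isPrime
      have hlt : p.last.asIdeal < x.asIdeal := hx
      obtain ⟨Q, hQ1, hQ, hc⟩ := Ideal.exists_ideal_over_prime_of_isIntegral_of_isPrime x.asIdeal q.last.asIdeal (by
        rw [hq]
        exact hlt.le)
      have hlt2 : q.last.asIdeal < Q := by
        refine lt_of_le_of_ne hQ1 ?_
        intro he
        rw [← he, hq] at hc
        exact absurd hc hlt.ne
      refine ⟨q.snoc ⟨Q, hQ⟩ hlt2, ?_, ?_⟩
      · show q.length + 1 + 0 = p.length + 1 + 0
        rw [hl]
      · rw [RelSeries.last_snoc, RelSeries.last_snoc]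
        exact hc
  refine iSup_le fun p => ?_
  obtain ⟨q, hl, -⟩ := key p
  rw [← hl]
  exact Order.LTSeries.length_le_krullDim q

end Pool.Agent.H78A
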