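import Pool.Agent.Lib.H78A.C2
import Pool.Agent.Lib.H78A.C3
import Pool.Agent.Lib.H78A.D1
import Pool.Agent.Lib.H78A.D2

/-!
# H78A, chunk D3 (M): regular sequences of `k[y]_(y)` in the contraction of an ideal
-/

set_option autoImplicit false

open CategoryTheory CategoryTheory.Abelian IsLocalRing
open Pool.Agent.Lib.Helper92 Pool.Agent.Lib.H44V Pool.Agent.Lib.H44X

namespace Pool.Agent.H78A

universe u

theorem d3_dim {A B : Type*} [CommRing A] [CommRing B] (φ : A →+* B) (Q J : Ideal B)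
    (h1 : ((Ideal.Quotient.mk Q).comp φ).IsIntegral) :
    ringKrullDim (A ⧸ (J ⊔ Q).comap φ) ≤ ringKrullDim (B ⧸ J) := by
  have hle : Q ≤ J ⊔ Q := le_sup_right
  have h3 : ((Ideal.Quotient.factor hle).comp ((Ideal.Quotient.mk Q).comp φ)).IsIntegral :=
    RingHom.IsIntegral.trans _ _ h1 (RingHom.isIntegral_of_surjective _ (Ideal.Quotient.factor_surjective hle))
  have h4 : ((Ideal.quotientMap (J ⊔ Q) φ (le_refl ((J ⊔ Q).comap φ))).comp
      (Ideal.Quotient.mk ((J ⊔ Q).comap φ))).IsIntegral := by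
    have e : (Ideal.quotientMap (J ⊔ Q) φ (le_refl ((J ⊔ Q).comap φ))).comp
        (Ideal.Quotient.mk ((J ⊔ Q).comap φ)) =
        (Ideal.Quotient.factor hle).comp ((Ideal.Quotient.mk Q).comp φ) := RingHom.ext fun x => rfl
    rw [e]
    exact h3
  have h5 := RingHom.IsIntegral.tower_top _ _ h4
  have h6 := D2_ge _ h5 Ideal.quotientMap_injective
  have h7 : ringKrullDim (B ⧸ (J ⊔ Q)) ≤ ringKrullDim (B ⧸ J) :=
    ringKrullDim_le_of_surjective (Ideal.Quotient.factor (le_sup_left : J ≤ J ⊔ Q))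
      (Ideal.Quotient.factor_surjective _)
  exact h6.trans h7

/-- Proof. `S = SS k n`, `B = SS k d`, `Q` the extension of `Q₀`, `b = (J ⊔ Q).comap (psi Y hY0)`. (1) `D1_int`, `D2_le`, `C2_dim`: `dim S/Q ≤ dim B ≤ d`. (2) The homomorphism
`B/b → S/(J ⊔ Q)` (`Ideal.quotientMap` or `RingHom.kerLift`) is injective and integral (`B → S/Q → S/(J ⊔ Q)` is integral: `RingHom.IsIntegral.trans` with a
surjective homomorphism, `RingHom.isIntegral_of_surjective`; then `RingHom.IsIntegral.tower_top`-type lemma for the surjective `B → B/b`), so `D2_ge`: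
`dim B/b ≤ dim S/(J ⊔ Q) ≤ dim S/J` (`ringKrullDim_le_of_surjective`, `Ideal.Quotient.factor`). (3) So `dim B/b + s ≤ dim S/J + s < dim S/Q ≤ d`. `C3_seq` with
`C2_dp`. -/
theorem D_main {k : Type u} [Field k] [CharZero k] {n : ℕ} (w : Fin n → ℕ) (hw : ∀ i, 0 < w i)
    (Q₀ : Ideal (MvPolynomial (Fin n) k)) [Q₀.IsPrime]
    (hQ : ∀ f ∈ Q₀, ∀ m, MvPolynomial.weightedHomogeneousComponent w m f ∈ Q₀)
    (N d : ℕ) (Y : Fin d → MvPolynomial (Fin n) k) (hN : 0 < N)
    (hY : ∀ j, MvPolynomial.IsWeightedHomogeneous w (Y j) N)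
    (hY0 : ∀ j, MvPolynomial.constantCoeff (Y j) = 0)
    (hinj : Function.Injective (MvPolynomial.aeval (R := k) fun j => Ideal.Quotient.mk Q₀ (Y j)))
    (hfin : (MvPolynomial.aeval (R := k) fun j => Ideal.Quotient.mk Q₀ (Y j)).toRingHom.Finite)
    (J : Ideal (SS k n)) (s : ℕ)
    (hdim : ringKrullDim (SS k n ⧸ J) + (s : WithBot ℕ∞) <
      ringKrullDim (SS k n ⧸ Q₀.map (algebraMap (MvPolynomial (Fin n) k) (SS k n)))) :
    ∃ β : ℕ → SS k d, (∀ i < s + 1, psi Y hY0 (β i) ∈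
        J ⊔ Q₀.map (algebraMap (MvPolynomial (Fin n) k) (SS k n))) ∧
      ∀ j < s + 1, IsSMulRegular (SS k d ⧸ Jx β j) (β j) := by
  have hnoe : IsNoetherianRing (SS k d) := IsLocalization.isNoetherianRing (org k d).primeCompl (SS k d) inferInstance
  have h1 := D1_int w hw Q₀ hQ N d Y hN hY hY0 hinj hfin
  generalize Q₀.map (algebraMap (MvPolynomial (Fin n) k) (SS k n)) = Q at h1 hdim ⊢
  have h2 := (D2_le (A := SS k d) (B := SS k n ⧸ Q) ((Ideal.Quotient.mk Q).comp (psi Y hY0)) h1).trans (C2_dim k d)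
  have h6 := d3_dim (psi Y hY0) Q J h1
  have h8 : ringKrullDim (SS k d ⧸ (J ⊔ Q).comap (psi Y hY0)) + (s : WithBot ℕ∞) < (d : WithBot ℕ∞) :=
    lt_of_le_of_lt (add_le_add_left h6 _) (lt_of_lt_of_le hdim h2)
  exact C3_seq d (C2_dp k d) _ s h8

end Pool.Agent.H78A
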