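import Mathlib

/-!
# H78A, chunk G1 (M, only Mathlib): a minimal prime of maximal dimension
-/

set_option autoImplicit false

namespace Pool.Agent.H78A

/-- Proof. `A = R ⧸ I` is a nontrivial Noetherian local ring, so it has finite dimension `N` (`FiniteRingKrullDim`; or `R` has), and there is a chain of primes of `A` of
length `N` (`Order.krullDim` is attained; e.g. `LTSeries.longestOf`, `Order.krullDim_eq_length_of_finiteDimensionalOrder`). Let `q` be its first prime, `p ≤ q` a minimal prime
of `A` (`Ideal.exists_minimalPrimes_le`), `P` the preimage of `p` in `R`: `P ∈ I.minimalPrimes` (`Ideal.minimalPrimes_eq_comap` or similar). The chain is a chain of primes `≥ p`,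
so `dim R/P = dim A/p ≥ N` (`ringKrullDim_quotient : ringKrullDim (R ⧸ I) = Order.krullDim (zeroLocus I)`), and `dim R/P ≤ dim R/I` (`I ≤ P`, surjection). -/
theorem G1_min {R : Type*} [CommRing R] [IsNoetherianRing R] [IsLocalRing R] (I : Ideal R) (hI : I ≠ ⊤) :
    ∃ P ∈ I.minimalPrimes, ringKrullDim (R ⧸ P) = ringKrullDim (R ⧸ I) := by
  have h1 : Nontrivial (R ⧸ I) := Ideal.Quotient.nontrivial_iff.2 hI
  have h2 : IsLocalRing (R ⧸ I) := IsLocalRing.of_surjective' (Ideal.Quotient.mk I) Ideal.Quotient.mk_surjective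
  obtain ⟨s, hs⟩ : ∃ s : LTSeries (PrimeSpectrum (R ⧸ I)), ringKrullDim (R ⧸ I) = s.length :=
    ⟨_, Order.krullDim_eq_length_of_finiteDimensionalOrder⟩
  have hp : ∀ i, ((s.toFun i).asIdeal.comap (Ideal.Quotient.mk I)).IsPrime := fun i =>
    Ideal.comap_isPrime _ _
  have hq : I ≤ (s.toFun 0).asIdeal.comap (Ideal.Quotient.mk I) := by
    intro x hx
    rw [Ideal.mem_comap, Ideal.Quotient.eq_zero_iff_mem.2 hx]
    exact Submodule.zero_mem _
  have hp0 := hp 0
  obtain ⟨P, hP, hPq⟩ := Ideal.exists_minimalPrimes_le hq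
  refine ⟨P, hP, le_antisymm ?_ ?_⟩
  · have hIP : I ≤ P := hP.1.2
    exact ringKrullDim_le_of_surjective (Ideal.Quotient.factor hIP) (Ideal.Quotient.factor_surjective hIP)
  · rw [hs, ringKrullDim_quotient]
    have hmono : StrictMono fun i : Fin (s.length + 1) =>
        (⟨⟨(s.toFun i).asIdeal.comap (Ideal.Quotient.mk I), hp i⟩, hPq.trans (Ideal.comap_mono
          (s.strictMono.monotone (Fin.zero_le i)))⟩ : PrimeSpectrum.zeroLocus (P : Set R)) := by
      intro i j hij
      refine lt_of_le_of_ne (Ideal.comap_mono (s.strictMono.monotone hij.le)) ?_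
      intro h
      have h3 := congrArg (fun x : PrimeSpectrum.zeroLocus (P : Set R) => (x : PrimeSpectrum R).asIdeal) h
      have h4 := Ideal.comap_injective_of_surjective (Ideal.Quotient.mk I) Ideal.Quotient.mk_surjective h3
      exact (s.strictMono hij).ne (PrimeSpectrum.ext h4)
    exact Order.LTSeries.length_le_krullDim (LTSeries.mk s.length _ hmono)

end Pool.Agent.H78A
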