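import Pool.Agent.Lib.H44X.Defs
import Pool.Agent.Lib.H78A.G1

/-!
# H78A, chunk G2 (M, two theorems): minimal primes of a homogeneous ideal at the origin are homogeneous; choice of `Q₀`
-/

set_option autoImplicit false

open Pool.Agent.Lib.H44X

namespace Pool.Agent.H78A

universe u

theorem g2_le {k : Type u} [Field k] {n : ℕ} (𝔭 : Ideal (SS k n)) (hp : 𝔭.IsPrime) :
    𝔭.comap (algebraMap (MvPolynomial (Fin n) k) (SS k n)) ≤ org k n := by
  intro x hx
  by_contra hxo
  have hu : IsUnit (algebraMap (MvPolynomial (Fin n) k) (SS k n) x) :=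
    IsLocalization.map_units (SS k n) (⟨x, hxo⟩ : (org k n).primeCompl)
  exact hp.ne_top (Ideal.eq_top_of_isUnit_mem _ hx hu)

/-- Proof. `P₀ = 𝔭.comap`, a prime ideal `≤ org k n` containing `F`. The weighted homogeneous submodules `𝒜 = weightedHomogeneousSubmodule k w` are a grading
(`MvPolynomial.weightedGradedAlgebra k w`). `C = (P₀.homogeneousCore 𝒜).toIdeal` is prime (`Ideal.IsPrime.homogeneousCore`, `Mathlib/RingTheory/GradedAlgebra/Radical.lean`), `≤ P₀`
(`Ideal.toIdeal_homogeneousCore_le`) and contains `F` (`Ideal.mem_homogeneousCore_of_homogeneous_of_mem`). So `C S` is a prime of `S` (`IsLocalization.isPrime_of_isPrime_disjoint`,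
`C ≤ org k n`), it contains `(F) S` and is `≤ 𝔭` (`Ideal.map_le_iff_le_comap`): by minimality `C S = 𝔭`, so `P₀ = (C S).comap = C`
(`IsLocalization.under_map_of_isPrime_disjoint`). A homogeneous ideal contains the components of its elements: `decompose 𝒜 f m` is
`weightedHomogeneousComponent w m f` (`MvPolynomial.weightedDecomposition…`, `decompose'_apply`). -/
theorem G2_hom {k : Type u} [Field k] {n : ℕ} (w : Fin n → ℕ) (F : Set (MvPolynomial (Fin n) k))
    (hF : ∀ f ∈ F, ∃ m, MvPolynomial.IsWeightedHomogeneous w f m) (𝔭 : Ideal (SS k n))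
    (hp : 𝔭 ∈ ((Ideal.span F).map (algebraMap (MvPolynomial (Fin n) k) (SS k n))).minimalPrimes) :
    ∀ f ∈ 𝔭.comap (algebraMap (MvPolynomial (Fin n) k) (SS k n)), ∀ m,
      MvPolynomial.weightedHomogeneousComponent w m f ∈
        𝔭.comap (algebraMap (MvPolynomial (Fin n) k) (SS k n)) := by
  classical
  letI : GradedAlgebra (MvPolynomial.weightedHomogeneousSubmodule k w) := MvPolynomial.weightedGradedAlgebra k w
  have hpp : 𝔭.IsPrime := hp.1.1
  have hIp : (Ideal.span F).map (algebraMap (MvPolynomial (Fin n) k) (SS k n)) ≤ 𝔭 := hp.1.2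
  have hpc : (𝔭.comap (algebraMap (MvPolynomial (Fin n) k) (SS k n))).IsPrime := Ideal.comap_isPrime _ _
  obtain ⟨C, hC⟩ : ∃ C : Ideal (MvPolynomial (Fin n) k),
      C = ((𝔭.comap (algebraMap (MvPolynomial (Fin n) k) (SS k n))).homogeneousCore
        (MvPolynomial.weightedHomogeneousSubmodule k w)).toIdeal := ⟨_, rfl⟩
  have hCp : C.IsPrime := by
    rw [hC]
    exact hpc.homogeneousCore
  have hCh : C.IsHomogeneous (MvPolynomial.weightedHomogeneousSubmodule k w) := by
    rw [hC]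
    exact HomogeneousIdeal.isHomogeneous _
  have hCle : C ≤ 𝔭.comap (algebraMap (MvPolynomial (Fin n) k) (SS k n)) := by
    rw [hC]
    exact Ideal.toIdeal_homogeneousCore_le _ _
  have hdisj : Disjoint ((org k n).primeCompl : Set (MvPolynomial (Fin n) k)) (C : Set (MvPolynomial (Fin n) k)) := by
    rw [Set.disjoint_left]
    intro x hx hxC
    exact hx (g2_le 𝔭 hpp (hCle hxC))
  have hFC : Ideal.span F ≤ C := by
    rw [Ideal.span_le]
    intro f hf
    obtain ⟨m, hm⟩ := hF f hf
    rw [hC]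
    refine Ideal.mem_homogeneousCore_of_homogeneous_of_mem ⟨m, hm⟩ ?_
    exact hIp (Ideal.mem_map_of_mem _ (Ideal.subset_span hf))
  have hCS : (C.map (algebraMap (MvPolynomial (Fin n) k) (SS k n))).IsPrime :=
    IsLocalization.isPrime_of_isPrime_disjoint (org k n).primeCompl (SS k n) C hCp hdisj
  have hCS2 : C.map (algebraMap (MvPolynomial (Fin n) k) (SS k n)) ≤ 𝔭 := Ideal.map_le_iff_le_comap.2 hCle
  have heq : C.map (algebraMap (MvPolynomial (Fin n) k) (SS k n)) = 𝔭 :=
    le_antisymm hCS2 (hp.2 ⟨hCS, Ideal.map_mono hFC⟩ hCS2)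
  have hunder : 𝔭.comap (algebraMap (MvPolynomial (Fin n) k) (SS k n)) = C := by
    rw [← heq]
    exact IsLocalization.under_map_of_isPrime_disjoint (org k n).primeCompl (SS k n) hCp hdisj
  intro f hf m
  rw [hunder] at hf ⊢
  exact MvPolynomial.weightedHomogeneousComponent_mem_of_mem k w hCh hf m

/-- Proof. `I = (span F).map`: `≠ ⊤`, because it is contained in the extension of `org k n` (`hF0`), the maximal ideal (`Localization.AtPrime.map_eq_maximalIdeal`).
`G1_min` gives `𝔭`; `Q₀ = 𝔭.comap`: prime, contains `F`, `≤ org k n` (`𝔭 ≤` maximal ideal, its preimage is `org k n`: `Localization.AtPrime.under_maximalIdeal`), homogeneous by `G2_hom`,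
and `Q₀.map = 𝔭` (`IsLocalization.map_under`). (`hw` is not needed.) -/
theorem G_prime {k : Type u} [Field k] {n : ℕ} (w : Fin n → ℕ) (hw : ∀ i, 0 < w i)
    (F : Set (MvPolynomial (Fin n) k))
    (hF : ∀ f ∈ F, ∃ m, MvPolynomial.IsWeightedHomogeneous w f m) (hF0 : ∀ f ∈ F, f ∈ org k n) :
    ∃ Q₀ : Ideal (MvPolynomial (Fin n) k), Q₀.IsPrime ∧ F ⊆ Q₀ ∧ Q₀ ≤ org k n ∧
      (∀ f ∈ Q₀, ∀ m, MvPolynomial.weightedHomogeneousComponent w m f ∈ Q₀) ∧
      ringKrullDim (SS k n ⧸ Q₀.map (algebraMap (MvPolynomial (Fin n) k) (SS k n))) =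
        ringKrullDim (SS k n ⧸
          (Ideal.span F).map (algebraMap (MvPolynomial (Fin n) k) (SS k n))) := by
  have hI : (Ideal.span F).map (algebraMap (MvPolynomial (Fin n) k) (SS k n)) ≠ ⊤ := by
    intro h
    have h1 : (Ideal.span F).map (algebraMap (MvPolynomial (Fin n) k) (SS k n)) ≤
        (org k n).map (algebraMap (MvPolynomial (Fin n) k) (SS k n)) := Ideal.map_mono (Ideal.span_le.2 hF0)
    rw [h, top_le_iff, Localization.AtPrime.map_eq_maximalIdeal] at h1
    exact (IsLocalRing.maximalIdeal.isMaximal (SS k n)).ne_top h1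
  have hnoeth : IsNoetherianRing (SS k n) := IsLocalization.isNoetherianRing (org k n).primeCompl (SS k n) inferInstance
  obtain ⟨𝔭, hp, hd⟩ := G1_min _ hI
  have hpp : 𝔭.IsPrime := hp.1.1
  refine ⟨𝔭.comap (algebraMap (MvPolynomial (Fin n) k) (SS k n)), Ideal.comap_isPrime _ _,
    fun f hf => hp.1.2 (Ideal.mem_map_of_mem _ (Ideal.subset_span hf)), g2_le 𝔭 hpp, G2_hom w F hF 𝔭 hp, ?_⟩
  rw [← hd]
  have h1 : (𝔭.comap (algebraMap (MvPolynomial (Fin n) k) (SS k n))).map
      (algebraMap (MvPolynomial (Fin n) k) (SS k n)) = 𝔭 := IsLocalization.map_under (org k n).primeCompl (SS k n) 𝔭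
  rw [h1]

end Pool.Agent.H78A
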