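import Pool.Agent.Lib.H78A.T10

/-!
# H78A, chunk T12 (S/M): a derivation is a combination of the partial derivatives
-/

set_option autoImplicit false

namespace Pool.Agent.H78A

universe u

/-- Proof. `E = e - ∑_j e (y_j) • D j` is a derivation of `K` over `k` which vanishes on `B = MvPolynomial (Fin d) k`: the map
`b ↦ E (algebraMap b)` is a derivation `B → K` over `k` (`Derivation.compAlgebraMap` or by `MvPolynomial.induction_on`) which vanishes on the
variables (`pderiv j (X i) = if i = j then 1 else 0`). So `E = 0` (`T10_zero` for `E.restrictScalars ℤ`). -/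
theorem T_unique {k : Type u} [Field k] [CharZero k] {d : ℕ} {K : Type u} [Field K] [Algebra k K]
    [Algebra (MvPolynomial (Fin d) k) K] [IsScalarTower k (MvPolynomial (Fin d) k) K]
    (hinj : Function.Injective (algebraMap (MvPolynomial (Fin d) k) K))
    (halg : Algebra.IsAlgebraic (MvPolynomial (Fin d) k) K) (D : Fin d → Derivation k K K)
    (hD : ∀ j (b : MvPolynomial (Fin d) k), D j (algebraMap (MvPolynomial (Fin d) k) K b) =
      algebraMap (MvPolynomial (Fin d) k) K (MvPolynomial.pderiv j b))
    (e : Derivation k K K) (u : K) :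
    e u = ∑ j, e (algebraMap (MvPolynomial (Fin d) k) K (MvPolynomial.X j)) * D j u := by
  let E : Derivation k K K := e - ∑ j, e (algebraMap (MvPolynomial (Fin d) k) K (MvPolynomial.X j)) • D j
  have hE : ∀ x, E x = e x - ∑ j, e (algebraMap (MvPolynomial (Fin d) k) K (MvPolynomial.X j)) * D j x := by
    intro x
    change (e - ∑ j, e (algebraMap (MvPolynomial (Fin d) k) K (MvPolynomial.X j)) • D j) x = _
    rw [Derivation.sub_apply]
    congr 1
    have h4 : ∀ s : Finset (Fin d), (∑ j ∈ s, e (algebraMap (MvPolynomial (Fin d) k) K (MvPolynomial.X j)) • D j) x =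
        ∑ j ∈ s, e (algebraMap (MvPolynomial (Fin d) k) K (MvPolynomial.X j)) * D j x := by
      intro s
      classical
      induction s using Finset.induction_on with
      | empty => rfl
      | insert a s ha ih => rw [Finset.sum_insert ha, Finset.sum_insert ha, Derivation.add_apply, ih]; rfl
    exact h4 _
  have h1 : ∀ b : MvPolynomial (Fin d) k, E (algebraMap (MvPolynomial (Fin d) k) K b) = 0 := by
    have h2 : E.compAlgebraMap (MvPolynomial (Fin d) k) = 0 := by
      refine MvPolynomial.derivation_ext fun i => ?_
      rw [Derivation.zero_apply]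
      change E (algebraMap (MvPolynomial (Fin d) k) K (MvPolynomial.X i)) = 0
      rw [hE, Finset.sum_eq_single i]
      · rw [hD, MvPolynomial.pderiv_X_self, map_one, mul_one, sub_self]
      · intro j _ hj
        rw [hD, MvPolynomial.pderiv_X_of_ne hj.symm, map_zero, mul_zero]
      · intro h3
        exact absurd (Finset.mem_univ i) h3
    intro b
    exact congrArg (fun δ : Derivation k (MvPolynomial (Fin d) k) K => δ b) h2
  have h2 := T10_zero hinj halg (E.restrictScalars ℤ) h1 u
  have h3 : E u = 0 := h2
  rw [hE] at h3
  exact sub_eq_zero.1 h3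

end Pool.Agent.H78A
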