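import Pool.Agent.Lib.H78A.E4

/-!
# H78A, chunk E5 (M): bounded denominators; existence of the valuation ring
-/

set_option autoImplicit false

namespace Pool.Agent.H78A

theorem e5_int {B F : Type*} [CommRing B] [Field F] [Algebra B F] (P : Ideal (integralClosure B F)) [hP : P.IsPrime]
    {x : F} (hx : IsIntegral B x) : x ∈ OO P :=
  ⟨⟨x, hx⟩, 1, fun h => hP.ne_top ((Ideal.eq_top_iff_one P).2 h), by simp⟩

theorem e5_un {B F : Type*} [CommRing B] [Field F] [Algebra B F] (P : Ideal (integralClosure B F)) [hP : P.IsPrime]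
    {s : integralClosure B F} (hs : s ∉ P) : Un (OO P) (s : F) := by
  have h0 : (s : F) ≠ 0 := by
    intro h
    apply hs
    have h1 : s = 0 := Subtype.ext h
    rw [h1]
    exact P.zero_mem
  exact ⟨e5_int P s.2, (s : F)⁻¹, ⟨1, s, hs, by rw [inv_mul_cancel₀ h0]; simp⟩, mul_inv_cancel₀ h0⟩

theorem e5_pow {F : Type*} [Field F] {O : Subring F} {u : F} (h : Un O u) : ∀ n : ℕ, Un O (u ^ n)
  | 0 => by
    rw [pow_zero]
    exact ⟨O.one_mem, 1, O.one_mem, one_mul 1⟩
  | n + 1 => by
    rw [pow_succ]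
    exact (e5_pow h n).mul h

theorem e5_pole {B F : Type*} [CommRing B] [IsDomain B] [UniqueFactorizationMonoid B] [Field F] [Algebra B F]
    (hinj : Function.Injective (algebraMap B F)) (t : B) (ht : Prime t) (P : Ideal (integralClosure B F))
    [P.IsPrime] (hP : P.comap (algebraMap B (integralClosure B F)) = Ideal.span {t}) (π : F)
    (hr : ∃ (e : ℕ) (u : F), 0 < e ∧ Un (OO P) u ∧ algebraMap B F t = u * π ^ e) (z : F) (hz : IsAlgebraic B z) :
    ∃ N : ℕ, π ^ N * z ∈ OO P := by
  obtain ⟨e, u, -, hu, hτ⟩ := hr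
  obtain ⟨y, hy, hyz⟩ := hz.exists_integral_multiple
  obtain ⟨r, y', hy', rfl⟩ := WfDvdMonoid.max_power_factor hy ht.irreducible
  refine ⟨e * r, ?_⟩
  have h1 : Un (OO P) (u ^ r * algebraMap B F y') := (e5_pow hu r).mul ((E4_unit hinj t P hP y').2 hy')
  refine h1.mem_of_mul ?_
  have h2 : u ^ r * algebraMap B F y' * (π ^ (e * r) * z) = (t ^ r * y') • z := by
    rw [Algebra.smul_def, map_mul, map_pow, hτ, mul_pow, pow_mul]
    ring
  rw [h2]
  exact e5_int P hyz

/-- Proof. `C = integralClosure B F` is a finite `B`-module (`IsIntegralClosure.finite B L F C`): generators `x_1, …, x_m` (`Module.finite_def`,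
`Submodule.fg_def` or `Module.Finite.exists_fin`). Every `z ∈ F` has a multiple `b z ∈ C` with `0 ≠ b ∈ B` (`F` is algebraic over `B`:
`exists_integral_multiple`), so there is `b ≠ 0` with `b D x_i ∈ C ⊆ O` for all `i` (the product). `b = t ^ r b'`, `¬ t ∣ b'` (unique factorization), `b'` is a unit of
`O` (`E4_unit`), `τ = u π ^ e`: so `π ^ (e r) D x_i ∈ O` for all `i`; `N = e r`. For `c = ∑ β_i x_i ∈ C`: `D c = ∑ (D β_i) x_i + β_i D x_i`, so
`π ^ N D c ∈ O` (`hD`). For `x ∈ O`: `x s = a`, `a`, `s ∈ C`, `s ∉ P`, `s` is a unit of `O`: `s D x = D a - x D s`, so `π ^ N D x ∈ O`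
(`Un.mem_of_mul`). -/
theorem E5_bdd {B L F : Type*} [CommRing B] [IsDomain B] [UniqueFactorizationMonoid B] [IsNoetherianRing B]
    [Field L] [CharZero L] [Algebra B L] [IsFractionRing B L] [Field F] [Algebra L F] [Algebra B F]
    [IsScalarTower B L F] [FiniteDimensional L F] (t : B) (ht : Prime t) (P : Ideal (integralClosure B F))
    [P.IsPrime] (hP : P.comap (algebraMap B (integralClosure B F)) = Ideal.span {t}) (π : F) (hπ : π ∈ OO P)
    (hr : ∃ (e : ℕ) (u : F), 0 < e ∧ Un (OO P) u ∧ algebraMap B F t = u * π ^ e)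
    (D : Derivation ℤ F F) (hD : ∀ b : B, D (algebraMap B F b) ∈ OO P) :
    ∃ N : ℕ, ∀ x ∈ OO P, π ^ N * D x ∈ OO P := by
  have hinj : Function.Injective (algebraMap B F) := by
    rw [IsScalarTower.algebraMap_eq B L F]
    exact (algebraMap L F).injective.comp (IsFractionRing.injective B L)
  have halg : ∀ z : F, IsAlgebraic B z := fun z =>
    (IsFractionRing.isAlgebraic_iff B L F).2 (Algebra.IsAlgebraic.isAlgebraic z)
  have hfin : Module.Finite B (integralClosure B F) := IsIntegralClosure.finite B L F (integralClosure B F)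
  obtain ⟨m, x, hx⟩ := Module.Finite.exists_fin (R := B) (M := integralClosure B F)
  choose N hN using fun i => e5_pole hinj t ht P hP π hr (D (x i : F)) (halg _)
  have hC : ∀ c : integralClosure B F, π ^ (∑ i, N i) * D (c : F) ∈ OO P := by
    intro c
    have hc : c ∈ Submodule.span B (Set.range x) := by
      rw [hx]
      trivial
    induction hc using Submodule.span_induction with
    | mem c hc =>
      obtain ⟨i, rfl⟩ := hc
      rw [← Finset.sum_erase_add _ _ (Finset.mem_univ i), pow_add, mul_assoc]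
      exact (OO P).mul_mem ((OO P).pow_mem hπ _) (hN i)
    | zero =>
      rw [ZeroMemClass.coe_zero, map_zero, mul_zero]
      exact (OO P).zero_mem
    | add a b _ _ ha hb =>
      rw [AddMemClass.coe_add, map_add, mul_add]
      exact (OO P).add_mem ha hb
    | smul β a _ ha =>
      have h1 : ((β • a : integralClosure B F) : F) = algebraMap B F β * (a : F) := by
        rw [← Algebra.smul_def]
        rfl
      rw [h1, D.leibniz, smul_eq_mul, smul_eq_mul]
      have h2 : π ^ (∑ i, N i) * (algebraMap B F β * D (a : F) + (a : F) * D (algebraMap B F β)) =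
          algebraMap B F β * (π ^ (∑ i, N i) * D (a : F)) + π ^ (∑ i, N i) * ((a : F) * D (algebraMap B F β)) := by
        ring
      rw [h2]
      exact (OO P).add_mem ((OO P).mul_mem (E4_unit hinj t P hP β).1 ha)
        ((OO P).mul_mem ((OO P).pow_mem hπ _) ((OO P).mul_mem (e5_int P a.2) (hD β)))
  refine ⟨∑ i, N i, fun y hy => ?_⟩
  obtain ⟨a, s, hs, ha⟩ := (mem_OO P y).1 hy
  refine (e5_un P hs).mem_of_mul ?_
  have h1 : D (a : F) = y * D (s : F) + (s : F) * D y := by
    rw [← ha, D.leibniz, smul_eq_mul, smul_eq_mul]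
  have h2 : (s : F) * (π ^ (∑ i, N i) * D y) =
      π ^ (∑ i, N i) * D (a : F) - y * (π ^ (∑ i, N i) * D (s : F)) := by
    rw [h1]
    ring
  rw [h2]
  exact (OO P).sub_mem (hC a) ((OO P).mul_mem hy (hC s))

/-- Proof. `E1_over` gives `P`, `O = OO P`; `E3_dvr`, `E4_unif`, `E4_unit`, `E5_bdd`; `int`: an integral `x` is in `C`, `x = x / 1`. -/
theorem E5_main {B L F : Type*} [CommRing B] [IsDomain B] [UniqueFactorizationMonoid B] [IsNoetherianRing B]
    [Field L] [CharZero L] [Algebra B L] [IsFractionRing B L] [Field F] [Algebra L F] [Algebra B F]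
    [IsScalarTower B L F] [FiniteDimensional L F] (t : B) (ht : Prime t) :
    ∃ (O : Subring F) (π : F), Ov B O π t := by
  have hinj : Function.Injective (algebraMap B F) := by
    rw [IsScalarTower.algebraMap_eq B L F]
    exact (algebraMap L F).injective.comp (IsFractionRing.injective B L)
  obtain ⟨P, hPp, hP⟩ := E1_over hinj t ht
  obtain ⟨π, h1, h2, h3, h4, h5⟩ := E4_unif hinj t ht P hP (E3_dvr (L := L) t ht P hP)
  exact ⟨OO P, π, h1, h2, h3, h4, fun b => (E4_unit hinj t P hP b).1, fun b => (E4_unit hinj t P hP b).2, h5,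
    fun x hx => e5_int P hx, fun D hD => E5_bdd (L := L) t ht P hP π h1 h5 D hD⟩

end Pool.Agent.H78A
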