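import Pool.Agent.Lib.H78A.Defs

/-!
# H78A, chunk T10 (M, three lemmas, only Mathlib): derivations are determined on `B`
-/

set_option autoImplicit false

namespace Pool.Agent.H78A

theorem T10_aeval {B K : Type*} [CommRing B] [Field K] [Algebra B K] (D : Derivation ℤ K K) (x : K)
    (G : Polynomial B) :
    D (Polynomial.aeval x G) = G.sum (fun i b => D (algebraMap B K b) * x ^ i) +
      Polynomial.aeval x (Polynomial.derivative G) * D x := by
  induction G using Polynomial.induction_on' with
  | add p q hp hq =>
    rw [map_add, map_add, hp, hq, map_add, map_add, Polynomial.sum_add_index]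
    · ring
    · intro i
      simp
    · intro i a b
      simp only [map_add]
      ring
  | monomial n a =>
    rw [Polynomial.sum_monomial_index (hf := by simp), Polynomial.aeval_monomial, Derivation.leibniz,
      Derivation.leibniz_pow, Polynomial.derivative_monomial, Polynomial.aeval_monomial]
    simp only [smul_eq_mul, nsmul_eq_mul, map_mul, map_natCast]
    ring

/-- Proof. Among the nonzero polynomials `G` with `aeval x G = 0` take one of minimal `natDegree`; it is not a constant (`hinj`), so `derivative G ≠ 0`
(characteristic zero, `B` a domain) and has smaller degree: `aeval x (derivative G) ≠ 0`. -/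
theorem T10_sep {B K : Type*} [CommRing B] [IsDomain B] [CharZero B] [Field K] [Algebra B K]
    (hinj : Function.Injective (algebraMap B K)) (x : K) (hx : IsAlgebraic B x) :
    ∃ G : Polynomial B, Polynomial.aeval x G = 0 ∧ Polynomial.aeval x (Polynomial.derivative G) ≠ 0 := by
  classical
  obtain ⟨P, hP0, hPx⟩ := hx
  have hex : ∃ n : ℕ, ∃ G : Polynomial B, G ≠ 0 ∧ Polynomial.aeval x G = 0 ∧ G.natDegree = n :=
    ⟨_, P, hP0, hPx, rfl⟩
  obtain ⟨G, hG0, hGx, hGn⟩ := Nat.find_spec hex
  refine ⟨G, hGx, fun hd => ?_⟩
  have hpos : G.natDegree ≠ 0 := by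
    intro h0
    rw [Polynomial.eq_C_of_natDegree_eq_zero h0, Polynomial.aeval_C] at hGx
    have h1 : G.coeff 0 = 0 := hinj (by rw [hGx, map_zero])
    apply hG0
    rw [Polynomial.eq_C_of_natDegree_eq_zero h0, h1, Polynomial.C_0]
  have hd0 : Polynomial.derivative G ≠ 0 := by
    intro h0
    exact hpos (Polynomial.natDegree_eq_zero_of_derivative_eq_zero h0)
  have hlt : (Polynomial.derivative G).natDegree < Nat.find hex := by
    rw [← hGn]
    exact Polynomial.natDegree_derivative_lt hpos
  exact Nat.find_min hex hlt ⟨_, hd0, hd, rfl⟩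

/-- Proof. `T10_sep`: `0 = D (aeval x G) = (∑_i D (algebraMap (G.coeff i)) x ^ i) + aeval x (derivative G) * D x =
aeval x (derivative G) * D x`. -/
theorem T10_zero {B K : Type*} [CommRing B] [IsDomain B] [CharZero B] [Field K] [Algebra B K]
    (hinj : Function.Injective (algebraMap B K)) (halg : Algebra.IsAlgebraic B K) (D : Derivation ℤ K K)
    (hD : ∀ b : B, D (algebraMap B K b) = 0) (x : K) : D x = 0 := by
  obtain ⟨G, h1, h2⟩ := T10_sep hinj x (halg.isAlgebraic x)
  have h3 := T10_aeval D x G
  simp only [h1, map_zero, hD, zero_mul] at h3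
  have h4 : G.sum (fun _ _ => (0 : K)) = 0 := by simp [Polynomial.sum_def]
  rw [h4, zero_add] at h3
  exact (mul_eq_zero.1 h3.symm).resolve_left h2

/-- Proof. `T10_sep` for `x`: `D x = - (∑_i algebraMap (δ (G.coeff i)) x ^ i) / aeval x (derivative G)`; apply the ring homomorphism `f` (it commutes
with `algebraMap`), and use the same formula for `D'` and `f x` (`aeval (f x) G = f (aeval x G) = 0`, and
`aeval (f x) (derivative G) = f (aeval x (derivative G)) ≠ 0`, `f` injective: `K` is a field). -/
theorem T10_comm {B K F : Type*} [CommRing B] [IsDomain B] [CharZero B] [Field K] [Algebra B K] [Field F]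
    [Algebra B F] (hinj : Function.Injective (algebraMap B K)) (halg : Algebra.IsAlgebraic B K)
    (f : K →ₐ[B] F) (D : Derivation ℤ K K) (D' : Derivation ℤ F F) (δ : B → B)
    (hD : ∀ b : B, D (algebraMap B K b) = algebraMap B K (δ b))
    (hD' : ∀ b : B, D' (algebraMap B F b) = algebraMap B F (δ b)) (x : K) : D' (f x) = f (D x) := by
  obtain ⟨G, h1, h2⟩ := T10_sep hinj x (halg.isAlgebraic x)
  have h3 := T10_aeval D x G
  have h4 := T10_aeval D' (f x) G
  have h5 : Polynomial.aeval (f x) G = f (Polynomial.aeval x G) := Polynomial.aeval_algHom_apply f x G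
  have h6 : Polynomial.aeval (f x) (Polynomial.derivative G) =
      f (Polynomial.aeval x (Polynomial.derivative G)) := Polynomial.aeval_algHom_apply f x _
  rw [h5, h1, map_zero, map_zero, h6] at h4
  rw [h1, map_zero] at h3
  have h7 := congrArg f h3
  rw [map_zero, map_add, map_mul] at h7
  have h8 : G.sum (fun i b => D' (algebraMap B F b) * f x ^ i) =
      f (G.sum (fun i b => D (algebraMap B K b) * x ^ i)) := by
    rw [Polynomial.sum_def, Polynomial.sum_def, map_sum]
    refine Finset.sum_congr rfl fun i _ => ?_
    rw [map_mul, map_pow, hD, hD', AlgHom.commutes]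
  rw [h8] at h4
  have h9 : f (Polynomial.aeval x (Polynomial.derivative G)) ≠ 0 := by
    rw [Ne, map_eq_zero]
    exact h2
  apply mul_left_cancel₀ h9
  linear_combination h7 - h4

end Pool.Agent.H78A
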