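import Pool.Agent.Lib.H78A.Defs

/-!
# H78A, chunk T11 (M, only Mathlib): the partial derivatives extend to an algebraic extension
-/

set_option autoImplicit false

namespace Pool.Agent.H78A

universe u

theorem t11_et {B K : Type u} [CommRing B] [IsDomain B] [CharZero B] [Field K] [Algebra B K]
    (hinj : Function.Injective (algebraMap B K)) (halg : Algebra.IsAlgebraic B K) : Algebra.FormallyEtale B K := by
  haveI : FaithfulSMul B K := (faithfulSMul_iff_algebraMap_injective B K).2 hinj
  letI : Algebra (FractionRing B) K := FractionRing.liftAlgebra B K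
  haveI : IsScalarTower B (FractionRing B) K := FractionRing.isScalarTower_liftAlgebra B K
  haveI : CharZero (FractionRing B) := charZero_of_injective_algebraMap (IsFractionRing.injective B (FractionRing B))
  haveI : Algebra.IsAlgebraic (FractionRing B) K :=
    (IsFractionRing.comap_isAlgebraic_iff (A := B) (K := FractionRing B) (C := K)).1 halg
  haveI : Algebra.FormallyEtale B (FractionRing B) := Algebra.FormallyEtale.of_isLocalization (nonZeroDivisors B)
  haveI : Algebra.FormallyEtale (FractionRing B) K := Algebra.FormallyEtale.of_isSeparable _ _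
  exact Algebra.FormallyEtale.comp B (FractionRing B) K

/-- Proof. `B = MvPolynomial (Fin d) k`, `L₀ = FractionRing B`; `K` is an `L₀`-algebra (`FractionRing.liftAlgebra`, `hinj`), algebraic, so separable.
`B → L₀` is formally étale (`Algebra.FormallyEtale.of_isLocalization`), `L₀ → K` too (`Algebra.FormallyEtale.of_isSeparable`), so
`B → K` is (`Algebra.FormallyEtale.comp`). Then `K ⊗[B] Ω[B⁄k] ≃ Ω[K⁄k]` (`KaehlerDifferential.tensorKaehlerEquivOfFormallyEtale` or a similar name;
it maps `1 ⊗ D b` to `D (algebraMap b)`), so the derivation `B → K`, `b ↦ algebraMap (pderiv j b)`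
(`(Algebra.linearMap B K).compDer (pderiv j)`, `Derivation.liftKaehlerDifferential`, `LinearMap.liftBaseChange`) extends to `K`.
Other proof: for every finite extension `L₀(x) ⊆ K` there is a unique extension (`Differential.differentialFiniteDimensional`,
`T10_zero` for uniqueness); define `D j x` by it. -/
theorem T_der {k : Type u} [Field k] [CharZero k] {d : ℕ} {K : Type u} [Field K] [Algebra k K]
    [Algebra (MvPolynomial (Fin d) k) K] [IsScalarTower k (MvPolynomial (Fin d) k) K]
    (hinj : Function.Injective (algebraMap (MvPolynomial (Fin d) k) K))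
    (halg : Algebra.IsAlgebraic (MvPolynomial (Fin d) k) K) :
    ∃ D : Fin d → Derivation k K K, ∀ j (b : MvPolynomial (Fin d) k),
      D j (algebraMap (MvPolynomial (Fin d) k) K b) =
      algebraMap (MvPolynomial (Fin d) k) K (MvPolynomial.pderiv j b) := by
  haveI := t11_et hinj halg
  refine ⟨fun j => ((((Algebra.linearMap (MvPolynomial (Fin d) k) K).compDer
    (MvPolynomial.pderiv j)).liftKaehlerDifferential.liftBaseChange K) ∘ₗ
      (KaehlerDifferential.tensorKaehlerEquivOfFormallyEtale k (MvPolynomial (Fin d) k) K).symm.toLinearMap).compDer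
        (KaehlerDifferential.D k K), fun j b => ?_⟩
  change (((Algebra.linearMap (MvPolynomial (Fin d) k) K).compDer
    (MvPolynomial.pderiv j)).liftKaehlerDifferential.liftBaseChange K)
      ((KaehlerDifferential.tensorKaehlerEquivOfFormallyEtale k (MvPolynomial (Fin d) k) K).symm
        (KaehlerDifferential.D k K (algebraMap (MvPolynomial (Fin d) k) K b))) = _
  rw [KaehlerDifferential.tensorKaehlerEquivOfFormallyEtale_symm_D_algebraMap, LinearMap.liftBaseChange_tmul,
    one_smul, Derivation.liftKaehlerDifferential_comp_D]
  rfl

end Pool.Agent.H78A
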