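import Pool.Agent.Lib.H78A.Defs

/-!
# H78A, chunk T13 (M, only Mathlib, two lemmas): Galois closure and trace
-/

set_option autoImplicit false

namespace Pool.Agent.H78A

universe u

/-- Proof. `F = normalClosure L K (AlgebraicClosure K)` (an intermediate field of `AlgebraicClosure K` over `L`): it is a `K`-algebra
(`normalClosure.algebra`), normal (`normalClosure.normal`) and finite (`normalClosure.is_finiteDimensional`) over `L`, separable in characteristic zero. -/
theorem T13_gal {L K : Type u} [Field L] [CharZero L] [Field K] [Algebra L K] [FiniteDimensional L K] :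
    ∃ (F : Type u) (_ : Field F) (_ : Algebra L F) (_ : Algebra K F), IsScalarTower L K F ∧
      FiniteDimensional L F ∧ IsGalois L F := by
  have hAlg : Algebra.IsAlgebraic L K := Algebra.IsAlgebraic.of_finite L K
  have : Normal L (AlgebraicClosure K) := by
    have : IsAlgClosure L (AlgebraicClosure K) :=
      ⟨inferInstance, Algebra.IsAlgebraic.trans L K (AlgebraicClosure K)⟩
    exact IsAlgClosure.normal L (AlgebraicClosure K)
  have : Normal L (IntermediateField.normalClosure L K (AlgebraicClosure K)) := inferInstance
  have : FiniteDimensional L (IntermediateField.normalClosure L K (AlgebraicClosure K)) :=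
    inferInstance
  refine ⟨IntermediateField.normalClosure L K (AlgebraicClosure K), inferInstance, inferInstance,
    inferInstance, inferInstance, inferInstance, ?_⟩
  exact IsGalois.mk

/-- Proof. `Algebra.trace_eq_sum_automorphisms` : `algebraMap L F (trace L F z) = ∑ σ z`; `Algebra.trace_trace` and
`Algebra.trace_algebraMap` : `trace L F (algebraMap K F x) = trace L K ([F : K] • x) = [F : K] • trace L K x`. `K` is finite over `L`
(`FiniteDimensional.left`-type lemma; or use the hypothesis). -/
theorem T13_tr {L K F : Type u} [Field L] [CharZero L] [Field K] [Field F] [Algebra L K] [Algebra L F]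
    [Algebra K F] [IsScalarTower L K F] [FiniteDimensional L K] [FiniteDimensional L F] [IsGalois L F] (x : K) :
    ((Module.finrank K F : ℕ) : F) * algebraMap L F (Algebra.trace L K x) =
      ∑ σ : F ≃ₐ[L] F, σ (algebraMap K F x) := by
  have : FiniteDimensional K F := FiniteDimensional.right L K F
  rw [← trace_eq_sum_automorphisms (K := L) (algebraMap K F x),
    ← Algebra.trace_trace (R := L) (S := K) (algebraMap K F x), Algebra.trace_algebraMap,
    map_nsmul, map_nsmul, nsmul_eq_mul]

end Pool.Agent.H78A
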