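import Pool.Agent.Lib.H78A.T7

/-!
# H78A, chunk T14 (M, two theorems): forms under a homomorphism of fields
-/

set_option autoImplicit false

open TensorProduct
open Pool.Agent.Lib.H44X

namespace Pool.Agent.H78A

universe u

/-- The map on forms given by a homomorphism of the coefficients. -/
noncomputable def mp {k : Type u} [Field k] (d : ℕ) {C C' : Type u} [CommRing C] [CommRing C'] [Algebra k C]
    [Algebra k C'] (f : C →ₐ[k] C') : VV k d C →ₐ[k] VV k d C' :=
  Algebra.TensorProduct.map f (AlgHom.id k (Lam k d))

/-- Proof. Additive in `v`; for `v = c ⊗ x` both sides are `f c * l x` (`f (l x • c) = l x • f c`). -/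
theorem T14_coef {k : Type u} [Field k] {d : ℕ} {C C' : Type u} [CommRing C] [CommRing C'] [Algebra k C]
    [Algebra k C'] (f : C →ₐ[k] C') (l : Module.Dual k (Lam k d)) (v : VV k d C) :
    coef l (mp d f v) = f (coef l v) := by
  induction v using TensorProduct.induction_on with
  | zero => simp
  | tmul c x =>
    simp only [mp, coef, Algebra.TensorProduct.map_tmul, AlgHom.coe_id, id_eq,
      Module.Dual.baseChange_apply_tmul]
    simp [Algebra.smul_def]
  | add a b ha hb => rw [map_add, map_add, map_add, map_add, ha, hb]

/-- Forms generated by the elements of a subring (the set version of `IsForm`). -/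
inductive FormOf {k : Type u} [Field k] {d : ℕ} {F : Type u} [Field F] [Algebra k F] (O : Set F)
    (D : Fin d → Derivation k F F) : VV k d F → Prop
  | zero : FormOf O D 0
  | one : FormOf O D 1
  | add (x y : VV k d F) : FormOf O D x → FormOf O D y → FormOf O D (x + y)
  | smul (a : F) (x : VV k d F) : a ∈ O → FormOf O D x → FormOf O D (a • x)
  | mul (a : F) (x : VV k d F) : a ∈ O → FormOf O D x → FormOf O D (dK D a * x)

theorem t14_smul {k : Type u} [Field k] {d : ℕ} {C C' : Type u} [CommRing C] [CommRing C'] [Algebra k C]
    [Algebra k C'] (f : C →ₐ[k] C') (c : C) (v : VV k d C) :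
    mp d f (c • v) = f c • mp d f v := by
  induction v using TensorProduct.induction_on with
  | zero => simp
  | tmul a x =>
    simp only [mp, TensorProduct.smul_tmul', Algebra.TensorProduct.map_tmul, smul_eq_mul, map_mul]
  | add a b ha hb => rw [smul_add, map_add, map_add, smul_add, ha, hb]

theorem t14_dy {k : Type u} [Field k] {d : ℕ} {C C' : Type u} [CommRing C] [CommRing C'] [Algebra k C]
    [Algebra k C'] (f : C →ₐ[k] C') (j : Fin d) : mp d f (dy k d C j) = dy k d C' j := by
  simp [mp, dy]

/-- Proof. Induction on `IsForm`. `mp d f` is a ring homomorphism with `mp d f (c • x) = f c • mp d f x`, and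
`mp d f (dK D u) = dK D' (f u)`, because `mp d f (dy j) = dy j` and `f (D j u) = D' j (f u)` (`hf`). -/
theorem T14_form {k : Type u} [Field k] {d : ℕ} {A K F : Type u} [CommRing A] [Field K] [Field F] [Algebra k K]
    [Algebra k F] [Algebra A K] (f : K →ₐ[k] F) (D : Fin d → Derivation k K K) (D' : Fin d → Derivation k F F)
    (hf : ∀ j x, D' j (f x) = f (D j x)) (O : Set F) (hO : ∀ a : A, f (algebraMap A K a) ∈ O) (v : VV k d K)
    (hv : IsForm A D v) : FormOf O D' (mp d f v) := by
  have hdK : ∀ u : K, mp d f (dK D u) = dK D' (f u) := by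
    intro u
    simp only [dK, onef, map_sum, t14_smul, t14_dy, hf]
  induction hv with
  | zero => rw [map_zero]; exact FormOf.zero
  | one => rw [map_one]; exact FormOf.one
  | add x y _ _ hx hy => rw [map_add]; exact FormOf.add _ _ hx hy
  | smul a x _ hx => rw [t14_smul]; exact FormOf.smul _ _ (hO a) hx
  | mul a x _ hx => rw [map_mul, hdK]; exact FormOf.mul _ _ (hO a) hx

end Pool.Agent.H78A
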