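import Pool.Agent.Lib.H78A.T8
import Pool.Agent.Lib.H78A.T14

/-!
# H78A, chunk T15 (M): the local theorem
-/

set_option autoImplicit false

open TensorProduct
open Pool.Agent.Lib.H44X

namespace Pool.Agent.H78A

universe u

/-- Proof. `B = MvPolynomial (Fin d) k`, `τ = algebraMap B F t`, `s j = D j τ = algebraMap (pderiv j t) ∈ O`. `T1_pd`: `j₀` with
`¬ t ∣ pderiv j₀ t`, so `s j₀` is a unit of `O` (`h.unit`). A positive natural number `n` is a unit of `B` (`C n`), so `¬ t ∣ n` and
`Un O (n : F)` (`h.unit`); `T4_res` gives `hres`. (1) For every `j` the derivation `D' j = D j - (s j / s j₀) • D j₀` (over `ℤ`: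
`restrictScalars`) maps `B` to `O` and `τ` to `0`, so it maps `O` to `O` (`T6_log`, `c = 0`). (2) `D'' = τ • D j₀` maps `algebraMap b` to
`τ algebraMap (pderiv j₀ b)`, in `π O` (`Mx O π τ` by `h.ram`, `0 < e`), and `τ` to `s j₀ τ`, so it maps `O` to `π O` (`T6_rad`).
(3) Induction on `FormOf`: every `v` with `FormOf O D v` satisfies `Lat O π τ s v`. `1`: `α = 1`, `γ = 0` (`T7_one`: `coef l 1 = algebraMap k F (l 1)`
is in `O` by `h.base (C (l 1))`). Sums and multiples by `a ∈ O` are clear (`coef` is linear). `dK D u * v = onef (fun j => D j u) * v`, `u ∈ O`: `T8_mul` with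
`ν = τ D j₀ u / s j₀` (in `π O` by (2)) and `b j = D' j u` (in `O` by (1)): `ν τ⁻¹ s j + b j = (s j / s j₀) D j₀ u + D' j u = D j u`.
(4) `T8_coef`. -/
theorem T15_loc {k : Type u} [Field k] [CharZero k] {d : ℕ} {F : Type u} [Field F] [Algebra k F]
    [Algebra (MvPolynomial (Fin d) k) F] [IsScalarTower k (MvPolynomial (Fin d) k) F]
    (hinj : Function.Injective (algebraMap (MvPolynomial (Fin d) k) F))
    (halg : Algebra.IsAlgebraic (MvPolynomial (Fin d) k) F) (D : Fin d → Derivation k F F)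
    (hD : ∀ j (b : MvPolynomial (Fin d) k), D j (algebraMap (MvPolynomial (Fin d) k) F b) =
      algebraMap (MvPolynomial (Fin d) k) F (MvPolynomial.pderiv j b))
    (t : MvPolynomial (Fin d) k) (ht : Prime t) {O : Subring F} {π : F} (h : Ov (MvPolynomial (Fin d) k) O π t)
    (v : VV k d F) (hv : FormOf (O : Set F) D v) (l : Module.Dual k (Lam k d)) :
    Mx O π (algebraMap (MvPolynomial (Fin d) k) F t * coef l v) := by
  have hBO : ∀ b : MvPolynomial (Fin d) k, algebraMap (MvPolynomial (Fin d) k) F b ∈ O := h.base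
  obtain ⟨τ, hτ⟩ : ∃ τ : F, τ = algebraMap (MvPolynomial (Fin d) k) F t := ⟨_, rfl⟩
  obtain ⟨s, hs⟩ : ∃ s : Fin d → F, ∀ j, s j = D j τ := ⟨_, fun _ => rfl⟩
  have hs' : ∀ j, s j = algebraMap (MvPolynomial (Fin d) k) F (MvPolynomial.pderiv j t) := by
    intro j
    rw [hs, hτ, hD]
  have hsO : ∀ j, s j ∈ O := fun j => by rw [hs']; exact hBO _
  have hτ0 : τ ≠ 0 := by
    rw [hτ]
    intro h0
    exact ht.ne_zero (hinj (by rw [h0, map_zero]))
  have hτπ : Mx O π τ := by
    obtain ⟨e, u, he, hu, hue⟩ := h.ram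
    rw [hτ, hue]
    obtain ⟨e', rfl⟩ : ∃ e', e = e' + 1 := ⟨e - 1, by omega⟩
    exact ⟨u * π ^ e', O.mul_mem hu.1 (O.pow_mem h.mem _), by ring⟩
  obtain ⟨j0, hj0⟩ := T1_pd t ht
  have hu0 : Un O (s j0) := by rw [hs']; exact h.unit _ hj0
  have hnat : ∀ n : ℕ, 0 < n → ¬ t ∣ (n : MvPolynomial (Fin d) k) := by
    intro n hn h2
    apply ht.not_unit
    refine isUnit_of_dvd_unit h2 ?_
    have h3 : ((n : ℕ) : MvPolynomial (Fin d) k) = MvPolynomial.C ((n : ℕ) : k) := by
      rw [map_natCast]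
    rw [h3]
    refine IsUnit.map MvPolynomial.C (IsUnit.mk0 _ ?_)
    exact_mod_cast hn.ne'
  have hQ : ∀ n : ℕ, 0 < n → Un O (n : F) := by
    intro n hn
    have h4 := h.unit _ (hnat n hn)
    rw [map_natCast] at h4
    exact h4
  have hres := T4_res hinj t ht hnat halg h
  -- the inverse of `s j0`
  obtain ⟨-, w0, hw0, hsw⟩ := hu0
  have hs0 : s j0 ≠ 0 := fun h0 => by rw [h0, zero_mul] at hsw; exact zero_ne_one hsw
  have hinv : (s j0)⁻¹ = w0 := inv_eq_of_mul_eq_one_right hsw
  have hinvO : (s j0)⁻¹ ∈ O := by rw [hinv]; exact hw0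
  -- (1)
  have h1 : ∀ (j : Fin d) (x : F), x ∈ O → D j x - s j * (s j0)⁻¹ * D j0 x ∈ O := by
    intro j x hx
    have := T6_log h hQ hres (((D j) - (s j * (s j0)⁻¹) • (D j0)).restrictScalars ℤ) ?_ ⟨0, O.zero_mem, ?_⟩ x hx
    · simpa using this
    · intro b
      simp only [Derivation.restrictScalars_apply, Derivation.sub_apply, Derivation.smul_apply, smul_eq_mul, hD]
      exact O.sub_mem (hBO _) (O.mul_mem (O.mul_mem (hsO j) hinvO) (hBO _))
    · simp only [Derivation.restrictScalars_apply, Derivation.sub_apply, Derivation.smul_apply, smul_eq_mul]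
      rw [← hτ, ← hs, ← hs]
      field_simp
      ring
  -- (2)
  have h2 : ∀ x ∈ O, Mx O π (τ * D j0 x) := by
    intro x hx
    have := T6_rad h hQ hres ((τ • (D j0)).restrictScalars ℤ) ?_ ⟨s j0, hsO j0, ?_⟩ x hx
    · simpa using this
    · intro b
      simp only [Derivation.restrictScalars_apply, Derivation.smul_apply, smul_eq_mul, hD]
      rw [mul_comm]
      exact hτπ.mul (hBO _)
    · simp only [Derivation.restrictScalars_apply, Derivation.smul_apply, smul_eq_mul]
      rw [← hτ, ← hs, mul_comm]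
  -- (3)
  have h3 : ∀ v : VV k d F, FormOf (O : Set F) D v → Lat O π τ s v := by
    intro v hv
    induction hv with
    | zero =>
      refine ⟨0, 0, by rw [mul_zero, smul_zero, add_zero], fun l => ?_, fun l => ?_⟩
      · rw [map_zero]; exact O.zero_mem
      · rw [map_zero]; exact Mx.zero O π
    | one =>
      refine ⟨1, 0, by rw [mul_zero, smul_zero, add_zero], fun l => ?_, fun l => ?_⟩
      · rw [T7_one, IsScalarTower.algebraMap_apply k (MvPolynomial (Fin d) k) F]
        exact hBO _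
      · rw [map_zero]; exact Mx.zero O π
    | add x y _ _ hx hy =>
      obtain ⟨α, γ, e1, e2, e3⟩ := hx
      obtain ⟨α', γ', e1', e2', e3'⟩ := hy
      refine ⟨α + α', γ + γ', ?_, fun l => ?_, fun l => ?_⟩
      · rw [e1, e1', mul_add, smul_add]
        abel
      · rw [map_add]; exact O.add_mem (e2 l) (e2' l)
      · rw [map_add]; exact (e3 l).add (e3' l)
    | smul a x ha _ hx =>
      obtain ⟨α, γ, e1, e2, e3⟩ := hx
      refine ⟨a • α, a • γ, ?_, fun l => ?_, fun l => ?_⟩
      · rw [e1, smul_add, mul_smul_comm, smul_comm]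
      · rw [map_smul, smul_eq_mul]; exact O.mul_mem ha (e2 l)
      · rw [map_smul, smul_eq_mul]; exact (e3 l).mul ha
    | mul u x hu _ hx =>
      have e1 := T8_mul (w := fun j => D j u) (b := fun j => D j u - s j * (s j0)⁻¹ * D j0 u)
        (ν := (s j0)⁻¹ * (τ * D j0 u)) ((h2 u hu).mul hinvO) (fun j => h1 j u hu) (fun j => ?_) hx
      · exact e1
      · field_simp
        ring
  have h4 := T8_coef hτπ hτ0 hsO (h3 v hv) l
  rw [hτ] at h4
  exact h4

end Pool.Agent.H78A
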