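import Pool.Agent.Lib.H78A.Defs

/-!
# H78A, chunk T9 (S/M): elements of `L` with a pole of order less than one are in the localization at `(t)`
-/

set_option autoImplicit false

namespace Pool.Agent.H78A

/-- Proof. `y = p / q` with `p`, `q ∈ B`, `q ≠ 0` (`IsFractionRing.div_surjective`). If `p = 0` take `a = 0`, `b = 1`. Otherwise `p = t ^ m p'`,
`q = t ^ n q'` with `¬ t ∣ p'`, `¬ t ∣ q'` (`exists_eq_pow_mul_and_not_dvd` with finite multiplicity). If `n ≤ m`: `a = t ^ (m - n) p'`,
`b = q'`. If `m < n`: in `F`, with `τ = algebraMap t`: `τ y * (τ ^ (n - m - 1) q') = p'` so `Mx O π (algebraMap p')` (`hy`, `h.base`, `Mx.mul`),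
but `algebraMap p'` is a unit of `O` (`h.unit`), which contradicts `h.nun`. -/
theorem T9_tr {B L F : Type*} [CommRing B] [IsDomain B] [UniqueFactorizationMonoid B] [Field L] [Field F]
    [Algebra B L] [IsFractionRing B L] [Algebra L F] [Algebra B F] [IsScalarTower B L F] {O : Subring F}
    {π : F} {t : B} (ht : Prime t) (h : Ov B O π t) (y : L)
    (hy : Mx O π (algebraMap B F t * algebraMap L F y)) :
    ∃ a b : B, ¬ t ∣ b ∧ y * algebraMap B L b = algebraMap B L a := by
  obtain ⟨p, q, hq, rfl⟩ := IsFractionRing.div_surjective (A := B) y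
  have hq0 : q ≠ 0 := nonZeroDivisors.ne_zero hq
  have hinjL : Function.Injective (algebraMap B L) := IsFractionRing.injective B L
  by_cases hp0 : p = 0
  · refine ⟨0, 1, fun h1 => ht.not_isUnit (isUnit_of_dvd_one h1), ?_⟩
    rw [hp0, map_zero, zero_div, zero_mul]
  obtain ⟨m, p', hp', rfl⟩ := WfDvdMonoid.max_power_factor hp0 ht.irreducible
  obtain ⟨n, q', hq', rfl⟩ := WfDvdMonoid.max_power_factor hq0 ht.irreducible
  have ht0 : algebraMap B L t ≠ 0 := fun h1 => ht.ne_zero (hinjL (by rw [h1, map_zero]))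
  have hq'0 : algebraMap B L q' ≠ 0 := by
    intro h1
    have h2 : q' = 0 := hinjL (by rw [h1, map_zero])
    exact hq' (h2 ▸ dvd_zero t)
  by_cases hnm : n ≤ m
  · obtain ⟨r, rfl⟩ := Nat.exists_eq_add_of_le hnm
    refine ⟨t ^ r * p', q', hq', ?_⟩
    rw [map_mul, map_mul, map_mul, map_pow, map_pow, map_pow, pow_add]
    field_simp
  · exfalso
    have hmn : m < n := not_le.1 hnm
    obtain ⟨r, rfl⟩ := Nat.exists_eq_add_of_lt hmn
    have hT : ∀ b : B, algebraMap L F (algebraMap B L b) = algebraMap B F b := fun b =>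
      (IsScalarTower.algebraMap_apply B L F b).symm
    have e1 : algebraMap B F (t ^ r * q') * (algebraMap B F t * algebraMap L F
        (algebraMap B L (t ^ m * p') / algebraMap B L (t ^ (m + r + 1) * q'))) = algebraMap B F p' := by
      rw [← hT, ← hT t, ← hT p', ← map_mul, ← map_mul]
      congr 1
      rw [map_mul, map_mul, map_mul, map_pow, map_pow, map_pow, pow_succ, pow_add]
      field_simp
    have h1 : Mx O π (algebraMap B F p') := by
      rw [← e1]
      exact hy.mul (h.base _)
    obtain ⟨z, hz, hz1⟩ := h1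
    obtain ⟨-, u, hu, hu1⟩ := h.unit p' hp'
    refine h.nun ⟨z * u, O.mul_mem hz hu, ?_⟩
    rw [← mul_assoc, ← hz1, hu1]

end Pool.Agent.H78A
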