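import Pool.Agent.Lib.H78A.T2
import Pool.Agent.Lib.H78A.T9
import Pool.Agent.Lib.H78A.T10
import Pool.Agent.Lib.H78A.T11
import Pool.Agent.Lib.H78A.T13
import Pool.Agent.Lib.H78A.T15
import Pool.Agent.Lib.H78A.E5

/-!
# H78A, chunk T16 (M): the trace of a form is a form
-/

set_option autoImplicit false

open TensorProduct
open Pool.Agent.Lib.H44X

namespace Pool.Agent.H78A

universe u

/-- The field of fractions of a finite extension is finite. -/
theorem t16_fin {B A L K : Type*} [CommRing B] [IsDomain B] [CommRing A] [IsDomain A] [Field L] [Field K]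
    [Algebra B A] [Module.Finite B A] [Algebra B L] [IsFractionRing B L] [Algebra A K] [IsFractionRing A K]
    [Algebra L K] [Algebra B K] [IsScalarTower B A K] [IsScalarTower B L K] : FiniteDimensional L K := by
  obtain ⟨S, hS⟩ := (Module.finite_def (R := B) (M := A)).1 inferInstance
  have hint : ∀ a : A, IsIntegral L (algebraMap A K a) := by
    intro a
    have h1 : IsIntegral B a := Algebra.IsIntegral.isIntegral a
    exact (h1.algebraMap (B := K)).tower_top
  have hfin : Finite ((algebraMap A K) '' (S : Set A)) := (S.finite_toSet.image _).to_subtype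
  have hE := IntermediateField.finiteDimensional_adjoin (K := L) (L := K) (S := (algebraMap A K) '' (S : Set A))
    (by
      rintro x ⟨a, -, rfl⟩
      exact hint a)
  have hmem : ∀ a : A, algebraMap A K a ∈ IntermediateField.adjoin L ((algebraMap A K) '' (S : Set A)) := by
    intro a
    have ha : a ∈ Submodule.span B (S : Set A) := by rw [hS]; trivial
    induction ha using Submodule.span_induction with
    | mem x hx => exact IntermediateField.subset_adjoin L _ ⟨x, hx, rfl⟩
    | zero => rw [map_zero]; exact zero_mem _
    | add x y _ _ hx hy => rw [map_add]; exact add_mem hx hy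
    | smul b x _ hx =>
      rw [Algebra.smul_def, map_mul, ← IsScalarTower.algebraMap_apply B A K, IsScalarTower.algebraMap_apply B L K]
      exact mul_mem (IntermediateField.algebraMap_mem _ _) hx
  have htop : IntermediateField.adjoin L ((algebraMap A K) '' (S : Set A)) = ⊤ := by
    rw [eq_top_iff]
    intro x _
    obtain ⟨a, b, -, rfl⟩ := IsFractionRing.div_surjective (A := A) x
    exact div_mem (hmem a) (hmem b)
  rw [htop] at hE
  exact LinearEquiv.finiteDimensional (IntermediateField.topEquiv (F := L) (E := K)).toLinearEquiv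

/-- Proof. `B = MvPolynomial (Fin d) k`, `K / L` is finite (`A` is finite over `B`: `K` is generated over `L` by `A`; e.g. `IsIntegralClosure`-free:
`FiniteDimensional` by `IsLocalization.finite`-type lemma, `K = L ⊗ A`, or `Module.Finite.of_isLocalization`). `T13_gal` gives `F`; put
`Algebra B F` and `Algebra k F` by composition (`RingHom.toAlgebra`). `F` is algebraic over `B`, `B → F` is injective. `T_der` for `F` gives `D'`.
Let `y = trace L K (coef l v)`. By `T2_ufd` it is enough to consider one prime `t` of `B`; `E5_main` gives `O`, `π`. For `σ ∈ Gal(F / L)` let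
`f = σ ∘ algebraMap K F : K →ₐ[k] F`; it commutes with the derivations (`T10_comm` with `δ = pderiv j`, restrict scalars to `ℤ`, `f` is a homomorphism over `B`), and
`f (algebraMap A K a) ∈ O`, because it is integral over `B` (`A` is integral over `B`; `h.int`). So `FormOf O D' (mp d f v)` (`T14_form`),
`Mx O π (τ * coef l (mp d f v))` (`T15_loc`) and `coef l (mp d f v) = f (coef l v) = σ (algebraMap K F (coef l v))` (`T14_coef`). Sum over `σ`
(`Mx.sum`, `Finset.mul_sum`, `T13_tr`): `Mx O π (τ * (n * algebraMap L F y))`, `n = [F : K] > 0` is a unit of `O` (`h.unit`, `¬ t ∣ C n`), so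
`Mx O π (τ * algebraMap L F y)` (`Un.mx_of_mul`), and `T9_tr`. -/
theorem T_main {k : Type u} [Field k] [CharZero k] {d : ℕ} {A L K : Type u} [CommRing A]
    [IsDomain A] [Field L] [Field K] [Algebra k K] [Algebra (MvPolynomial (Fin d) k) A]
    [Module.Finite (MvPolynomial (Fin d) k) A] [Algebra (MvPolynomial (Fin d) k) L]
    [IsFractionRing (MvPolynomial (Fin d) k) L] [Algebra A K] [IsFractionRing A K] [Algebra L K]
    [Algebra (MvPolynomial (Fin d) k) K] [IsScalarTower (MvPolynomial (Fin d) k) A K]
    [IsScalarTower (MvPolynomial (Fin d) k) L K] [IsScalarTower k (MvPolynomial (Fin d) k) K]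
    (hinj : Function.Injective (algebraMap (MvPolynomial (Fin d) k) A))
    (D : Fin d → Derivation k K K)
    (hD : ∀ j (b : MvPolynomial (Fin d) k), D j (algebraMap (MvPolynomial (Fin d) k) K b) =
      algebraMap (MvPolynomial (Fin d) k) K (MvPolynomial.pderiv j b))
    (v : VV k d K) (hv : IsForm A D v) (l : Module.Dual k (Lam k d)) :
    ∃ b : MvPolynomial (Fin d) k, Algebra.trace L K (coef l v) =
      algebraMap (MvPolynomial (Fin d) k) L b := by
  classical
  haveI : IsDomain (MvPolynomial (Fin d) k) := inferInstance
  haveI hfd : FiniteDimensional L K := t16_fin (B := MvPolynomial (Fin d) k) (A := A)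
  have hinjL : Function.Injective (algebraMap (MvPolynomial (Fin d) k) L) := IsFractionRing.injective _ _
  haveI : CharZero L := charZero_of_injective_algebraMap hinjL
  obtain ⟨F, fF, aLF, aKF, tow, fd, gal⟩ := T13_gal (L := L) (K := K)
  letI aBF : Algebra (MvPolynomial (Fin d) k) F :=
    ((algebraMap K F).comp (algebraMap (MvPolynomial (Fin d) k) K)).toAlgebra
  letI akF : Algebra k F := ((algebraMap K F).comp (algebraMap k K)).toAlgebra
  haveI tBKF : IsScalarTower (MvPolynomial (Fin d) k) K F := IsScalarTower.of_algebraMap_eq fun _ => rfl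
  haveI tkKF : IsScalarTower k K F := IsScalarTower.of_algebraMap_eq fun _ => rfl
  haveI tBLF : IsScalarTower (MvPolynomial (Fin d) k) L F := IsScalarTower.of_algebraMap_eq fun b => by
    rw [IsScalarTower.algebraMap_apply (MvPolynomial (Fin d) k) K F,
      IsScalarTower.algebraMap_apply (MvPolynomial (Fin d) k) L K, ← IsScalarTower.algebraMap_apply L K F]
  haveI tkBF : IsScalarTower k (MvPolynomial (Fin d) k) F := IsScalarTower.of_algebraMap_eq fun c => by
    rw [IsScalarTower.algebraMap_apply k K F, IsScalarTower.algebraMap_apply k (MvPolynomial (Fin d) k) K,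
      ← IsScalarTower.algebraMap_apply (MvPolynomial (Fin d) k) K F]
  have hinjK : Function.Injective (algebraMap (MvPolynomial (Fin d) k) K) := by
    rw [IsScalarTower.algebraMap_eq (MvPolynomial (Fin d) k) A K]
    exact (IsFractionRing.injective A K).comp hinj
  have hinjF : Function.Injective (algebraMap (MvPolynomial (Fin d) k) F) := by
    rw [IsScalarTower.algebraMap_eq (MvPolynomial (Fin d) k) K F]
    exact (algebraMap K F).injective.comp hinjK
  have halgK : Algebra.IsAlgebraic (MvPolynomial (Fin d) k) K :=
    (IsFractionRing.comap_isAlgebraic_iff (A := MvPolynomial (Fin d) k) (K := L) (C := K)).2 inferInstance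
  have halgF : Algebra.IsAlgebraic (MvPolynomial (Fin d) k) F :=
    (IsFractionRing.comap_isAlgebraic_iff (A := MvPolynomial (Fin d) k) (K := L) (C := F)).2 inferInstance
  obtain ⟨D', hD'⟩ := T_der (k := k) (d := d) (K := F) hinjF halgF
  have key := T2_ufd (B := MvPolynomial (Fin d) k) (L := L) (Algebra.trace L K (coef l v)) ?_
  · exact key
  intro t ht
  obtain ⟨O, π, hO⟩ := E5_main (B := MvPolynomial (Fin d) k) (L := L) (F := F) t ht
  -- the conjugates
  have hσ : ∀ σ : F ≃ₐ[L] F, Mx O π (algebraMap (MvPolynomial (Fin d) k) F t *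
      σ (algebraMap K F (coef l v))) := by
    intro σ
    obtain ⟨fB, hfB⟩ : ∃ fB : K →ₐ[MvPolynomial (Fin d) k] F, ∀ x, fB x = σ (algebraMap K F x) := by
      refine ⟨{ (σ : F →+* F).comp (algebraMap K F) with commutes' := fun b => ?_ }, fun _ => rfl⟩
      change σ (algebraMap K F (algebraMap (MvPolynomial (Fin d) k) K b)) = _
      rw [← IsScalarTower.algebraMap_apply (MvPolynomial (Fin d) k) K F,
        IsScalarTower.algebraMap_apply (MvPolynomial (Fin d) k) L F, σ.commutes]
    obtain ⟨f, hf⟩ : ∃ f : K →ₐ[k] F, ∀ x, f x = σ (algebraMap K F x) := by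
      refine ⟨{ (σ : F →+* F).comp (algebraMap K F) with commutes' := fun c => ?_ }, fun _ => rfl⟩
      change σ (algebraMap K F (algebraMap k K c)) = _
      rw [IsScalarTower.algebraMap_apply k (MvPolynomial (Fin d) k) K,
        ← IsScalarTower.algebraMap_apply (MvPolynomial (Fin d) k) K F,
        IsScalarTower.algebraMap_apply (MvPolynomial (Fin d) k) L F, σ.commutes,
        ← IsScalarTower.algebraMap_apply (MvPolynomial (Fin d) k) L F,
        ← IsScalarTower.algebraMap_apply k (MvPolynomial (Fin d) k) F]
    have hcomm : ∀ (j : Fin d) (x : K), D' j (f x) = f (D j x) := by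
      intro j x
      have h1 := T10_comm (B := MvPolynomial (Fin d) k) hinjK halgK fB ((D j).restrictScalars ℤ)
        ((D' j).restrictScalars ℤ) (fun b => MvPolynomial.pderiv j b) (fun b => hD j b) (fun b => hD' j b) x
      rw [hf, hf, ← hfB, ← hfB]
      exact h1
    have hOA : ∀ a : A, f (algebraMap A K a) ∈ (O : Set F) := by
      intro a
      have h1 : IsIntegral (MvPolynomial (Fin d) k) a := Algebra.IsIntegral.isIntegral a
      have h2 : IsIntegral (MvPolynomial (Fin d) k) (algebraMap A K a) := h1.algebraMap
      have h3 := h2.map fB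
      rw [hf, ← hfB]
      exact hO.int _ h3
    have h4 := T14_form f D D' hcomm (O : Set F) hOA v hv
    have h5 := T15_loc hinjF halgF D' hD' t ht hO _ h4 l
    rw [T14_coef, hf] at h5
    exact h5
  have hsum : Mx O π (algebraMap (MvPolynomial (Fin d) k) F t *
      (((Module.finrank K F : ℕ) : F) * algebraMap L F (Algebra.trace L K (coef l v)))) := by
    rw [T13_tr, Finset.mul_sum]
    exact Mx.sum _ _ fun σ _ => hσ σ
  have hfdK : FiniteDimensional K F := FiniteDimensional.right L K F
  have hn : 0 < Module.finrank K F := Module.finrank_pos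
  have hu : Un O ((Module.finrank K F : ℕ) : F) := by
    have h1 : ¬ t ∣ ((Module.finrank K F : ℕ) : MvPolynomial (Fin d) k) := by
      intro h2
      apply ht.not_unit
      refine isUnit_of_dvd_unit h2 ?_
      have h3 : ((Module.finrank K F : ℕ) : MvPolynomial (Fin d) k) =
          MvPolynomial.C ((Module.finrank K F : ℕ) : k) := by
        rw [map_natCast]
      rw [h3]
      refine IsUnit.map MvPolynomial.C (IsUnit.mk0 _ ?_)
      exact_mod_cast hn.ne'
    have h4 := hO.unit _ h1
    rw [map_natCast] at h4
    exact h4
  refine T9_tr (F := F) ht hO _ ?_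
  rw [mul_left_comm] at hsum
  exact hu.mx_of_mul hsum

end Pool.Agent.H78A
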