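import Pool.Agent.Lib.H78A.Z5

/-!
# H78A, chunk Z6 (M): homogeneous Noether normalization
-/

set_option autoImplicit false

open MvPolynomial

namespace Pool.Agent.H78A

universe u

/-- Proof. `N = ∏ i, w i > 0`, `y i = (X i) ^ (N / w i)`, weighted homogeneous of degree `(N / w i) * w i = N` (`w i ∣ N`). `Z5_ind` gives `d`, `Y`.
`mk (X i)` is integral over `k[mk Y]`: its power `mk (y i)` is (`IsIntegral.of_pow`, `0 < N / w i`). So every element of `A = S/Q` is
(`A` is generated by the `mk (X i)` over `k`: `MvPolynomial.induction_on`), and the homomorphism `aeval (mk ∘ Y)` is integral (its range is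
`k[mk Y]`: `Algebra.adjoin_range_eq_range_aeval`) and of finite type (`A` is a finitely generated `k`-algebra), so finite
(`RingHom.IsIntegral.to_finite`). -/
theorem Z_main {k : Type u} [Field k] [CharZero k] {n : ℕ} (w : Fin n → ℕ) (hw : ∀ i, 0 < w i)
    (Q : Ideal (MvPolynomial (Fin n) k)) [Q.IsPrime]
    (hQ : ∀ f ∈ Q, ∀ m, MvPolynomial.weightedHomogeneousComponent w m f ∈ Q) :
    ∃ (N d : ℕ) (Y : Fin d → MvPolynomial (Fin n) k), 0 < N ∧
      (∀ j, MvPolynomial.IsWeightedHomogeneous w (Y j) N) ∧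
      Function.Injective (MvPolynomial.aeval (R := k) fun j => Ideal.Quotient.mk Q (Y j)) ∧
      (MvPolynomial.aeval (R := k) fun j => Ideal.Quotient.mk Q (Y j)).toRingHom.Finite := by
  have hQt : Q ≠ ⊤ := Ideal.IsPrime.ne_top'
  set N : ℕ := ∏ i, w i with hNdef
  have hN : 0 < N := Finset.prod_pos fun i _ => hw i
  have hdvd : ∀ i, w i ∣ N := fun i => Finset.dvd_prod_of_mem w (Finset.mem_univ i)
  have hy : ∀ i : Fin n, IsWeightedHomogeneous w ((X i : MvPolynomial (Fin n) k) ^ (N / w i)) N := by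
    intro i
    have h1 := (isWeightedHomogeneous_X k w i).pow (N / w i)
    rwa [smul_eq_mul, Nat.div_mul_cancel (hdvd i)] at h1
  obtain ⟨d, Y, hY, hinj, hint⟩ := Z5_ind w Q hQt hQ N hN n (fun i => (X i) ^ (N / w i)) hy
  refine ⟨N, d, Y, hN, hY, hinj, ?_⟩
  set B : Subalgebra k (MvPolynomial (Fin n) k ⧸ Q) :=
    Algebra.adjoin k (Set.range fun j => Ideal.Quotient.mk Q (Y j)) with hB
  have hX : ∀ i : Fin n, IsIntegral B (Ideal.Quotient.mk Q (X i)) := by
    intro i
    have h1 := hint i
    rw [map_pow] at h1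
    exact IsIntegral.of_pow (Nat.div_pos (Nat.le_of_dvd hN (hdvd i)) (hw i)) h1
  have hall : ∀ f : MvPolynomial (Fin n) k, IsIntegral B (Ideal.Quotient.mk Q f) := by
    intro f
    induction f using MvPolynomial.induction_on with
    | C a => exact z5_mem _ (Subalgebra.algebraMap_mem _ a)
    | add p q hp hq => rw [map_add]; exact hp.add hq
    | mul_X p i hp => rw [map_mul]; exact hp.mul (hX i)
  have hg : (algebraMap B (MvPolynomial (Fin n) k ⧸ Q)).IsIntegral := by
    intro x
    obtain ⟨f, rfl⟩ := Ideal.Quotient.mk_surjective x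
    exact hall f
  have hr : (MvPolynomial.aeval (R := k) fun j => Ideal.Quotient.mk Q (Y j)).range = B :=
    (Algebra.adjoin_range_eq_range_aeval k fun j => Ideal.Quotient.mk Q (Y j)).symm
  have hmem : ∀ G, MvPolynomial.aeval (R := k) (fun j => Ideal.Quotient.mk Q (Y j)) G ∈ B := by
    intro G
    rw [← hr]
    exact ⟨G, rfl⟩
  let f : MvPolynomial (Fin d) k →ₐ[k] B :=
    (MvPolynomial.aeval (R := k) fun j => Ideal.Quotient.mk Q (Y j)).codRestrict B hmem
  have hf : Function.Surjective f := by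
    rintro ⟨x, hx⟩
    rw [← hr] at hx
    obtain ⟨G, hG⟩ := hx
    exact ⟨G, Subtype.ext hG⟩
  have hfi : f.toRingHom.IsIntegral := RingHom.isIntegral_of_surjective _ hf
  have hφ : (MvPolynomial.aeval (R := k) fun j => Ideal.Quotient.mk Q (Y j)).toRingHom =
      (algebraMap B (MvPolynomial (Fin n) k ⧸ Q)).comp f.toRingHom := rfl
  have hφi : (MvPolynomial.aeval (R := k) fun j => Ideal.Quotient.mk Q (Y j)).toRingHom.IsIntegral := by
    rw [hφ]
    exact RingHom.IsIntegral.trans _ _ hfi hg
  refine RingHom.IsIntegral.to_finite hφi ?_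
  refine RingHom.FiniteType.of_comp_finiteType (f := (C : k →+* MvPolynomial (Fin d) k)) ?_
  have h2 : (MvPolynomial.aeval (R := k) fun j => Ideal.Quotient.mk Q (Y j)).toRingHom.comp
      (C : k →+* MvPolynomial (Fin d) k) = algebraMap k (MvPolynomial (Fin n) k ⧸ Q) := by
    ext a
    exact aeval_C _ a
  rw [h2, RingHom.finiteType_algebraMap]
  infer_instance

end Pool.Agent.H78A
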