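import Pool.Agent.Lib.H44V.G1
import Pool.Agent.Lib.H44V.R1

/-!
# H78A, chunk C1 (M): depth is at most the dimension of `S/P` for associated primes `P`
-/

set_option autoImplicit false

open CategoryTheory CategoryTheory.Abelian IsLocalRing
open Pool.Agent.Lib.Helper92 Pool.Agent.Lib.H44V

namespace Pool.Agent.H78A

universe u

/-- Proof. Induction on `t` (for all `k`, `x`, `P`, `w`). `t = 0`: `ringKrullDim_nonneg_of_nontrivial`. `t + 1`: `k < r`, so
`exists_regular_mem hS x k` (as in `G1_seq`, `H44V/G1.lean`) gives `z ∈ maximalIdeal S`, regular on `S ⧸ Jx x k`; let `x' = Function.update x k z`, `J = Jx x k`,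
`Jx x' (k+1) = J ⊔ span {z}` (`Jx_congr`). (a) There are `a` and `w'` with `w - z ^ a * w' ∈ J` and `w' ∉ J ⊔ span {z}`: otherwise the class of `w` in `S ⧸ J` is in
all `(z ^ a) (S ⧸ J)`, so it is `0` (Krull: `Ideal.iInf_pow_smul_eq_bot_of_isLocalRing`, `z ∈ m`), but `w ∉ J` (take the least `a` such that
`w ∉ J ⊔ span {z ^ (a + 1)}`). (b) `P w' ⊆ J`: for `p ∈ P`: `z ^ a * (p w') ∈ J`, and `z` is regular on `S ⧸ J` (`R1_reg_iff`). (c) The class `v` of `w'` in
`M = S ⧸ Jx x' (k+1)` is not `0`; `exists_le_isAssociatedPrime_of_isNoetherianRing` gives an associated prime `P'` of `M` containing the annihilator of `v`, so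
`P ≤ P'` and `z ∈ P'`; `P' = ann (class of w'')` (see the proof of `R1_step`, `H44V/R1.lean`, for the translation `a ∈ P' ↔ a * w'' ∈ Jx x' (k+1)`).
(d) `z ∉ P` (else `z w ∈ J`, `w ∈ J`), so `P < P'`. Induction hypothesis for `(k + 1, x', P', w'')`: `t ≤ dim S/P'`, and `dim S/P' + 1 ≤ dim S/P`
(`P < P'`; e.g. `ringKrullDim_succ_le_of_surjective` for `S/P → S/P'`, kernel contains the nonzero divisor `z`; `S/P` is a domain). -/
theorem C1_isch {S : Type u} [CommRing S] [IsNoetherianRing S] [IsLocalRing S] (r : ℕ)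
    (hS : Dp (ModuleCat.of S S) r) (t : ℕ) : ∀ k : ℕ, k + t ≤ r → ∀ x : ℕ → S,
    (∀ j < k, IsSMulRegular (S ⧸ Jx x j) (x j)) → ∀ (P : Ideal S) [P.IsPrime] (w : S), w ∉ Jx x k →
    (∀ a ∈ P, a * w ∈ Jx x k) → (t : WithBot ℕ∞) ≤ ringKrullDim (S ⧸ P) := by
  induction t with
  | zero =>
    intro k _ x _ P _ w _ _
    have : Nontrivial (S ⧸ P) := Ideal.Quotient.nontrivial_iff.mpr (Ideal.IsPrime.ne_top inferInstance)
    exact_mod_cast ringKrullDim_nonneg_of_nontrivial
  | succ t ih =>
    intro k hk x hreg P hP w hw hPw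
    obtain ⟨z, hz, hzr⟩ := exists_regular_mem hS x k (by omega) hreg
    obtain ⟨x', hx'⟩ : ∃ x' : ℕ → S, x' = Function.update x k z := ⟨_, rfl⟩
    have hx'k : x' k = z := by rw [hx']; exact Function.update_self _ _ _
    have hx'j : ∀ j < k, x' j = x j := fun j hj => by rw [hx']; exact Function.update_of_ne (by omega) _ _
    have hJ : ∀ j ≤ k, Jx x' j = Jx x j :=
      fun j hj => Jx_congr _ _ _ fun i hi => hx'j i (by omega)
    have hJ' : Jx x' (k + 1) = Jx x k ⊔ Ideal.span {z} := by
      change Jx x' k ⊔ Ideal.span {x' k} = _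
      rw [hJ k le_rfl, hx'k]
    have hreg' : ∀ j < k + 1, IsSMulRegular (S ⧸ Jx x' j) (x' j) := by
      intro j hj
      rcases Nat.lt_succ_iff_lt_or_eq.mp hj with h1 | h1
      · rw [hx'j j h1, hJ j (by omega)]; exact hreg j h1
      · rw [h1, hx'k, hJ k le_rfl]; exact hzr
    rw [R1_reg_iff] at hzr
    -- (a)
    obtain ⟨a, w', ha, hw'⟩ : ∃ (a : ℕ) (w' : S), w - z ^ a * w' ∈ Jx x k ∧ w' ∉ Jx x k ⊔ Ideal.span {z} := by
      classical
      have hex : ∃ a : ℕ, w ∉ Jx x k ⊔ Ideal.span {z ^ (a + 1)} := by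
        by_contra hcon
        push Not at hcon
        apply hw
        have h1 : Submodule.Quotient.mk (p := Jx x k) w = 0 := by
          have h2 : (⨅ i : ℕ, (Ideal.span {z} : Ideal S) ^ i • (⊤ : Submodule S (S ⧸ Jx x k))) = ⊥ :=
            Ideal.iInf_pow_smul_eq_bot_of_isLocalRing (M := S ⧸ Jx x k) (Ideal.span {z})
              (fun h => by
                have h3 : Ideal.span {z} ≤ maximalIdeal S := (Ideal.span_singleton_le_iff_mem _).2 hz
                rw [h] at h3
                exact (Ideal.IsPrime.ne_top inferInstance : maximalIdeal S ≠ ⊤) (top_le_iff.1 h3))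
          have h3 : Submodule.Quotient.mk (p := Jx x k) w ∈
              (⨅ i : ℕ, (Ideal.span {z} : Ideal S) ^ i • (⊤ : Submodule S (S ⧸ Jx x k))) := by
            rw [Submodule.mem_iInf]
            intro i
            obtain ⟨y, hy, v, hv, hyv⟩ := Submodule.mem_sup.1 (hcon i)
            obtain ⟨c, rfl⟩ := Ideal.mem_span_singleton'.1 hv
            have h4 : (Submodule.Quotient.mk w : S ⧸ Jx x k) = z ^ i • Submodule.Quotient.mk (z * c) := by
              rw [← Submodule.Quotient.mk_smul, Submodule.Quotient.eq, ← hyv, smul_eq_mul]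
              have : y + c * z ^ (i + 1) - z ^ i * (z * c) = y := by ring
              rw [this]
              exact hy
            rw [h4]
            refine Submodule.smul_mem_smul ?_ Submodule.mem_top
            rw [Ideal.span_singleton_pow]
            exact Ideal.mem_span_singleton_self _
          rw [h2, Submodule.mem_bot] at h3
          exact h3
        rwa [Submodule.Quotient.mk_eq_zero] at h1
      have hmin : ∀ m < Nat.find hex, ¬ (w ∉ Jx x k ⊔ Ideal.span {z ^ (m + 1)}) :=
        fun m hm => Nat.find_min hex hm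
      have hspec := Nat.find_spec hex
      obtain ⟨a, ha⟩ : ∃ a, a = Nat.find hex := ⟨_, rfl⟩
      rw [← ha] at hmin hspec
      have hwa : w ∈ Jx x k ⊔ Ideal.span {z ^ a} := by
        rcases Nat.eq_zero_or_pos a with h0 | h0
        · rw [h0, pow_zero, Ideal.span_singleton_one, sup_top_eq]
          exact Submodule.mem_top
        · have := hmin (a - 1) (by omega)
          rw [not_not, show a - 1 + 1 = a by omega] at this
          exact this
      obtain ⟨y, hy, v, hv, hyv⟩ := Submodule.mem_sup.1 hwa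
      obtain ⟨c, rfl⟩ := Ideal.mem_span_singleton'.1 hv
      refine ⟨a, c, ?_, fun hc => hspec ?_⟩
      · have : w - z ^ a * c = y := by rw [← hyv]; ring
        rw [this]
        exact hy
      · obtain ⟨y', hy', v', hv', hyv'⟩ := Submodule.mem_sup.1 hc
        obtain ⟨c', rfl⟩ := Ideal.mem_span_singleton'.1 hv'
        have h5 : w = (y + z ^ a * y') + c' * z ^ (a + 1) := by
          rw [← hyv, ← hyv']
          ring
        rw [h5]
        refine Submodule.add_mem_sup ((Jx x k).add_mem hy ((Jx x k).mul_mem_left _ hy')) ?_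
        exact Ideal.mem_span_singleton'.2 ⟨c', rfl⟩
    -- (b)
    have hpow : ∀ (a : ℕ) (v : S), z ^ a * v ∈ Jx x k → v ∈ Jx x k := by
      intro a
      induction a with
      | zero => intro v hv; simpa using hv
      | succ a iha =>
        intro v hv
        apply iha
        apply hzr
        have : z * (z ^ a * v) = z ^ (a + 1) * v := by ring
        rw [this]
        exact hv
    have hPw' : ∀ p ∈ P, p * w' ∈ Jx x k := by
      intro p hp
      apply hpow a
      have h1 : z ^ a * (p * w') = p * w - p * (w - z ^ a * w') := by ring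
      rw [h1]
      exact (Jx x k).sub_mem (hPw p hp) ((Jx x k).mul_mem_left _ ha)
    -- (c)
    have hv0 : (Submodule.Quotient.mk w' : S ⧸ Jx x' (k + 1)) ≠ 0 := by
      rw [Ne, Submodule.Quotient.mk_eq_zero, hJ']
      exact hw'
    obtain ⟨P', hP'a, hP'le⟩ := exists_le_isAssociatedPrime_of_isNoetherianRing S
      (Submodule.Quotient.mk w' : S ⧸ Jx x' (k + 1)) hv0
    obtain ⟨hP'p, v, hv⟩ := isAssociatedPrime_iff.mp hP'a
    obtain ⟨w'', rfl⟩ := Submodule.Quotient.mk_surjective _ v
    have hmem : ∀ a : S, a ∈ P' ↔ a * w'' ∈ Jx x' (k + 1) := by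
      intro a
      rw [hv, Submodule.mem_colon_singleton, Submodule.mem_bot, ← Submodule.Quotient.mk_smul,
        Submodule.Quotient.mk_eq_zero, smul_eq_mul]
    have hann : ∀ a : S, a * w' ∈ Jx x' (k + 1) → a ∈ P' := by
      intro a ha'
      apply hP'le
      rw [Submodule.mem_colon_singleton, Submodule.mem_bot, ← Submodule.Quotient.mk_smul,
        Submodule.Quotient.mk_eq_zero, smul_eq_mul]
      exact ha'
    have hPP' : P ≤ P' := by
      intro p hp
      apply hann
      rw [hJ']
      exact Ideal.mem_sup_left (hPw' p hp)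
    have hzP' : z ∈ P' := by
      apply hann
      rw [hJ']
      exact Ideal.mem_sup_right (Ideal.mem_span_singleton'.2 ⟨w', by ring⟩)
    have hw'' : w'' ∉ Jx x' (k + 1) := fun hc => by
      have : (1 : S) ∈ P' := (hmem 1).mpr (by simpa using hc)
      exact hP'p.ne_top ((Ideal.eq_top_iff_one _).mpr this)
    -- (d)
    have hzP : z ∉ P := fun h => hw (hzr _ (hPw z h))
    have h1 := ih (k + 1) (by omega) x' hreg' P' w'' hw'' fun a ha' => (hmem a).1 ha'
    have h2 : ringKrullDim (S ⧸ P') + 1 ≤ ringKrullDim (S ⧸ P) := by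
      refine ringKrullDim_succ_le_of_surjective (Ideal.Quotient.factor hPP')
        (Ideal.Quotient.factor_surjective hPP') (r := Ideal.Quotient.mk P z) ?_ ?_
      · rw [mem_nonZeroDivisors_iff_ne_zero]
        intro h
        exact hzP (Ideal.Quotient.eq_zero_iff_mem.1 h)
      · rw [Ideal.Quotient.factor_mk]
        exact Ideal.Quotient.eq_zero_iff_mem.2 hzP'
    refine le_trans ?_ h2
    push_cast
    exact add_le_add_left h1 1

end Pool.Agent.H78A
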