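import Pool.Agent.Lib.H44V.G1
import Pool.Agent.Lib.H44V.R1
import Pool.Agent.Lib.H44X.Defs

/-!
# H78A, chunk C2 (M): the maximal ideal of `k[y]_(y)` is generated by a regular sequence
-/

set_option autoImplicit false

open CategoryTheory CategoryTheory.Abelian IsLocalRing
open Pool.Agent.Lib.Helper92 Pool.Agent.Lib.H44V Pool.Agent.Lib.H44X

namespace Pool.Agent.H78A

universe u

/-- The variables, extended by zero. -/
noncomputable abbrev c2_x (k : Type u) [Field k] (d : ℕ) : ℕ → MvPolynomial (Fin d) k :=
  fun i => if h : i < d then (MvPolynomial.X ⟨i, h⟩ : MvPolynomial (Fin d) k) else 0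

theorem c2_Jx (k : Type u) [Field k] (d j : ℕ) :
    Jx (c2_x k d) j = Ideal.span (MvPolynomial.X '' {i : Fin d | (i : ℕ) < j}) := by
  induction j with
  | zero =>
    have h0 : {i : Fin d | (i : ℕ) < 0} = ∅ := by
      ext i
      simp
    rw [h0, Set.image_empty, Ideal.span_empty]
    rfl
  | succ j ih =>
    apply le_antisymm
    · refine sup_le ?_ ?_
      · rw [ih]
        refine Ideal.span_mono (Set.image_mono ?_)
        intro i hi
        have hi' : (i : ℕ) < j := hi
        show (i : ℕ) < j + 1
        omega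
      · rw [Ideal.span_singleton_le_iff_mem]
        by_cases h : j < d
        · have e : c2_x k d j = MvPolynomial.X ⟨j, h⟩ := dif_pos h
          rw [e]
          exact Ideal.subset_span ⟨⟨j, h⟩, Nat.lt_succ_self j, rfl⟩
        · have e : c2_x k d j = 0 := dif_neg h
          rw [e]
          exact Ideal.zero_mem _
    · rw [Ideal.span_le]
      rintro _ ⟨i, hi, rfl⟩
      have hi' : (i : ℕ) < j + 1 := hi
      show (MvPolynomial.X i : MvPolynomial (Fin d) k) ∈ Jx (c2_x k d) j ⊔ Ideal.span {c2_x k d j}
      rcases Nat.lt_succ_iff_lt_or_eq.mp hi' with h1 | h1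
      · refine Ideal.mem_sup_left ?_
        rw [ih]
        exact Ideal.subset_span ⟨i, h1, rfl⟩
      · refine Ideal.mem_sup_right ?_
        have e : c2_x k d j = MvPolynomial.X i := by
          subst h1
          exact dif_pos i.2
        rw [e]
        exact Ideal.mem_span_singleton_self _

theorem c2_reg (k : Type u) [Field k] (d : ℕ) (j : ℕ) (hj : j < d) :
    IsSMulRegular (MvPolynomial (Fin d) k ⧸ Jx (c2_x k d) j)
      (MvPolynomial.X ⟨j, hj⟩ : MvPolynomial (Fin d) k) := by
  rw [R1_reg_iff]
  intro a ha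
  rw [c2_Jx, MvPolynomial.mem_ideal_span_X_image] at ha ⊢
  intro m hm
  have h1 : Finsupp.single (⟨j, hj⟩ : Fin d) 1 + m ∈
      ((MvPolynomial.X ⟨j, hj⟩ : MvPolynomial (Fin d) k) * a).support := by
    rw [MvPolynomial.mem_support_iff, MvPolynomial.coeff_X_mul]
    exact MvPolynomial.mem_support_iff.1 hm
  obtain ⟨i, hi, hne⟩ := ha _ h1
  refine ⟨i, hi, ?_⟩
  have hi' : (i : ℕ) < j := hi
  have hij : (⟨j, hj⟩ : Fin d) ≠ i := by
    intro h
    have h2 : j = (i : ℕ) := congrArg Fin.val h
    omega
  rw [Finsupp.add_apply, Finsupp.single_eq_of_ne' hij, zero_add] at hne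
  exact hne

theorem c2_org (k : Type u) [Field k] (d : ℕ) :
    org k d = Ideal.span (MvPolynomial.X '' (Set.univ : Set (Fin d))) := by
  ext f
  rw [MvPolynomial.mem_ideal_span_X_image]
  have h0 : f ∈ org k d ↔ MvPolynomial.coeff 0 f = 0 := Iff.rfl
  rw [h0]
  constructor
  · intro h m hm
    by_contra hc
    have hm0 : m = 0 := by
      ext i
      by_contra hi
      exact hc ⟨i, Set.mem_univ i, hi⟩
    rw [hm0] at hm
    exact MvPolynomial.mem_support_iff.1 hm h
  · intro h
    by_contra hc
    obtain ⟨i, -, hi⟩ := h 0 (MvPolynomial.mem_support_iff.2 hc)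
    exact hi rfl

theorem c2_max (k : Type u) [Field k] (d : ℕ) : maximalIdeal (SS k d) =
    (Ideal.span (MvPolynomial.X '' (Set.univ : Set (Fin d)))).map
      (algebraMap (MvPolynomial (Fin d) k) (SS k d)) := by
  rw [← c2_org]
  exact (Localization.AtPrime.map_eq_maximalIdeal (I := org k d)).symm

/-- Proof. `X i` extended to `ℕ` by `0`. `Jx X j = span {X i : i < j}` (induction). A polynomial is in `span (X '' s)` iff every monomial of it
contains some `X i`, `i ∈ s` (`MvPolynomial.mem_ideal_span_X_image`); if `X j * f` is in `span {X i : i < j}` then `f` is: the monomials of `X j * f` are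
`m + single j 1`. So `X j` is regular (`R1_reg_iff`). -/
theorem C2_pol (k : Type u) [Field k] (d : ℕ) (j : ℕ) (hj : j < d) :
    IsSMulRegular (MvPolynomial (Fin d) k ⧸ Jx (fun i => if h : i < d then (MvPolynomial.X ⟨i, h⟩ : MvPolynomial (Fin d) k) else 0) j)
      (MvPolynomial.X ⟨j, hj⟩ : MvPolynomial (Fin d) k) := by
  exact c2_reg k d j hj

/-- Proof. `x i = algebraMap (X i)` in `SS k d = Localization.AtPrime (org k d)`: regular by `C2_pol`, `R1_loc_reg`, `R1_map_Jx` (`H44V/R1.lean`);
`Jx x d` is the extension of `span {X i : i < d}`, which is `org k d` (the kernel of `constantCoeff`; a polynomial with constant term `0` is in the ideal of the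
variables), and the extension of `org k d` is the maximal ideal (`Localization.AtPrime.map_eq_maximalIdeal`). -/
theorem C2_ci (k : Type u) [Field k] (d : ℕ) : CI (maximalIdeal (SS k d)) d := by
  refine ⟨fun i => algebraMap (MvPolynomial (Fin d) k) (SS k d) (c2_x k d i), fun j hj => ?_, ?_⟩
  · rw [R1_map_Jx]
    have e : c2_x k d j = MvPolynomial.X ⟨j, hj⟩ := dif_pos hj
    have h := R1_loc_reg (org k d) _ _ (c2_reg k d j hj)
    rw [← e] at h
    exact h
  · rw [R1_map_Jx, c2_Jx, c2_max]
    have e : {i : Fin d | (i : ℕ) < d} = Set.univ := by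
      ext i
      simp
    rw [e]

/-- Proof. `C2_ci`, `R1_ci_dp` (`H44V/R1.lean`), `Ideal.IsPrime.ne_top`. -/
theorem C2_dp (k : Type u) [Field k] (d : ℕ) : Dp (ModuleCat.of (SS k d) (SS k d)) d := by
  exact R1_ci_dp (Ideal.IsPrime.ne_top inferInstance) (C2_ci k d)

/-- Proof. `C2_ci`: the maximal ideal is `span` of `d` elements (`Jx x d = span (x '' Finset.range d)` or `Finset.image x (range d)`, at most `d` elements), so
`spanFinrank ≤ d`, and `ringKrullDim_le_spanFinrank_maximalIdeal`. -/
theorem C2_dim (k : Type u) [Field k] (d : ℕ) : ringKrullDim (SS k d) ≤ (d : WithBot ℕ∞) := by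
  refine (ringKrullDim_le_spanFinrank_maximalIdeal (SS k d)).trans ?_
  have h2 : (maximalIdeal (SS k d)).spanFinrank ≤ d := by
    rw [c2_max, Ideal.map_span]
    refine (Submodule.spanFinrank_span_le_ncard_of_finite (Set.toFinite _)).trans ?_
    refine (Set.ncard_image_le (Set.toFinite _)).trans ?_
    refine (Set.ncard_image_le (Set.toFinite _)).trans ?_
    rw [Set.ncard_univ, Nat.card_eq_fintype_card, Fintype.card_fin]
  exact_mod_cast h2

end Pool.Agent.H78A
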