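import Mathlib

/-!
# H78A: trace of differential forms and homogeneous Noether normalization (definitions)

MP_fa772a_ag, graded case in characteristic zero, modules T and Z. See `PROOF.md`.
-/

set_option autoImplicit false

namespace Pool.Agent.H78A

section
variable {F : Type*} [Field F]

/-- `x ∈ π O`. -/
def Mx (O : Subring F) (π x : F) : Prop := ∃ y ∈ O, x = π * y

/-- `x` is a unit of `O`. -/
def Un (O : Subring F) (x : F) : Prop := x ∈ O ∧ ∃ y ∈ O, x * y = 1

theorem Mx.mem {O : Subring F} {π x : F} (hπ : π ∈ O) (h : Mx O π x) : x ∈ O := by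
  obtain ⟨y, hy, rfl⟩ := h
  exact O.mul_mem hπ hy

theorem Mx.zero (O : Subring F) (π : F) : Mx O π 0 := ⟨0, O.zero_mem, by ring⟩

theorem Mx.add {O : Subring F} {π x y : F} (h : Mx O π x) (h' : Mx O π y) : Mx O π (x + y) := by
  obtain ⟨a, ha, rfl⟩ := h
  obtain ⟨b, hb, rfl⟩ := h'
  exact ⟨a + b, O.add_mem ha hb, by ring⟩

theorem Mx.neg {O : Subring F} {π x : F} (h : Mx O π x) : Mx O π (-x) := by
  obtain ⟨a, ha, rfl⟩ := h
  exact ⟨-a, O.neg_mem ha, by ring⟩

theorem Mx.mul {O : Subring F} {π x a : F} (ha : a ∈ O) (h : Mx O π x) : Mx O π (a * x) := by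
  obtain ⟨y, hy, rfl⟩ := h
  exact ⟨a * y, O.mul_mem ha hy, by ring⟩

theorem Mx.sum {O : Subring F} {π : F} {ι : Type*} (s : Finset ι) (f : ι → F) (h : ∀ i ∈ s, Mx O π (f i)) :
    Mx O π (∑ i ∈ s, f i) := by
  classical
  induction s using Finset.induction_on with
  | empty => simpa using Mx.zero O π
  | insert a s ha ih =>
    rw [Finset.sum_insert ha]
    exact (h a (Finset.mem_insert_self a s)).add (ih fun i hi => h i (Finset.mem_insert_of_mem hi))

theorem Un.mul {O : Subring F} {x y : F} (h : Un O x) (h' : Un O y) : Un O (x * y) := by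
  obtain ⟨hx, a, ha, hxa⟩ := h
  obtain ⟨hy, b, hb, hyb⟩ := h'
  exact ⟨O.mul_mem hx hy, a * b, O.mul_mem ha hb, by rw [mul_mul_mul_comm, hxa, hyb, one_mul]⟩

theorem Un.ne {O : Subring F} {x : F} (h : Un O x) : x ≠ 0 := by
  obtain ⟨-, a, -, hxa⟩ := h
  intro h0
  rw [h0, zero_mul] at hxa
  exact zero_ne_one hxa

/-- A unit can be cancelled. -/
theorem Un.mem_of_mul {O : Subring F} {x y : F} (h : Un O x) (hxy : x * y ∈ O) : y ∈ O := by
  obtain ⟨-, a, ha, hxa⟩ := h
  have : y = a * (x * y) := by rw [← mul_assoc, mul_comm a x, hxa, one_mul]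
  rw [this]
  exact O.mul_mem ha hxy

theorem Un.mx_of_mul {O : Subring F} {π x y : F} (h : Un O x) (hxy : Mx O π (x * y)) : Mx O π y := by
  obtain ⟨-, a, ha, hxa⟩ := h
  have : y = a * (x * y) := by rw [← mul_assoc, mul_comm a x, hxa, one_mul]
  rw [this]
  exact hxy.mul ha

end

/-- `O` is a discrete valuation ring of `F` with uniformizer `π` which lies over the prime `t` of `B`, with bounded
denominators for derivations. -/
structure Ov (B : Type*) {F : Type*} [CommRing B] [Field F] [Algebra B F] (O : Subring F) (π : F) (t : B) :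
    Prop where
  mem : π ∈ O
  ne : π ≠ 0
  nun : ¬ ∃ y ∈ O, π * y = 1
  loc : ∀ x ∈ O, Mx O π x ∨ Un O x
  base : ∀ b : B, algebraMap B F b ∈ O
  unit : ∀ b : B, ¬ t ∣ b → Un O (algebraMap B F b)
  ram : ∃ (e : ℕ) (u : F), 0 < e ∧ Un O u ∧ algebraMap B F t = u * π ^ e
  int : ∀ x : F, IsIntegral B x → x ∈ O
  bdd : ∀ D : Derivation ℤ F F, (∀ b : B, D (algebraMap B F b) ∈ O) → ∃ N : ℕ, ∀ x ∈ O, π ^ N * D x ∈ O

/-- The localization of the integral closure of `B` in `F` at the prime `P`, as a subring of `F`. -/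
def OO {B F : Type*} [CommRing B] [Field F] [Algebra B F] (P : Ideal (integralClosure B F)) [hP : P.IsPrime] :
    Subring F where
  carrier := {x | ∃ a s : integralClosure B F, s ∉ P ∧ x * (s : F) = (a : F)}
  mul_mem' := by
    rintro x y ⟨a, s, hs, ha⟩ ⟨b, r, hr, hb⟩
    refine ⟨a * b, s * r, fun h => (hP.mem_or_mem h).elim hs hr, ?_⟩
    push_cast
    rw [← ha, ← hb]
    ring
  one_mem' := ⟨1, 1, fun h => hP.ne_top ((Ideal.eq_top_iff_one P).2 h), by simp⟩
  add_mem' := by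
    rintro x y ⟨a, s, hs, ha⟩ ⟨b, r, hr, hb⟩
    refine ⟨a * r + b * s, s * r, fun h => (hP.mem_or_mem h).elim hs hr, ?_⟩
    push_cast
    rw [← ha, ← hb]
    ring
  zero_mem' := ⟨0, 1, fun h => hP.ne_top ((Ideal.eq_top_iff_one P).2 h), by simp⟩
  neg_mem' := by
    rintro x ⟨a, s, hs, ha⟩
    refine ⟨-a, s, hs, ?_⟩
    push_cast
    rw [← ha]
    ring

theorem mem_OO {B F : Type*} [CommRing B] [Field F] [Algebra B F] (P : Ideal (integralClosure B F))
    [hP : P.IsPrime] (x : F) : x ∈ OO P ↔ ∃ a s : integralClosure B F, s ∉ P ∧ x * (s : F) = (a : F) := Iff.rfl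

end Pool.Agent.H78A
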