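import Pool.Agent.Lib.H78A.Defs

/-!
# H78A, chunk E1 (M, only Mathlib): primes of the integral closure over `(t)` have height one
-/

set_option autoImplicit false

namespace Pool.Agent.H78A

/-- Proof. `Ideal.exists_ideal_over_prime_of_isIntegral_of_isDomain` (or a version with less hypotheses) for the integral extension
`B → integralClosure B F` (injective by `hinj`) and the prime ideal `span {t}` (`Ideal.span_singleton_prime`). -/
theorem E1_over {B F : Type*} [CommRing B] [IsDomain B] [Field F] [Algebra B F]
    (hinj : Function.Injective (algebraMap B F)) (t : B) (ht : Prime t) :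
    ∃ P : Ideal (integralClosure B F), P.IsPrime ∧
      P.comap (algebraMap B (integralClosure B F)) = Ideal.span {t} := by
  have h1 : (Ideal.span {t}).IsPrime := (Ideal.span_singleton_prime ht.ne_zero).2 ht
  have h2 : Function.Injective (algebraMap B (integralClosure B F)) := by
    intro x y hxy
    apply hinj
    have h3 := congrArg (algebraMap (integralClosure B F) F) hxy
    rwa [← IsScalarTower.algebraMap_apply, ← IsScalarTower.algebraMap_apply] at h3
  refine Ideal.exists_ideal_over_prime_of_isIntegral_of_isDomain (S := integralClosure B F) (Ideal.span {t}) ?_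
  rw [(RingHom.injective_iff_ker_eq_bot _).1 h2]
  exact bot_le

/-- Proof. Let `q = Q.comap (algebraMap B C)`, `C` the integral closure. `q ≠ ⊥` (`Ideal.comap_ne_bot_of_integral_mem`: a nonzero element of `Q`),
`q ≤ span {t}`. Take `b ≠ 0` in `q`, `b = t ^ n b'` with `¬ t ∣ b'` (finite multiplicity); `b' ∉ q`, so `t ^ n ∈ q` (`q` is prime) and `t ∈ q` (if
`n = 0` then `1 ∈ q`). So `q = span {t}`. If `Q ≠ P` then `Q < P` and `Ideal.IntegralClosure.comap_lt_comap` gives `q < span {t}`: contradiction. -/
theorem E1_ht {B F : Type*} [CommRing B] [IsDomain B] [UniqueFactorizationMonoid B] [Field F] [Algebra B F]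
    (hinj : Function.Injective (algebraMap B F)) (t : B) (ht : Prime t) (P : Ideal (integralClosure B F))
    [P.IsPrime] (hP : P.comap (algebraMap B (integralClosure B F)) = Ideal.span {t})
    (Q : Ideal (integralClosure B F)) [Q.IsPrime] (hQ : Q ≠ ⊥) (hQP : Q ≤ P) : Q = P := by
  have hq2 : Q.comap (algebraMap B (integralClosure B F)) ≤ Ideal.span {t} := by
    rw [← hP]
    exact Ideal.comap_mono hQP
  obtain ⟨x, hx, hx0⟩ := Submodule.exists_mem_ne_zero_of_ne_bot hQ
  have hq1 : Q.comap (algebraMap B (integralClosure B F)) ≠ ⊥ :=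
    Ideal.comap_ne_bot_of_integral_mem hx0 hx (Algebra.IsIntegral.isIntegral x)
  obtain ⟨b, hb, hb0⟩ := Submodule.exists_mem_ne_zero_of_ne_bot hq1
  have hqp : (Q.comap (algebraMap B (integralClosure B F))).IsPrime := Ideal.IsPrime.comap _
  obtain ⟨n, b', h1, h2⟩ := WfDvdMonoid.max_power_factor hb0 ht.irreducible
  have ht' : t ∈ Q.comap (algebraMap B (integralClosure B F)) := by
    rw [h2] at hb
    rcases hqp.mem_or_mem hb with h3 | h3
    · exact hqp.mem_of_pow_mem n h3
    · exact absurd (Ideal.mem_span_singleton.1 (hq2 h3)) h1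
  by_contra hne
  have h4 := Ideal.IsIntegral.comap_lt_comap (R := B) (lt_of_le_of_ne hQP hne)
  rw [hP] at h4
  exact absurd ((Ideal.span_singleton_le_iff_mem _).2 ht') (not_le_of_gt h4)

end Pool.Agent.H78A
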