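import Pool.Agent.Lib.H78A.E1

/-!
# H78A, chunk E2 (M): the localization of the integral closure at a prime over `(t)` is a discrete valuation ring
-/

set_option autoImplicit false

namespace Pool.Agent.H78A

/-- Proof. `C = integralClosure B F` is a finite `B`-module (`IsIntegralClosure.finite B L F C`, `F / L` separable), so Noetherian
(or `IsIntegralClosure.isNoetherianRing`), and integrally closed (`integralClosure.isIntegrallyClosedOfFiniteExtension` or similar; its field of fractions is `F`:
`IsIntegralClosure.isFractionRing_of_finite_extension`). So `V = C_P` is a local Noetherian domain (`IsLocalization.AtPrime.isLocalRing`,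
`IsLocalization.isNoetherianRing`, `IsLocalization.isDomain_of_le_nonZeroDivisors`), integrally closed (`isIntegrallyClosed_of_isLocalization`).
A prime ideal `R ≠ ⊥` of `V`: its preimage in `C` is a prime `≤ P`, and `≠ ⊥` (`IsLocalization.comap_ne_bot` or: `R` is the extension of its preimage,
`IsLocalization.map_comap`), so it is `P` by `E1_ht`, so `R` is the maximal ideal (`IsLocalization.AtPrime.map_eq_maximalIdeal`).
`tfae_of_isNoetherianRing_of_isLocalRing_of_isDomain` (4 → 5, or 1) gives that `V` is a principal ideal ring; it is not a field, because the maximal ideal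
contains the image of `t ≠ 0`. So `IsDiscreteValuationRing V`. -/
theorem E2_dvr {B L F : Type*} [CommRing B] [IsDomain B] [UniqueFactorizationMonoid B] [IsNoetherianRing B]
    [Field L] [CharZero L] [Algebra B L] [IsFractionRing B L] [Field F] [Algebra L F] [Algebra B F]
    [IsScalarTower B L F] [FiniteDimensional L F] (t : B) (ht : Prime t) (P : Ideal (integralClosure B F))
    [P.IsPrime] (hP : P.comap (algebraMap B (integralClosure B F)) = Ideal.span {t})
    (V : Type*) [CommRing V] [IsDomain V] [Algebra (integralClosure B F) V] [IsLocalization.AtPrime V P] :
    IsDiscreteValuationRing V := by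
  have hinjL : Function.Injective (algebraMap B L) := IsFractionRing.injective _ _
  have hinj : Function.Injective (algebraMap B F) := by
    rw [IsScalarTower.algebraMap_eq B L F]
    exact (algebraMap L F).injective.comp hinjL
  have hC : IsNoetherianRing (integralClosure B F) :=
    IsIntegralClosure.isNoetherianRing B L F (integralClosure B F)
  have hCi : IsIntegrallyClosed (integralClosure B F) := integralClosure.isIntegrallyClosedOfFiniteExtension L
  have hVl : IsLocalRing V := IsLocalization.AtPrime.isLocalRing V P
  have hVn : IsNoetherianRing V := IsLocalization.isNoetherianRing P.primeCompl V hC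
  have hVi : IsIntegrallyClosed V := isIntegrallyClosed_of_isLocalization V P.primeCompl
    P.primeCompl_le_nonZeroDivisors
  have hmax : ∀ R : Ideal V, R ≠ ⊥ → R.IsPrime → R = IsLocalRing.maximalIdeal V := by
    intro R hR hRp
    have h1 := (IsLocalization.isPrime_iff_isPrime_disjoint P.primeCompl V R).1 hRp
    have h2 : (R.comap (algebraMap (integralClosure B F) V)).IsPrime := h1.1
    have h3 : R.comap (algebraMap (integralClosure B F) V) ≤ P := by
      intro x hx
      by_contra hxP
      exact Set.disjoint_left.1 h1.2 hxP hx
    have h4 : (R.comap (algebraMap (integralClosure B F) V)).map (algebraMap (integralClosure B F) V) = R :=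
      IsLocalization.map_under P.primeCompl V R
    have h5 : R.comap (algebraMap (integralClosure B F) V) ≠ ⊥ := by
      intro h0
      rw [h0, Ideal.map_bot] at h4
      exact hR h4.symm
    have h6 := E1_ht hinj t ht P hP (R.comap (algebraMap (integralClosure B F) V)) h5 h3
    have h7 : (IsLocalRing.maximalIdeal V).comap (algebraMap (integralClosure B F) V) = P :=
      IsLocalization.AtPrime.under_maximalIdeal V P
    have h8 : ((IsLocalRing.maximalIdeal V).comap (algebraMap (integralClosure B F) V)).map
        (algebraMap (integralClosure B F) V) = IsLocalRing.maximalIdeal V :=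
      IsLocalization.map_under P.primeCompl V _
    rw [← h4, h6, ← h7, h8]
  have hiff : (IsIntegrallyClosed V ∧ ∀ R : Ideal V, R ≠ ⊥ → R.IsPrime → R = IsLocalRing.maximalIdeal V) ↔
      IsPrincipalIdealRing V := (tfae_of_isNoetherianRing_of_isLocalRing_of_isDomain V).out 3 0
  have hpid : IsPrincipalIdealRing V := hiff.1 ⟨hVi, hmax⟩
  refine { hpid with not_a_field' := ?_ }
  intro h0
  have h1 : algebraMap B (integralClosure B F) t ∈ P := by
    rw [← Ideal.mem_comap, hP]
    exact Ideal.mem_span_singleton_self t
  have h2 : algebraMap (integralClosure B F) V (algebraMap B (integralClosure B F) t) ∈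
      IsLocalRing.maximalIdeal V := by
    rw [← Ideal.mem_comap]
    rw [show (IsLocalRing.maximalIdeal V).comap (algebraMap (integralClosure B F) V) = P from
      IsLocalization.AtPrime.under_maximalIdeal V P]
    exact h1
  rw [h0, Ideal.mem_bot] at h2
  have h3 : Function.Injective (algebraMap (integralClosure B F) V) :=
    IsLocalization.injective V P.primeCompl_le_nonZeroDivisors
  have h4 : algebraMap B (integralClosure B F) t = 0 := h3 (by rw [h2, map_zero])
  apply ht.ne_zero
  apply hinj
  rw [map_zero, IsScalarTower.algebraMap_apply B (integralClosure B F) F, h4, map_zero]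

end Pool.Agent.H78A
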