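import Pool.Agent.Lib.H78A.E2

/-!
# H78A, chunk E3 (M): the subring `OO P` is a discrete valuation ring
-/

set_option autoImplicit false

namespace Pool.Agent.H78A

/-- Proof. Let `C = integralClosure B F`. Make `OO P` a `C`-algebra: `c ↦ ⟨c, c, 1, …⟩` (`RingHom.toAlgebra`), and check `IsLocalization.AtPrime (OO P) P`:
elements `s ∉ P` are units (`(s : F)⁻¹ ∈ OO P`, `s ≠ 0`), surjectivity is the definition (`mem_OO`), injectivity is clear. Then `E2_dvr` with `V = OO P`. (Or
transport from `Localization.AtPrime P` by a ring isomorphism.) -/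
theorem E3_dvr {B L F : Type*} [CommRing B] [IsDomain B] [UniqueFactorizationMonoid B] [IsNoetherianRing B]
    [Field L] [CharZero L] [Algebra B L] [IsFractionRing B L] [Field F] [Algebra L F] [Algebra B F]
    [IsScalarTower B L F] [FiniteDimensional L F] (t : B) (ht : Prime t) (P : Ideal (integralClosure B F))
    [P.IsPrime] (hP : P.comap (algebraMap B (integralClosure B F)) = Ideal.span {t}) :
    IsDiscreteValuationRing (OO P) := by
  have hPp : P.IsPrime := inferInstance
  have h1P : (1 : integralClosure B F) ∉ P := fun h => hPp.ne_top ((Ideal.eq_top_iff_one P).2 h)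
  let f : integralClosure B F →+* OO P := (algebraMap (integralClosure B F) F).codRestrict (OO P)
    fun c => ⟨c, 1, h1P, by simp only [OneMemClass.coe_one, mul_one]; rfl⟩
  have hf : ∀ c : integralClosure B F, ((f c : OO P) : F) = (c : F) := fun c => rfl
  let _ : Algebra (integralClosure B F) (OO P) := f.toAlgebra
  have hs0 : ∀ s : integralClosure B F, s ∉ P → (s : F) ≠ 0 := by
    intro s hs h0
    apply hs
    have : s = 0 := Subtype.ext h0
    rw [this]
    exact P.zero_mem
  have hloc : IsLocalization.AtPrime (OO P) P := by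
    refine ⟨?_, ?_, ?_⟩
    · rintro ⟨s, hs⟩
      have hs' : s ∉ P := hs
      have hinv : ((s : F)⁻¹) ∈ OO P := by
        rw [mem_OO]
        exact ⟨1, s, hs', inv_mul_cancel₀ (hs0 s hs')⟩
      exact IsUnit.of_mul_eq_one ⟨(s : F)⁻¹, hinv⟩ (Subtype.ext (mul_inv_cancel₀ (hs0 s hs')))
    · rintro ⟨x, hx⟩
      obtain ⟨a, s, hs, h⟩ := (mem_OO P x).1 hx
      exact ⟨(a, ⟨s, hs⟩), Subtype.ext h⟩
    · intro x y hxy
      refine ⟨1, ?_⟩
      have h1 : ((f x : OO P) : F) = ((f y : OO P) : F) := congrArg Subtype.val hxy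
      rw [hf, hf] at h1
      rw [Subtype.ext h1]
  exact E2_dvr (L := L) t ht P hP (OO P)

end Pool.Agent.H78A
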