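import Pool.Agent.Lib.H78A.E3

/-!
# H78A, chunk E4 (M): uniformizer and ramification
-/

set_option autoImplicit false

namespace Pool.Agent.H78A

theorem e4_alg {B F : Type*} [CommRing B] [Field F] [Algebra B F] (P : Ideal (integralClosure B F)) [hP : P.IsPrime]
    (b : B) : algebraMap B F b ∈ OO P :=
  ⟨algebraMap B (integralClosure B F) b, 1, fun h => hP.ne_top ((Ideal.eq_top_iff_one P).2 h), by
    rw [OneMemClass.coe_one, mul_one]
    rfl⟩

/-- Proof. `O = OO P` is a discrete valuation ring (`hdvr`); `π` an irreducible element (`IsDiscreteValuationRing.exists_irreducible`), so `π ≠ 0`, not a unit;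
every `x ∈ O` is a unit or a multiple of `π` (maximal ideal `= (π)`, `Irreducible.maximalIdeal_eq`). `τ = algebraMap B F t` is in `O`, not `0`; it is not a unit of
`O`: if `τ y = 1` with `y s = a`, `a`, `s ∈ C`, `s ∉ P`, then `s = τ a ∈ P` (`t ∈ span {t} = P.comap`). So `τ = u π ^ e`
(`IsDiscreteValuationRing.eq_unit_mul_pow_irreducible`), and `e ≠ 0`. -/
theorem E4_unif {B F : Type*} [CommRing B] [IsDomain B] [Field F] [Algebra B F]
    (hinj : Function.Injective (algebraMap B F)) (t : B) (ht : Prime t) (P : Ideal (integralClosure B F))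
    [P.IsPrime] (hP : P.comap (algebraMap B (integralClosure B F)) = Ideal.span {t})
    (hdvr : IsDiscreteValuationRing (OO P)) :
    ∃ π : F, π ∈ OO P ∧ π ≠ 0 ∧ (¬ ∃ y ∈ OO P, π * y = 1) ∧ (∀ x ∈ OO P, Mx (OO P) π x ∨ Un (OO P) x) ∧
      ∃ (e : ℕ) (u : F), 0 < e ∧ Un (OO P) u ∧ algebraMap B F t = u * π ^ e := by
  obtain ⟨ϖ, hϖ⟩ := IsDiscreteValuationRing.exists_irreducible (OO P)
  have hne : (ϖ : F) ≠ 0 := fun h => hϖ.ne_zero (Subtype.ext h)
  have hunit : ∀ u : (OO P)ˣ, Un (OO P) ((u : OO P) : F) := fun u =>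
    ⟨(u : OO P).2, ((u⁻¹ : (OO P)ˣ) : OO P), ((u⁻¹ : (OO P)ˣ) : OO P).2, congrArg Subtype.val u.mul_inv⟩
  refine ⟨ϖ, ϖ.2, hne, ?_, ?_, ?_⟩
  · rintro ⟨y, hy, h⟩
    have h1 : ϖ * ⟨y, hy⟩ = 1 := Subtype.ext h
    exact hϖ.not_isUnit (IsUnit.of_mul_eq_one _ h1)
  · intro x hx
    by_cases hu : IsUnit (⟨x, hx⟩ : OO P)
    · obtain ⟨u, hu⟩ := hu
      have h1 := hunit u
      rw [hu] at h1
      exact Or.inr h1
    · left
      have h1 : (⟨x, hx⟩ : OO P) ∈ IsLocalRing.maximalIdeal (OO P) := (IsLocalRing.mem_maximalIdeal _).2 hu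
      rw [hϖ.maximalIdeal_eq, Ideal.mem_span_singleton] at h1
      obtain ⟨y, hy⟩ := h1
      exact ⟨y, y.2, congrArg Subtype.val hy⟩
  · have hτ0 : (⟨algebraMap B F t, e4_alg P t⟩ : OO P) ≠ 0 := by
      intro h
      have h1 : algebraMap B F t = 0 := congrArg Subtype.val h
      exact ht.ne_zero (hinj (by rw [h1, map_zero]))
    obtain ⟨n, u, hu⟩ := IsDiscreteValuationRing.eq_unit_mul_pow_irreducible hτ0 hϖ
    have hu' : algebraMap B F t = ((u : OO P) : F) * (ϖ : F) ^ n := congrArg Subtype.val hu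
    refine ⟨n, ((u : OO P) : F), Nat.pos_of_ne_zero ?_, hunit u, hu'⟩
    rintro rfl
    rw [pow_zero, mul_one] at hu'
    obtain ⟨-, y, hy, hy1⟩ := hunit u
    rw [← hu'] at hy1
    obtain ⟨a, s, hs, ha⟩ := (mem_OO P y).1 hy
    apply hs
    have h2 : s = algebraMap B (integralClosure B F) t * a := by
      apply Subtype.ext
      change (s : F) = algebraMap B F t * (a : F)
      rw [← ha, ← mul_assoc, hy1, one_mul]
    have h3 : algebraMap B (integralClosure B F) t ∈ P := by
      have h4 : t ∈ P.comap (algebraMap B (integralClosure B F)) := by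
        rw [hP]
        exact Ideal.mem_span_singleton_self t
      exact h4
    rw [h2]
    exact P.mul_mem_right _ h3

/-- Proof. `algebraMap b = a / 1`, `a = ⟨algebraMap b, …⟩ ∈ C`; if `¬ t ∣ b` then `a ∉ P` (`hP`: `b ∉ span {t}`), and `a⁻¹ = 1 / a`. -/
theorem E4_unit {B F : Type*} [CommRing B] [IsDomain B] [Field F] [Algebra B F]
    (hinj : Function.Injective (algebraMap B F)) (t : B) (P : Ideal (integralClosure B F)) [P.IsPrime]
    (hP : P.comap (algebraMap B (integralClosure B F)) = Ideal.span {t}) (b : B) :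
    algebraMap B F b ∈ OO P ∧ (¬ t ∣ b → Un (OO P) (algebraMap B F b)) := by
  refine ⟨e4_alg P b, fun hb => ?_⟩
  have hs : algebraMap B (integralClosure B F) b ∉ P := by
    intro h
    have h1 : b ∈ P.comap (algebraMap B (integralClosure B F)) := h
    rw [hP, Ideal.mem_span_singleton] at h1
    exact hb h1
  have h0 : algebraMap B F b ≠ 0 := by
    intro h
    apply hb
    rw [hinj (h.trans (map_zero _).symm)]
    exact dvd_zero t
  refine ⟨e4_alg P b, (algebraMap B F b)⁻¹, ⟨1, algebraMap B (integralClosure B F) b, hs, ?_⟩, mul_inv_cancel₀ h0⟩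
  rw [OneMemClass.coe_one]
  exact inv_mul_cancel₀ h0

end Pool.Agent.H78A
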