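import Pool.Agent.Lib.H78A.Defs

/-!
# H78A, chunk T1 (M, only Mathlib): a prime polynomial does not divide all its partial derivatives
-/

set_option autoImplicit false

namespace Pool.Agent.H78A

/-- Proof. `t` is not a constant (a constant is `0` or a unit), so some variable `X j` occurs in `t`: `0 < degreeOf j t`
(`MvPolynomial.vars`, `MvPolynomial.degreeOf_pos_iff` or similar). In characteristic zero `pderiv j t ≠ 0`: a monomial `α` of `t` with `α j > 0`
gives the monomial `α - single j 1` of `pderiv j t` with the coefficient `α j * coeff α t ≠ 0`. Every monomial `β` of `pderiv j t` comes from the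
monomial `β + single j 1` of `t`, so `degreeOf j (pderiv j t) < degreeOf j t`. If `pderiv j t = t * q` then `q ≠ 0` and
`degreeOf j (t * q) = degreeOf j t + degreeOf j q ≥ degreeOf j t` (`MvPolynomial.degreeOf_mul_eq` or via `Polynomial.natDegree_mul`
of `optionEquivLeft` / `finSuccEquiv`; or compare the total degree after the lemma `totalDegree (pderiv j t) < totalDegree t`, with
`MvPolynomial.totalDegree_mul_of_isDomain`): contradiction. (The version with the total degree is shorter: every monomial of `pderiv j t` has total degree
one less than a monomial of `t`.) -/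
theorem T1_pd {k : Type*} [Field k] [CharZero k] {d : ℕ} (t : MvPolynomial (Fin d) k) (ht : Prime t) :
    ∃ j : Fin d, ¬ t ∣ MvPolynomial.pderiv j t := by
  classical
  by_contra hcon
  push Not at hcon
  have hdeg : ∀ j : Fin d, MvPolynomial.pderiv j t ≠ 0 →
      (MvPolynomial.pderiv j t).totalDegree < t.totalDegree := by
    intro j hj
    obtain ⟨m, hm, hmd⟩ : ∃ m ∈ (MvPolynomial.pderiv j t).support,
        (MvPolynomial.pderiv j t).totalDegree = m.sum fun _ e => e := by
      obtain ⟨m, hm, h⟩ := Finset.exists_mem_eq_sup (MvPolynomial.pderiv j t).support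
        (MvPolynomial.support_nonempty.2 hj) (fun s => s.sum fun _ e => e)
      exact ⟨m, hm, h⟩
    rw [MvPolynomial.mem_support_iff, MvPolynomial.coeff_pderiv] at hm
    have h1 : m + Finsupp.single j 1 ∈ t.support := by
      rw [MvPolynomial.mem_support_iff]
      exact left_ne_zero_of_mul hm
    have h2 := MvPolynomial.le_totalDegree h1
    have h3 : ((m + Finsupp.single j 1).sum fun _ e => e) = (m.sum fun _ e => e) + 1 := by
      rw [Finsupp.sum_add_index' (fun _ => rfl) (fun _ _ _ => rfl), Finsupp.sum_single_index rfl]
    rw [h3] at h2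
    omega
  have hz : ∀ j : Fin d, MvPolynomial.pderiv j t = 0 := by
    intro j
    by_contra hj
    obtain ⟨q, hq⟩ := hcon j
    have hq0 : q ≠ 0 := by
      rintro rfl
      rw [mul_zero] at hq
      exact hj hq
    have h1 := hdeg j hj
    rw [hq, MvPolynomial.totalDegree_mul_of_isDomain ht.ne_zero hq0] at h1
    omega
  have hC : t = MvPolynomial.C (t.coeff 0) := by
    ext m
    rw [MvPolynomial.coeff_C]
    split_ifs with h
    · rw [← h]
    · obtain ⟨j, hj⟩ : ∃ j, m j ≠ 0 := by
        by_contra h0
        push Not at h0
        exact h (Finsupp.ext h0).symm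
      have h1 := MvPolynomial.coeff_pderiv (i := j) t (m - Finsupp.single j 1)
      rw [hz j, MvPolynomial.coeff_zero] at h1
      have h2 : m - Finsupp.single j 1 + Finsupp.single j 1 = m := by
        apply tsub_add_cancel_of_le
        rw [Finsupp.single_le_iff]
        omega
      rw [h2] at h1
      rcases mul_eq_zero.1 h1.symm with h4 | h4
      · exact h4
      · exact absurd h4 (Nat.cast_add_one_ne_zero _)
  have hc : t.coeff 0 ≠ 0 := by
    intro h
    rw [h, MvPolynomial.C_0] at hC
    exact ht.ne_zero hC
  apply ht.not_isUnit
  rw [hC]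
  exact (IsUnit.mk0 _ hc).map MvPolynomial.C

end Pool.Agent.H78A
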