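import Pool.Agent.Lib.H78A.Defs

/-!
# H78A, chunk T2 (S/M, only Mathlib): a unique factorization domain is the intersection of its localizations at primes `(t)`
-/

set_option autoImplicit false

namespace Pool.Agent.H78A

/-- Proof. `IsFractionRing.exists_reduced_fraction` : `y = p / q` with `p`, `q` relatively prime. If `q` is not a unit there is an irreducible, hence
prime, `t ∣ q` (`WfDvdMonoid.exists_irreducible_factor`, `q ≠ 0`). Take `a`, `b` for this `t`: `y b = a` gives `p b = a q` in `B`
(`IsFractionRing.injective`), so `t ∣ p b`, so `t ∣ p` and `t ∣ q`: contradiction. So `q` is a unit and `y = p q⁻¹`. -/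
theorem T2_ufd {B L : Type*} [CommRing B] [IsDomain B] [UniqueFactorizationMonoid B] [Field L] [Algebra B L]
    [IsFractionRing B L] (y : L)
    (h : ∀ t : B, Prime t → ∃ a b : B, ¬ t ∣ b ∧ y * algebraMap B L b = algebraMap B L a) :
    ∃ b : B, y = algebraMap B L b := by
  obtain ⟨p, q, hpq, rfl⟩ := IsFractionRing.exists_reduced_fraction (A := B) y
  have hq0 : (q : B) ≠ 0 := nonZeroDivisors.ne_zero q.2
  have hu : IsUnit (q : B) := by
    by_contra hu
    obtain ⟨t, hti, htq⟩ := WfDvdMonoid.exists_irreducible_factor hu hq0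
    have htp : Prime t := UniqueFactorizationMonoid.irreducible_iff_prime.1 hti
    obtain ⟨a, b, hb, hab⟩ := h t htp
    have h1 := IsLocalization.mk'_spec L p q
    have h2 : p * b = a * q := by
      apply IsFractionRing.injective B L
      rw [map_mul, map_mul, ← h1, ← hab]
      ring
    have h3 : t ∣ p * b := h2 ▸ Dvd.dvd.mul_left htq a
    rcases htp.dvd_or_dvd h3 with h4 | h4
    · exact hti.not_isUnit (hpq h4 htq)
    · exact hb h4
  obtain ⟨r, hr⟩ := hu.exists_right_inv
  refine ⟨p * r, ?_⟩
  have h1 := IsLocalization.mk'_spec L p q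
  rw [map_mul, ← h1, mul_assoc, ← map_mul, hr, map_one, mul_one]

end Pool.Agent.H78A
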