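import Pool.Agent.Lib.H78A.Defs

/-!
# H78A, chunk T3 (S/M, only Mathlib): an algebraic element is a root of a polynomial which is not divisible by `t`
-/

set_option autoImplicit false

namespace Pool.Agent.H78A

/-- Proof. There is `G ≠ 0` with `aeval x G = 0`, and `i` with `G.coeff i ≠ 0`; there is `n` with `¬ t ^ (n + 1) ∣ G.coeff i` (finite multiplicity in a
unique factorization domain, `t` is not a unit). Show by induction on `n`, for all `G` with `aeval x G = 0` and `¬ t ^ (n + 1) ∣ G.coeff i`: the conclusion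
holds. If `t` does not divide all coefficients, `G` is fine (in particular if `n = 0`). Otherwise `G = C t * G'`
(`Polynomial.C_dvd_iff_dvd_coeff`), `aeval x G' = 0` since `algebraMap B F t ≠ 0` (`hinj`), `¬ t ^ n ∣ G'.coeff i`. -/
theorem T3_alg {B F : Type*} [CommRing B] [IsDomain B] [UniqueFactorizationMonoid B] [Field F] [Algebra B F]
    (hinj : Function.Injective (algebraMap B F)) (t : B) (ht : Prime t) (x : F) (hx : IsAlgebraic B x) :
    ∃ G : Polynomial B, (∃ i, ¬ t ∣ G.coeff i) ∧ Polynomial.aeval x G = 0 := by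
  obtain ⟨G, hG0, hG⟩ := hx
  obtain ⟨i, hi⟩ : ∃ i, G.coeff i ≠ 0 := by
    by_contra hcon
    push Not at hcon
    exact hG0 (Polynomial.ext hcon)
  obtain ⟨n, hn⟩ : ∃ n : ℕ, ¬ t ^ (n + 1) ∣ G.coeff i := FiniteMultiplicity.of_not_isUnit ht.not_isUnit hi
  clear hG0 hi
  induction n generalizing G with
  | zero =>
    refine ⟨G, ⟨i, ?_⟩, hG⟩
    rwa [zero_add, pow_one] at hn
  | succ n ih =>
    by_cases hall : ∀ j, t ∣ G.coeff j
    · obtain ⟨G', rfl⟩ := (Polynomial.C_dvd_iff_dvd_coeff t G).2 hall
      have ht0 : algebraMap B F t ≠ 0 := by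
        rw [Ne, map_eq_zero_iff _ hinj]
        exact ht.ne_zero
      refine ih G' ?_ ?_
      · rw [map_mul, Polynomial.aeval_C] at hG
        exact (mul_eq_zero.1 hG).resolve_left ht0
      · intro h
        apply hn
        rw [Polynomial.coeff_C_mul, pow_succ']
        exact mul_dvd_mul_left t h
    · push Not at hall
      exact ⟨G, hall, hG⟩

end Pool.Agent.H78A
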