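import Pool.Agent.Lib.H78A.T3

/-!
# H78A, chunk T4 (M): residues are simple roots
-/

set_option autoImplicit false

namespace Pool.Agent.H78A

/-- Proof. Let `x ∈ O`. Among the polynomials `G` with `∃ i, ¬ t ∣ G.coeff i` and `Mx O π (aeval x G)` (there are some: `T3_alg`,
`Mx.zero`) take one of minimal `natDegree` (`Nat.find` or `WellFounded.min`). All `aeval x H` are in `O` (`h.base`, `x ∈ O`:
`Polynomial.aeval_eq_sum_range`), so by `h.loc` it is enough that `¬ Mx O π (aeval x (derivative G))`. Suppose it is in `π O`.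
(i) `natDegree G = 0`: `G = C g`, `¬ t ∣ g`, `aeval x G = algebraMap g` is a unit of `O` (`h.unit`) and in `π O`, which contradicts `h.nun`.
(ii) `natDegree G > 0`: `natDegree (derivative G) < natDegree G`, so by minimality `t` divides all coefficients `(i + 1) G.coeff (i + 1)` of
`derivative G`, and `t ∣ G.coeff i` for `i ≥ 1`, since `hN : ∀ n > 0, ¬ t ∣ (n : B)` and `t` is prime. So `¬ t ∣ G.coeff 0`, and
`algebraMap (G.coeff 0) = aeval x G - ∑_{i ≥ 1} algebraMap (G.coeff i) x ^ i` is in `π O` (`algebraMap B F t ∈ π O` by `h.ram`, `0 < e`) and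
a unit of `O`: contradiction as in (i). -/
theorem T4_res {B F : Type*} [CommRing B] [IsDomain B] [UniqueFactorizationMonoid B] [Field F] [Algebra B F]
    (hinj : Function.Injective (algebraMap B F)) (t : B) (ht : Prime t) (hN : ∀ n : ℕ, 0 < n → ¬ t ∣ (n : B))
    (halg : Algebra.IsAlgebraic B F) {O : Subring F} {π : F} (h : Ov B O π t) :
    ∀ x ∈ O, ∃ g : Polynomial B, Mx O π (Polynomial.aeval x g) ∧
      Un O (Polynomial.aeval x (Polynomial.derivative g)) := by
  classical
  intro x hx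
  have hO : ∀ H : Polynomial B, Polynomial.aeval x H ∈ O := fun H => by
    rw [Polynomial.aeval_eq_sum_range]
    refine O.sum_mem fun i _ => ?_
    rw [Algebra.smul_def]
    exact O.mul_mem (h.base _) (O.pow_mem hx i)
  obtain ⟨G, ⟨hG1, hG2⟩, hmin⟩ : ∃ G : Polynomial B, ((∃ i, ¬ t ∣ G.coeff i) ∧ Mx O π (Polynomial.aeval x G)) ∧
      ∀ G' : Polynomial B, ((∃ i, ¬ t ∣ G'.coeff i) ∧ Mx O π (Polynomial.aeval x G')) → G.natDegree ≤ G'.natDegree := by
    have hex : ∃ n : ℕ, ∃ G : Polynomial B, ((∃ i, ¬ t ∣ G.coeff i) ∧ Mx O π (Polynomial.aeval x G)) ∧ G.natDegree = n := by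
      obtain ⟨G, h1, h2⟩ := T3_alg hinj t ht x (halg.isAlgebraic x)
      exact ⟨_, G, ⟨h1, by rw [h2]; exact Mx.zero O π⟩, rfl⟩
    obtain ⟨G, hG, hn⟩ := Nat.find_spec hex
    exact ⟨G, hG, fun G' hG' => by rw [hn]; exact Nat.find_min' hex ⟨G', hG', rfl⟩⟩
  refine ⟨G, hG2, ?_⟩
  rcases h.loc _ (hO (Polynomial.derivative G)) with hm | hu
  swap
  · exact hu
  exfalso
  have hdiv : ∀ i, t ∣ G.coeff (i + 1) := by
    intro i
    by_contra hi
    have h1 : ¬ t ∣ (Polynomial.derivative G).coeff i := by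
      rw [Polynomial.coeff_derivative]
      intro h2
      rcases ht.dvd_or_dvd h2 with h3 | h3
      · exact hi h3
      · refine hN (i + 1) (Nat.succ_pos i) ?_
        push_cast
        exact h3
    have h2 := hmin _ ⟨⟨i, h1⟩, hm⟩
    have h3 : G.natDegree ≠ 0 := by
      intro h3
      apply hi
      rw [Polynomial.coeff_eq_zero_of_natDegree_lt (by omega)]
      exact dvd_zero t
    exact absurd (Polynomial.natDegree_derivative_lt h3) (not_lt.2 h2)
  have h0 : ¬ t ∣ G.coeff 0 := by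
    obtain ⟨i, hi⟩ := hG1
    cases i with
    | zero => exact hi
    | succ i => exact absurd (hdiv i) hi
  have htM : Mx O π (algebraMap B F t) := by
    obtain ⟨e, u, he, hu, e1⟩ := h.ram
    obtain ⟨e', rfl⟩ : ∃ e', e = e' + 1 := ⟨e - 1, by omega⟩
    refine ⟨u * π ^ e', O.mul_mem hu.1 (O.pow_mem h.mem e'), ?_⟩
    rw [e1]
    ring
  have hc : Mx O π (algebraMap B F (G.coeff 0)) := by
    have e1 : algebraMap B F (G.coeff 0) = Polynomial.aeval x G +
        -(∑ i ∈ Finset.range G.natDegree, G.coeff (i + 1) • x ^ (i + 1)) := by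
      rw [Polynomial.aeval_eq_sum_range, Finset.sum_range_succ', pow_zero, Algebra.smul_def (G.coeff 0), mul_one]
      ring
    rw [e1]
    refine hG2.add (Mx.neg (Mx.sum _ _ fun i _ => ?_))
    obtain ⟨c, hc⟩ := hdiv i
    rw [Algebra.smul_def, hc, map_mul]
    have e2 : algebraMap B F t * algebraMap B F c * x ^ (i + 1) = (algebraMap B F c * x ^ (i + 1)) * algebraMap B F t := by ring
    rw [e2]
    exact Mx.mul (O.mul_mem (h.base c) (O.pow_mem hx _)) htM
  obtain ⟨y, hy, e1⟩ := hc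
  obtain ⟨-, a, ha, e2⟩ := h.unit _ h0
  refine h.nun ⟨y * a, O.mul_mem hy ha, ?_⟩
  rw [← mul_assoc, ← e1, e2]

end Pool.Agent.H78A
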