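import Pool.Agent.Lib.H78A.Defs

/-!
# H78A, chunk T5 (M): one step for a logarithmic derivation
-/

set_option autoImplicit false

namespace Pool.Agent.H78A

theorem T5_aeval {B K : Type*} [CommRing B] [Field K] [Algebra B K] (D : Derivation ℤ K K) (x : K)
    (G : Polynomial B) :
    D (Polynomial.aeval x G) = G.sum (fun i b => D (algebraMap B K b) * x ^ i) +
      Polynomial.aeval x (Polynomial.derivative G) * D x := by
  induction G using Polynomial.induction_on' with
  | add p q hp hq =>
    rw [map_add, map_add, hp, hq, map_add, map_add, Polynomial.sum_add_index]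
    · ring
    · intro i
      simp
    · intro i a b
      simp only [map_add]
      ring
  | monomial n a =>
    rw [Polynomial.sum_monomial_index (hf := by simp), Polynomial.aeval_monomial, Derivation.leibniz,
      Derivation.leibniz_pow, Polynomial.derivative_monomial, Polynomial.aeval_monomial]
    simp only [smul_eq_mul, nsmul_eq_mul, map_mul, map_natCast]
    ring

/-- Proof. (1) `D π ∈ J`: `h.ram` : `τ := algebraMap B F t = u π ^ e`, `e > 0`, `u` a unit of `O`. `D τ = c τ`, i.e.
`D u π ^ e + e u π ^ (e - 1) D π = c u π ^ e` (`Derivation.leibniz`, `Derivation.leibniz_pow`); divide by `π ^ (e - 1) ≠ 0`: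
`e u D π = π c u - π D u ∈ J` (`hπ`, `hJ` with `c u ∈ O`; `hN u`). `e` and `u` are units of `O` (`hQ`), so `D π ∈ J` (multiply by the inverses
with `hJ`). (2) For `y ∈ O`: `D (π y) = π D y + y D π ∈ J`. (3) For `b ∈ B`-polynomials `g` and `x ∈ O`:
`D (aeval x g) = (∑_i D (algebraMap (g.coeff i)) x ^ i) + aeval x (derivative g) * D x` (`Polynomial.induction_on'` or
`Derivation.leibniz` on `Polynomial.aeval_eq_sum_range`; `D` is only `ℤ`-linear), and the first sum is in `J` (`hB`, `hJ`, `x ^ i ∈ O`).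
(4) Let `x ∈ O`, `g` from `hres`: `aeval x g = π y`, so by (2), (3) `aeval x (derivative g) * D x ∈ J`, and `aeval x (derivative g)` is a unit of
`O`: `D x ∈ J`. -/
theorem T5_step {B F : Type*} [CommRing B] [Field F] [Algebra B F] {O : Subring F} {π : F} {t : B}
    (h : Ov B O π t) (hQ : ∀ n : ℕ, 0 < n → Un O (n : F))
    (hres : ∀ x ∈ O, ∃ g : Polynomial B, Mx O π (Polynomial.aeval x g) ∧
      Un O (Polynomial.aeval x (Polynomial.derivative g)))
    (J : AddSubgroup F) (hJ : ∀ a ∈ O, ∀ x ∈ J, a * x ∈ J) (hπ : π ∈ J) (D : Derivation ℤ F F)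
    (hN : ∀ x ∈ O, π * D x ∈ J) (hB : ∀ b : B, D (algebraMap B F b) ∈ J)
    (ht : ∃ c ∈ O, D (algebraMap B F t) = c * algebraMap B F t) : ∀ x ∈ O, D x ∈ J := by
  have hcancel : ∀ a z : F, Un O a → a * z ∈ J → z ∈ J := by
    rintro a z ⟨-, b, hb, hab⟩ haz
    have h1 : z = b * (a * z) := by rw [← mul_assoc, mul_comm b a, hab, one_mul]
    rw [h1]
    exact hJ b hb _ haz
  have hDπ : D π ∈ J := by
    obtain ⟨e, u, he, hu, htu⟩ := h.ram
    obtain ⟨c, hc, hct⟩ := ht
    rw [htu, Derivation.leibniz, Derivation.leibniz_pow] at hct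
    simp only [smul_eq_mul, nsmul_eq_mul] at hct
    obtain ⟨k, rfl⟩ := Nat.exists_eq_succ_of_ne_zero he.ne'
    simp only [Nat.succ_eq_add_one, Nat.add_sub_cancel] at hct
    have hk : π ^ k ≠ 0 := pow_ne_zero _ h.ne
    have h2 : (((k + 1 : ℕ) : F) * u) * D π = (c * u) * π - π * D u := by
      apply mul_left_cancel₀ hk
      rw [pow_succ] at hct
      linear_combination hct
    apply hcancel _ _ ((hQ (k + 1) he).mul hu)
    rw [h2]
    refine J.sub_mem ?_ ?_
    · exact hJ _ (O.mul_mem hc hu.1) _ hπ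
    · exact hN u hu.1
  have hmx : ∀ z : F, Mx O π z → D z ∈ J := by
    rintro z ⟨y, hy, rfl⟩
    rw [Derivation.leibniz]
    simp only [smul_eq_mul]
    exact J.add_mem (hN y hy) (hJ y hy _ hDπ)
  intro x hx
  obtain ⟨g, hg1, hg2⟩ := hres x hx
  have h3 := T5_aeval D x g
  have h4 : g.sum (fun i b => D (algebraMap B F b) * x ^ i) ∈ J := by
    rw [Polynomial.sum_def]
    refine J.sum_mem fun i _ => ?_
    rw [mul_comm]
    exact hJ _ (O.pow_mem hx i) _ (hB _)
  apply hcancel _ _ hg2
  have h5 : Polynomial.aeval x (Polynomial.derivative g) * D x =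
      D (Polynomial.aeval x g) - g.sum (fun i b => D (algebraMap B F b) * x ^ i) := by
    rw [h3]
    ring
  rw [h5]
  exact J.sub_mem (hmx _ hg1) h4

end Pool.Agent.H78A
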