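import Pool.Agent.Lib.H78A.T5

/-!
# H78A, chunk T6 (S/M, two theorems): logarithmic derivations preserve the valuation ring
-/

set_option autoImplicit false

namespace Pool.Agent.H78A

/-- Proof. `h.bdd D hB` gives `N` with `π ^ N * D x ∈ O` for `x ∈ O`. Show by induction on `N`: the conclusion holds. `N = 0` is clear. For `N + 1` apply
`T5_step` with `J = {x | π ^ N * x ∈ O}` (an additive subgroup, `O`-stable, `π ∈ J` and `D (algebraMap b) ∈ O ⊆ J`,
`π * D x ∈ J`): `π ^ N * D x ∈ O` for all `x ∈ O`. -/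
theorem T6_log {B F : Type*} [CommRing B] [Field F] [Algebra B F] {O : Subring F} {π : F} {t : B}
    (h : Ov B O π t) (hQ : ∀ n : ℕ, 0 < n → Un O (n : F))
    (hres : ∀ x ∈ O, ∃ g : Polynomial B, Mx O π (Polynomial.aeval x g) ∧
      Un O (Polynomial.aeval x (Polynomial.derivative g)))
    (D : Derivation ℤ F F) (hB : ∀ b : B, D (algebraMap B F b) ∈ O)
    (ht : ∃ c ∈ O, D (algebraMap B F t) = c * algebraMap B F t) : ∀ x ∈ O, D x ∈ O := by
  obtain ⟨N, hN⟩ := h.bdd D hB
  induction N with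
  | zero =>
    intro x hx
    have h1 := hN x hx
    rwa [pow_zero, one_mul] at h1
  | succ N ih =>
    refine ih fun x hx => ?_
    refine T5_step h hQ hres (O.toAddSubgroup.comap (AddMonoidHom.mulLeft (π ^ N))) (fun a ha x hx => ?_) ?_ D
      (fun x hx => ?_) (fun b => ?_) ht x hx
    · change π ^ N * (a * x) ∈ O
      have hx' : π ^ N * x ∈ O := hx
      rw [mul_left_comm]
      exact O.mul_mem ha hx'
    · change π ^ N * π ∈ O
      exact O.mul_mem (O.pow_mem h.mem N) h.mem
    · change π ^ N * (π * D x) ∈ O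
      rw [← mul_assoc, ← pow_succ]
      exact hN x hx
    · change π ^ N * D (algebraMap B F b) ∈ O
      exact O.mul_mem (O.pow_mem h.mem N) (hB b)

/-- Proof. `T6_log` (`Mx.mem h.mem`) gives `D x ∈ O` for `x ∈ O`; then `T5_step` with `J = {x | Mx O π x}` (`Mx.add`, `Mx.neg`, `Mx.mul`, `Mx.zero`;
`π = π * 1`). -/
theorem T6_rad {B F : Type*} [CommRing B] [Field F] [Algebra B F] {O : Subring F} {π : F} {t : B}
    (h : Ov B O π t) (hQ : ∀ n : ℕ, 0 < n → Un O (n : F))
    (hres : ∀ x ∈ O, ∃ g : Polynomial B, Mx O π (Polynomial.aeval x g) ∧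
      Un O (Polynomial.aeval x (Polynomial.derivative g)))
    (D : Derivation ℤ F F) (hB : ∀ b : B, Mx O π (D (algebraMap B F b)))
    (ht : ∃ c ∈ O, D (algebraMap B F t) = c * algebraMap B F t) : ∀ x ∈ O, Mx O π (D x) := by
  have h1 : ∀ x ∈ O, D x ∈ O := T6_log h hQ hres D (fun b => (hB b).mem h.mem) ht
  exact T5_step h hQ hres
    { carrier := {x | Mx O π x}
      add_mem' := fun ha hb => Mx.add ha hb
      zero_mem' := Mx.zero O π
      neg_mem' := fun ha => Mx.neg ha } (fun a ha x hx => Mx.mul ha hx) ⟨1, O.one_mem, (mul_one π).symm⟩ D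
    (fun x hx => ⟨D x, h1 x hx, rfl⟩) hB ht

end Pool.Agent.H78A
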