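import Pool.Agent.Lib.H78A.Defs
import Pool.Agent.Lib.H44X.Defs

/-!
# H78A, chunk T7 (S/M, four lemmas): one-forms and coefficients
-/

set_option autoImplicit false

open TensorProduct
open Pool.Agent.Lib.H44X

namespace Pool.Agent.H78A

universe u

/-- The functional `x ↦ l (dy_j x)`. -/
noncomputable def lmu {k : Type u} [Field k] {d : ℕ} (l : Module.Dual k (Lam k d)) (j : Fin d) :
    Module.Dual k (Lam k d) :=
  l.comp (LinearMap.mulLeft k (ExteriorAlgebra.ι k (Pi.single j (1 : k))))

lemma t7_tmul {k : Type u} [Field k] {d : ℕ} {C : Type u} [CommRing C] [Algebra k C]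
    (l : Module.Dual k (Lam k d)) (c : C) (x : Lam k d) :
    coef (C := C) l (c ⊗ₜ[k] x) = c * algebraMap k C (l x) := by
  unfold coef
  rw [Module.Dual.baseChange_apply_tmul]
  rw [Algebra.smul_def, mul_comm]

/-- Proof. `coef l (c ⊗ x) = c * l x` (definition of `Module.Dual.baseChange`: `simp`), `1 = 1 ⊗ 1`. -/
theorem T7_one {k : Type u} [Field k] {d : ℕ} {C : Type u} [CommRing C] [Algebra k C]
    (l : Module.Dual k (Lam k d)) : coef (C := C) l 1 = algebraMap k C (l 1) := by
  rw [Algebra.TensorProduct.one_def, t7_tmul, one_mul]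

/-- Proof. Both sides are additive in `v`: `v = c ⊗ x` (`TensorProduct.induction_on`). `dy_j * (c ⊗ x) = c ⊗ (ι (single j 1) * x)`
(`Algebra.TensorProduct.tmul_mul_tmul`), `coef l (c ⊗ x) = c * l x`. -/
theorem T7_mul {k : Type u} [Field k] {d : ℕ} {C : Type u} [CommRing C] [Algebra k C]
    (l : Module.Dual k (Lam k d)) (a : Fin d → C) (v : VV k d C) :
    coef l (onef a * v) = ∑ j, a j * coef (lmu l j) v := by
  induction v using TensorProduct.induction_on with
  | zero =>
    rw [mul_zero, map_zero]
    symm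
    refine Finset.sum_eq_zero fun j _ => ?_
    rw [map_zero, mul_zero]
  | tmul c x =>
    unfold onef
    rw [Finset.sum_mul, map_sum]
    refine Finset.sum_congr rfl fun j _ => ?_
    rw [smul_mul_assoc, map_smul, smul_eq_mul]
    unfold dy
    rw [Algebra.TensorProduct.tmul_mul_tmul, one_mul, t7_tmul, t7_tmul]
    rfl
  | add x y hx hy =>
    rw [mul_add, map_add, hx, hy, ← Finset.sum_add_distrib]
    refine Finset.sum_congr rfl fun j _ => ?_
    rw [map_add, mul_add]

lemma t7_dy {k : Type u} [Field k] {d : ℕ} {C : Type u} [CommRing C] [Algebra k C]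
    (i j : Fin d) : dy k d C i * dy k d C j = - (dy k d C j * dy k d C i) := by
  unfold dy
  rw [Algebra.TensorProduct.tmul_mul_tmul, Algebra.TensorProduct.tmul_mul_tmul,
    eq_neg_iff_add_eq_zero, mul_one, ← TensorProduct.tmul_add, ExteriorAlgebra.ι_add_mul_swap,
    TensorProduct.tmul_zero]

lemma t7_anti {k : Type u} [Field k] {d : ℕ} {C : Type u} [CommRing C] [Algebra k C]
    (a b : Fin d → C) : onef (k := k) a * onef b = - (onef b * onef a) := by
  unfold onef
  rw [Finset.sum_mul_sum, Finset.sum_mul_sum, Finset.sum_comm, ← Finset.sum_neg_distrib]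
  refine Finset.sum_congr rfl fun j _ => ?_
  rw [← Finset.sum_neg_distrib]
  refine Finset.sum_congr rfl fun i _ => ?_
  rw [smul_mul_smul_comm, smul_mul_smul_comm, t7_dy, smul_neg, mul_comm (a i)]

/-- Proof. `onef a = ∑_j a_j ⊗ ι(e_j)`, the square is `∑_{i,j} a_i a_j ⊗ ι(e_i) ι(e_j)`; `ι(e_i) ι(e_j) = - ι(e_j) ι(e_i)`
(`ExteriorAlgebra.ι_add_mul_swap`) and `ι(e_i)² = 0`. For the second formula apply the first to `a`, `b`, `a + b`
(`onef (a + b) = onef a + onef b`). For the first: pair `(i, j)` with `(j, i)` (`Finset.sum_involution`), or: `2 • square = 0` by the swap and `C` is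
an algebra over a field of characteristic zero. -/
theorem T7_sq {k : Type u} [Field k] [CharZero k] {d : ℕ} {C : Type u} [CommRing C] [Algebra k C]
    (a : Fin d → C) : onef (k := k) a * onef a = 0 := by
  have h := t7_anti (k := k) a a
  have h2 : (2 : k) • ((onef (k := k) a * onef a : VV k d C)) = 0 := by
    rw [two_smul]
    nth_rewrite 1 [h]
    rw [neg_add_cancel]
  exact (smul_eq_zero.mp h2).resolve_left two_ne_zero

theorem T7_anti {k : Type u} [Field k] [CharZero k] {d : ℕ} {C : Type u} [CommRing C] [Algebra k C]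
    (a b : Fin d → C) : onef (k := k) a * onef b = - (onef b * onef a) :=
  t7_anti a b

end Pool.Agent.H78A
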