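import Pool.Agent.Lib.H78A.T1
import Pool.Agent.Lib.H78A.T4
import Pool.Agent.Lib.H78A.T6
import Pool.Agent.Lib.H78A.T7

/-!
# H78A, chunks T8A, T8 (M): forms over the valuation ring have a pole of order less than one (logarithmic)
-/

set_option autoImplicit false

open TensorProduct
open Pool.Agent.Lib.H44X

namespace Pool.Agent.H78A

universe u

/-- The logarithmic lattice: `v = α + τ⁻¹ dτ γ`, `α` with coefficients in `O`, `γ` with coefficients in `π O`; `τ = algebraMap t`, `dτ = onef s`. -/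
def Lat {k : Type u} [Field k] {d : ℕ} {F : Type u} [Field F] [Algebra k F] (O : Subring F) (π τ : F)
    (s : Fin d → F) (v : VV k d F) : Prop :=
  ∃ α γ : VV k d F, v = α + τ⁻¹ • (onef s * γ) ∧ (∀ l, coef l α ∈ O) ∧ ∀ l, Mx O π (coef l γ)

/-- Proof. For one `u ∈ O`: derivations `D j` with the values `s j = D j τ ∈ O`. Let `w j = D j u`, and suppose `w j = ν τ⁻¹ s j + b j` with `ν ∈ π O`,
`b j ∈ O` (hypotheses `hw`). Then `onef w = ν τ⁻¹ • onef s + onef b`, and for `v = α + τ⁻¹ onef s γ`: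
`onef w * v = onef b * α + τ⁻¹ • (onef s * (ν • α - onef b * γ))`, because `onef s * onef s = 0` (`T7_sq`) and
`onef b * onef s = - onef s * onef b` (`T7_anti`). Coefficients: `T7_mul` : `coef l (onef b * α) = ∑ b_j coef (lmu l j) α ∈ O`,
`coef l (ν • α) = ν coef l α ∈ π O` (`coef` is `F`-linear), `coef l (onef b * γ) ∈ π O` (`Mx.sum`, `Mx.mul`). -/
theorem T8_mul {k : Type u} [Field k] [CharZero k] {d : ℕ} {F : Type u} [Field F] [Algebra k F] {O : Subring F}
    {π τ ν : F} {s w b : Fin d → F} (hν : Mx O π ν) (hb : ∀ j, b j ∈ O)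
    (hw : ∀ j, w j = ν * τ⁻¹ * s j + b j) {v : VV k d F} (hv : Lat O π τ s v) :
    Lat O π τ s (onef w * v) := by
  obtain ⟨α, γ, rfl, hα, hγ⟩ := hv
  have hw' : onef (k := k) w = (ν * τ⁻¹) • onef s + onef b := by
    unfold onef
    rw [Finset.smul_sum, ← Finset.sum_add_distrib]
    refine Finset.sum_congr rfl fun j _ => ?_
    rw [hw, add_smul, mul_smul (ν * τ⁻¹) (s j)]
  have h1 : onef (k := k) s * (onef s * γ) = 0 := by rw [← mul_assoc, T7_sq, zero_mul]
  have h2 : onef (k := k) b * (onef s * γ) = -(onef s * (onef b * γ)) := by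
    rw [← mul_assoc, T7_anti b s, neg_mul, mul_assoc]
  refine ⟨onef b * α, ν • α - onef b * γ, ?_, fun l => ?_, fun l => ?_⟩
  · have e1 : onef (k := k) w * (α + τ⁻¹ • (onef s * γ)) =
        (ν * τ⁻¹) • (onef s * α) + onef b * α + (τ⁻¹ • ((ν * τ⁻¹) • (onef s * (onef s * γ))) +
          τ⁻¹ • (onef b * (onef s * γ))) := by
      rw [hw', mul_add, mul_smul_comm, add_mul, add_mul, smul_mul_assoc, smul_mul_assoc, smul_add]
    have e2 : τ⁻¹ • (onef (k := k) s * (ν • α - onef b * γ)) =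
        (ν * τ⁻¹) • (onef s * α) - τ⁻¹ • (onef s * (onef b * γ)) := by
      rw [mul_sub, mul_smul_comm, smul_sub, smul_smul, mul_comm τ⁻¹ ν]
    rw [e1, e2, h1, h2, smul_zero, smul_zero, zero_add, smul_neg]
    abel
  · rw [T7_mul]
    exact O.sum_mem fun j _ => O.mul_mem (hb j) (hα _)
  · rw [map_sub, map_smul, smul_eq_mul, T7_mul, sub_eq_add_neg, mul_comm ν]
    exact (hν.mul (hα l)).add (Mx.sum _ _ fun j _ => (hγ _).mul (hb j)).neg

/-- Proof. `τ • v = τ • α + onef s * γ` (`τ ≠ 0`); `coef l (τ • α) = τ * coef l α`, `coef l (onef s * γ) = ∑ s_j coef (lmu l j) γ` (`T7_mul`). -/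
theorem T8_coef {k : Type u} [Field k] {d : ℕ} {F : Type u} [Field F] [Algebra k F] {O : Subring F}
    {π τ : F} {s : Fin d → F} (hτ : Mx O π τ) (hτ0 : τ ≠ 0) (hs : ∀ j, s j ∈ O) {v : VV k d F}
    (hv : Lat O π τ s v) (l : Module.Dual k (Lam k d)) : Mx O π (τ * coef l v) := by
  obtain ⟨α, γ, rfl, hα, hγ⟩ := hv
  rw [map_add, map_smul, smul_eq_mul, mul_add, ← mul_assoc τ τ⁻¹, mul_inv_cancel₀ hτ0, one_mul, T7_mul, mul_comm τ]
  exact (hτ.mul (hα l)).add (Mx.sum _ _ fun j _ => (hγ _).mul (hs j))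

end Pool.Agent.H78A
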