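import Mathlib

/-!
# H78A, chunk Z1 (M, only Mathlib, two lemmas): substitution of forms of one degree
-/

set_option autoImplicit false

open MvPolynomial

namespace Pool.Agent.H78A

/-- Proof. `G` is the sum of its monomials; a monomial `c X^α` with `|α| = m` gives `c ∏ (Y i)^(α i)`, weighted homogeneous of degree
`∑ α i • N = m N` (`IsWeightedHomogeneous.prod`, `.pow`, `C`), and the weighted homogeneous polynomials of one degree are a submodule. -/
theorem Z1_hom {k : Type*} [Field k] {n r : ℕ} (w : Fin n → ℕ) (N : ℕ) (Y : Fin r → MvPolynomial (Fin n) k)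
    (hY : ∀ i, IsWeightedHomogeneous w (Y i) N) (G : MvPolynomial (Fin r) k) (m : ℕ) (hG : G.IsHomogeneous m) :
    IsWeightedHomogeneous w (aeval Y G) (m * N) := by
  rw [aeval_def, eval₂_eq]
  refine IsWeightedHomogeneous.sum _ _ _ fun d hd => ?_
  have h1 : (Finsupp.weight (1 : Fin r → ℕ)) d = m := hG (mem_support_iff.1 hd)
  have h2 : ∑ i ∈ d.support, d i * N = m * N := by
    rw [← Finset.sum_mul, ← h1, Finsupp.weight_apply, Finsupp.sum]
    congr 1
    refine Finset.sum_congr rfl fun i _ => ?_
    rw [Pi.one_apply, smul_eq_mul, mul_one]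
  have h3 : IsWeightedHomogeneous w (∏ i ∈ d.support, Y i ^ d i) (∑ i ∈ d.support, d i * N) := by
    refine IsWeightedHomogeneous.prod _ _ _ fun i _ => ?_
    have h4 := (hY i).pow (d i)
    rwa [smul_eq_mul] at h4
  rw [h2] at h3
  exact h3.C_mul _

/-- Proof. `G = ∑_j homogeneousComponent j G` (`MvPolynomial.sum_homogeneousComponent`), so `aeval Y G = ∑_j aeval Y G_j` with
`aeval Y G_j` weighted homogeneous of degree `j N` (`Z1_hom`), and `j N = m N` only for `j = m` (`N > 0`):
`weightedHomogeneousComponent w (m N) (aeval Y G) = aeval Y G_m` (`weightedHomogeneousComponent_of_mem` or similar); `hQ`. (If `m` is larger than the total degree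
both sides are `0`.) -/
theorem Z1_comp {k : Type*} [Field k] {n r : ℕ} (w : Fin n → ℕ) (N : ℕ) (hN : 0 < N)
    (Y : Fin r → MvPolynomial (Fin n) k) (hY : ∀ i, IsWeightedHomogeneous w (Y i) N)
    (G : MvPolynomial (Fin r) k) (m : ℕ) :
    weightedHomogeneousComponent w (m * N) (aeval Y G) = aeval Y (homogeneousComponent m G) := by
  have h1 : ∀ j, j ≠ m → weightedHomogeneousComponent w (m * N) (aeval Y (homogeneousComponent j G)) = 0 := by
    intro j hj
    refine IsWeightedHomogeneous.weightedHomogeneousComponent_ne (m := j * N) (m * N)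
      (Z1_hom w N Y hY _ j (homogeneousComponent_isHomogeneous j G)) ?_
    intro h
    exact hj (Nat.eq_of_mul_eq_mul_right hN h.symm)
  have h2 : weightedHomogeneousComponent w (m * N) (aeval Y (homogeneousComponent m G)) =
      aeval Y (homogeneousComponent m G) :=
    IsWeightedHomogeneous.weightedHomogeneousComponent_same
      (Z1_hom w N Y hY _ m (homogeneousComponent_isHomogeneous m G))
  have h3 : aeval Y G = ∑ j ∈ Finset.range (G.totalDegree + 1), aeval Y (homogeneousComponent j G) := by
    rw [← map_sum, sum_homogeneousComponent]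
  rw [h3, map_sum]
  by_cases hm : m ∈ Finset.range (G.totalDegree + 1)
  · rw [Finset.sum_eq_single m (fun j _ hj => h1 j hj) (fun h => absurd hm h), h2]
  · rw [Finset.sum_eq_zero fun j hj => h1 j (fun h => hm (h ▸ hj))]
    rw [Finset.mem_range] at hm
    rw [homogeneousComponent_eq_zero m G (by omega), map_zero]

end Pool.Agent.H78A
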