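import Mathlib

/-!
# H78A, chunk Z2 (S/M, only Mathlib): a form does not vanish at a point `(1, c)`
-/

set_option autoImplicit false

open MvPolynomial

namespace Pool.Agent.H78A

/-- Proof. `X 0 * G ≠ 0`, `k` is infinite: there is a point `p` with `eval p (X 0 * G) ≠ 0` (`MvPolynomial.funext`), so `p 0 ≠ 0` and
`eval p G ≠ 0`. `G` is homogeneous of degree `m`: `eval (fun i => (p 0)⁻¹ * p i) G = (p 0)⁻¹ ^ m * eval p G ≠ 0`
(sum over the monomials, or `MvPolynomial.IsHomogeneous.eval₂`), and `(p 0)⁻¹ * p 0 = 1`: `c i = (p 0)⁻¹ * p i.succ`. -/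
theorem Z2_pt {k : Type*} [Field k] [Infinite k] {r : ℕ} (G : MvPolynomial (Fin (r + 1)) k) (m : ℕ)
    (hG : G.IsHomogeneous m) (h0 : G ≠ 0) :
    ∃ c : Fin r → k, eval (Fin.cons 1 c : Fin (r + 1) → k) G ≠ 0 := by
  obtain ⟨p, hp⟩ : ∃ p : Fin (r + 1) → k, eval p (X 0 * G) ≠ 0 := by
    by_contra hcon
    push Not at hcon
    have h1 : X 0 * G = 0 := MvPolynomial.funext fun x => by rw [hcon x, map_zero]
    rcases mul_eq_zero.1 h1 with h2 | h2
    · exact X_ne_zero (R := k) (0 : Fin (r + 1)) h2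
    · exact h0 h2
  rw [map_mul, eval_X] at hp
  have hp0 : p 0 ≠ 0 := left_ne_zero_of_mul hp
  have hpG : eval p G ≠ 0 := right_ne_zero_of_mul hp
  have key : eval (fun i => (p 0)⁻¹ * p i) G = (p 0)⁻¹ ^ m * eval p G := by
    rw [eval_eq, eval_eq, Finset.mul_sum]
    refine Finset.sum_congr rfl fun d hd => ?_
    have h3 : (Finsupp.weight (1 : Fin (r + 1) → ℕ)) d = m := hG (mem_support_iff.1 hd)
    have h4 : ∑ i ∈ d.support, d i = m := by
      rw [← h3, Finsupp.weight_apply, Finsupp.sum]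
      refine Finset.sum_congr rfl fun i _ => ?_
      rw [Pi.one_apply, smul_eq_mul, mul_one]
    have h5 : ∏ i ∈ d.support, ((p 0)⁻¹ * p i) ^ d i = (p 0)⁻¹ ^ m * ∏ i ∈ d.support, p i ^ d i := by
      rw [← h4, ← Finset.prod_pow_eq_pow_sum, ← Finset.prod_mul_distrib]
      refine Finset.prod_congr rfl fun i _ => ?_
      rw [mul_pow]
    rw [h5]
    ring
  refine ⟨fun i => (p 0)⁻¹ * p i.succ, ?_⟩
  have h6 : (Fin.cons 1 (fun i : Fin r => (p 0)⁻¹ * p i.succ) : Fin (r + 1) → k) = fun i => (p 0)⁻¹ * p i := by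
    funext i
    refine Fin.cases ?_ (fun j => ?_) i
    · rw [Fin.cons_zero, inv_mul_cancel₀ hp0]
    · rw [Fin.cons_succ]
  rw [h6, key]
  exact mul_ne_zero (pow_ne_zero _ (inv_ne_zero hp0)) hpG

end Pool.Agent.H78A
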