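import Mathlib

/-!
# H78A, chunk Z3 (M, only Mathlib): substitution of linear polynomials into a form
-/

set_option autoImplicit false

open MvPolynomial

namespace Pool.Agent.H78A

/-- Auxiliary: powers. -/
theorem z3_pow {R : Type*} [CommRing R] {L : Polynomial R} {c : R} (h1 : L.natDegree ≤ 1) (h2 : L.coeff 1 = c) (n : ℕ) :
    (L ^ n).natDegree ≤ n ∧ (L ^ n).coeff n = c ^ n := by
  induction n with
  | zero =>
    rw [pow_zero, pow_zero]
    exact ⟨Polynomial.natDegree_one.le, Polynomial.coeff_one_zero⟩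
  | succ n ih =>
    rw [pow_succ, pow_succ]
    refine ⟨Polynomial.natDegree_mul_le_of_le ih.1 h1, ?_⟩
    rw [Polynomial.coeff_mul_add_eq_of_natDegree_le ih.1 h1, ih.2, h2]

/-- Auxiliary: products. -/
theorem z3_prod {R : Type*} [CommRing R] {ι : Type*} (s : Finset ι) (L : ι → Polynomial R) (c : ι → R) (d : ι → ℕ)
    (h1 : ∀ i, (L i).natDegree ≤ 1) (h2 : ∀ i, (L i).coeff 1 = c i) :
    (∏ i ∈ s, L i ^ d i).natDegree ≤ ∑ i ∈ s, d i ∧
      (∏ i ∈ s, L i ^ d i).coeff (∑ i ∈ s, d i) = ∏ i ∈ s, c i ^ d i := by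
  classical
  refine Finset.induction_on s ?_ ?_
  · rw [Finset.prod_empty, Finset.sum_empty, Finset.prod_empty]
    exact ⟨Polynomial.natDegree_one.le, Polynomial.coeff_one_zero⟩
  · intro a s ha ih
    rw [Finset.prod_insert ha, Finset.sum_insert ha, Finset.prod_insert ha]
    have h3 := z3_pow (h1 a) (h2 a) (d a)
    refine ⟨Polynomial.natDegree_mul_le_of_le h3.1 ih.1, ?_⟩
    rw [Polynomial.coeff_mul_add_eq_of_natDegree_le h3.1 ih.1, h3.2, ih.2]

/-- Proof. Additive in `G`: a monomial `e X^α`, `|α| = m`, gives `C (algebraMap e) ∏ (C (b i) + C (algebraMap (a i)) X)^(α i)`, a product of `m` polynomials of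
degree at most `1`: degree at most `m` (`Polynomial.natDegree_prod_le`, `Polynomial.natDegree_pow_le`) and the coefficient of `X ^ m` is the product of the
coefficients of `X` (`Polynomial.coeff_prod_of_natDegree_le`, `Polynomial.coeff_pow_of_natDegree_le`, or by induction with
`Polynomial.coeff_mul_of_natDegree_le`): `e ∏ (a i)^(α i)`. -/
theorem Z3_lin {k R : Type*} [Field k] [CommRing R] [Algebra k R] {s : ℕ} (G : MvPolynomial (Fin s) k) (m : ℕ)
    (hG : G.IsHomogeneous m) (a : Fin s → k) (b : Fin s → R) :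
    (aeval (fun i => Polynomial.C (b i) + Polynomial.C (algebraMap k R (a i)) * Polynomial.X :
      Fin s → Polynomial R) G).natDegree ≤ m ∧
    (aeval (fun i => Polynomial.C (b i) + Polynomial.C (algebraMap k R (a i)) * Polynomial.X :
      Fin s → Polynomial R) G).coeff m = algebraMap k R (eval a G) := by
  let L : Fin s → Polynomial R := fun i => Polynomial.C (b i) + Polynomial.C (algebraMap k R (a i)) * Polynomial.X
  change (aeval L G).natDegree ≤ m ∧ (aeval L G).coeff m = algebraMap k R (eval a G)
  have h1 : ∀ i, (L i).natDegree ≤ 1 := by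
    intro i
    refine Polynomial.natDegree_add_le_of_degree_le ?_ ?_
    · rw [Polynomial.natDegree_C]
      exact zero_le_one
    · have h3 := Polynomial.natDegree_C_mul_X_pow_le (algebraMap k R (a i)) 1
      rwa [pow_one] at h3
  have h2 : ∀ i, (L i).coeff 1 = algebraMap k R (a i) := by
    intro i
    change (Polynomial.C (b i) + Polynomial.C (algebraMap k R (a i)) * Polynomial.X).coeff 1 = _
    rw [Polynomial.coeff_add, Polynomial.coeff_C_mul, Polynomial.coeff_X_one, mul_one,
      Polynomial.coeff_C_of_ne_zero one_ne_zero, zero_add]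
  have hd : ∀ d ∈ G.support, ∑ i ∈ d.support, d i = m := by
    intro d hd
    have h3 : (Finsupp.weight (1 : Fin s → ℕ)) d = m := hG (mem_support_iff.1 hd)
    rw [← h3, Finsupp.weight_apply, Finsupp.sum]
    refine Finset.sum_congr rfl fun i _ => ?_
    rw [Pi.one_apply, smul_eq_mul, mul_one]
  have h3 : aeval L G = ∑ d ∈ G.support, Polynomial.C (algebraMap k R (coeff d G)) * ∏ i ∈ d.support, L i ^ d i := by
    rw [aeval_def, eval₂_eq]
    rfl
  have h4 : eval a G = ∑ d ∈ G.support, coeff d G * ∏ i ∈ d.support, a i ^ d i := eval_eq a G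
  rw [h3, h4]
  constructor
  · refine Polynomial.natDegree_sum_le_of_forall_le _ _ fun d hdd => ?_
    refine (Polynomial.natDegree_C_mul_le _ _).trans ?_
    have h5 := (z3_prod d.support L (fun i => algebraMap k R (a i)) d h1 h2).1
    rwa [hd d hdd] at h5
  · rw [Polynomial.finsetSum_coeff, map_sum]
    refine Finset.sum_congr rfl fun d hdd => ?_
    have h5 := (z3_prod d.support L (fun i => algebraMap k R (a i)) d h1 h2).2
    rw [hd d hdd] at h5
    rw [Polynomial.coeff_C_mul, h5, map_mul, map_prod]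
    congr 1
    refine Finset.prod_congr rfl fun i _ => ?_
    rw [map_pow]

end Pool.Agent.H78A
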