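import Pool.Agent.Lib.H78A.Z3

/-!
# H78A, chunk Z4 (M): a homogeneous relation makes one element integral
-/

set_option autoImplicit false

open MvPolynomial

namespace Pool.Agent.H78A

/-- Proof. `R = Algebra.adjoin k (range (fun i : Fin r => z i.succ - c i • z 0))`, a subalgebra of `A`. Let `a = Fin.cons 1 c`,
`b = Fin.cons 0 (fun i => ⟨z i.succ - c i • z 0, _⟩) : Fin (r + 1) → R` and `p = aeval (fun i => C (b i) + C (algebraMap (a i)) X) G ∈ R[X]`.
`Z3_lin`: `natDegree p ≤ m`, `coeff p m = algebraMap (eval a G)`, a unit. The value of `p` at `z 0` is `aeval z G = 0` (`b i + a i z 0 = z i`: compare the two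
algebra homomorphisms `MvPolynomial (Fin (r+1)) k → A` on the variables). So `C (algebraMap (eval a G)⁻¹) * p` is monic
(`Polynomial.monic_of_natDegree_le_of_coeff_eq_one`) and vanishes at `z 0`. -/
theorem Z4_int {k A : Type*} [Field k] [CommRing A] [Algebra k A] {r : ℕ} (z : Fin (r + 1) → A)
    (G : MvPolynomial (Fin (r + 1)) k) (m : ℕ) (hG : G.IsHomogeneous m) (hz : aeval z G = 0) (c : Fin r → k)
    (hc : eval (Fin.cons 1 c : Fin (r + 1) → k) G ≠ 0) :
    IsIntegral (Algebra.adjoin k (Set.range fun i : Fin r => z i.succ - c i • z 0)) (z 0) := by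
  let R := Algebra.adjoin k (Set.range fun i : Fin r => z i.succ - c i • z 0)
  let b : Fin (r + 1) → R := Fin.cons 0 fun i => ⟨z i.succ - c i • z 0, Algebra.subset_adjoin ⟨i, rfl⟩⟩
  let a : Fin (r + 1) → k := Fin.cons 1 c
  let L : Fin (r + 1) → Polynomial R := fun i => Polynomial.C (b i) + Polynomial.C (algebraMap k R (a i)) * Polynomial.X
  have hL := Z3_lin G m hG a b
  have hz0 : Polynomial.aeval (z 0) (aeval L G) = 0 := by
    have h1 : ((Polynomial.aeval (R := R) (z 0)).restrictScalars k) (aeval L G) =
        aeval (fun i => ((Polynomial.aeval (R := R) (z 0)).restrictScalars k) (L i)) G := comp_aeval_apply _ _ _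
    have h2 : (fun i => ((Polynomial.aeval (R := R) (z 0)).restrictScalars k) (L i)) = z := by
      funext i
      change Polynomial.aeval (z 0) (Polynomial.C (b i) + Polynomial.C (algebraMap k R (a i)) * Polynomial.X) = z i
      rw [map_add, map_mul, Polynomial.aeval_C, Polynomial.aeval_C, Polynomial.aeval_X,
        ← IsScalarTower.algebraMap_apply k R A]
      refine Fin.cases ?_ (fun i => ?_) i
      · change algebraMap R A 0 + algebraMap k A 1 * z 0 = z 0
        rw [map_zero, map_one, zero_add, one_mul]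
      · change (z i.succ - c i • z 0) + algebraMap k A (c i) * z 0 = z i.succ
        rw [← Algebra.smul_def, sub_add_cancel]
    rw [h2, hz] at h1
    exact h1
  refine ⟨Polynomial.C (algebraMap k R (eval a G)⁻¹) * aeval L G, ?_, ?_⟩
  · refine Polynomial.monic_of_natDegree_le_of_coeff_eq_one m ((Polynomial.natDegree_C_mul_le _ _).trans hL.1) ?_
    rw [Polynomial.coeff_C_mul, hL.2, ← map_mul, inv_mul_cancel₀ hc, map_one]
  · rw [Polynomial.eval₂_mul, ← Polynomial.aeval_def (z 0) (aeval L G), hz0, mul_zero]

end Pool.Agent.H78A
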