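import Pool.Agent.Lib.H78A.Z1
import Pool.Agent.Lib.H78A.Z2
import Pool.Agent.Lib.H78A.Z4

/-!
# H78A, chunk Z5 (M): homogeneous Noether normalization, the induction
-/

set_option autoImplicit false

open MvPolynomial

namespace Pool.Agent.H78A

theorem z5_mem {k A : Type*} [Field k] [CommRing A] [Algebra k A] (B : Subalgebra k A) {x : A} (hx : x ∈ B) :
    IsIntegral B x := by
  have h := isIntegral_algebraMap (R := B) (A := A) (x := ⟨x, hx⟩)
  exact h

theorem z5_trans {k A : Type*} [Field k] [CommRing A] [Algebra k A] (B : Subalgebra k A) {s : Set A}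
    (B' : Subalgebra k A) (hs : s ⊆ integralClosure B A) (hB' : B' = Algebra.adjoin k s) {x : A} (hx : IsIntegral B' x) :
    IsIntegral B x := by
  have hle : ∀ z ∈ B', z ∈ integralClosure B A := by
    intro z hz
    have h1 : B' ≤ (integralClosure B A).restrictScalars k := by
      rw [hB']
      exact Algebra.adjoin_le hs
    exact h1 hz
  let φ : B' →+* integralClosure B A :=
    { toFun := fun z => ⟨z.1, hle z.1 z.2⟩
      map_one' := rfl
      map_mul' := fun _ _ => rfl
      map_zero' := rfl
      map_add' := fun _ _ => rfl }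
  have h2 : IsIntegral (integralClosure B A) x := by
    obtain ⟨p, hp, hpx⟩ := hx
    refine ⟨p.map φ, hp.map φ, ?_⟩
    rw [Polynomial.eval₂_map]
    exact hpx
  exact isIntegral_trans (R := B) (A := integralClosure B A) x h2

theorem z5_aeval {k : Type*} [Field k] {n r : ℕ} (Q : Ideal (MvPolynomial (Fin n) k))
    (y : Fin r → MvPolynomial (Fin n) k) (G : MvPolynomial (Fin r) k) :
    Ideal.Quotient.mk Q (aeval y G) = aeval (R := k) (fun j => Ideal.Quotient.mk Q (y j)) G :=
  MvPolynomial.comp_aeval_apply y (Ideal.Quotient.mkₐ k Q) G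

/-- Proof. Induction on `r`. If `aeval (mk ∘ y)` is injective take `Y = y` (generators are in the algebra: `Algebra.subset_adjoin`,
`isIntegral_algebraMap`). Otherwise there is `G ≠ 0` with `aeval (mk ∘ y) G = 0`, i.e. `aeval y G ∈ Q` (`Ideal.Quotient.mkₐ`, `aeval` commutes with
algebra homomorphisms). Some `G_m = homogeneousComponent m G ≠ 0`, and `aeval y G_m = weightedHomogeneousComponent w (m N) (aeval y G) ∈ Q`
(`Z1_comp`, `hQ`). `r = 0`: `G_m` is a nonzero constant in `Q`, but `Q ≠ ⊤`. `r = r' + 1`: `Z2_pt` gives `c`; let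
`y' i = y i.succ - c i • y 0`, weighted homogeneous of degree `N`. `Z4_int` (`z = mk ∘ y`): `mk (y 0)` is integral over `k[mk y' i]`. The
induction hypothesis for `y'` gives `Y`; all `mk (y' i)` are integral over `k[mk Y j]`, so the subalgebra `k[mk y']` is in the integral closure of `k[mk Y]`
(`Algebra.adjoin_le`), and `mk (y 0)` is integral over `k[mk Y]` (transitivity: `isIntegral_trans`-type lemma, or: the coefficients of the
monic polynomial are in the integral closure `C` of `k[mk Y]` in `A`, and `C` is integrally closed in `A`: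
`IsIntegral.mem_of...`/`integralClosure_idem`). `mk (y i.succ) = mk (y' i) + c i • mk (y 0)`. -/
theorem Z5_ind {k : Type*} [Field k] [Infinite k] {n : ℕ} (w : Fin n → ℕ) (Q : Ideal (MvPolynomial (Fin n) k))
    (hQt : Q ≠ ⊤) (hQ : ∀ f ∈ Q, ∀ m, weightedHomogeneousComponent w m f ∈ Q) (N : ℕ) (hN : 0 < N) (r : ℕ)
    (y : Fin r → MvPolynomial (Fin n) k) (hy : ∀ i, IsWeightedHomogeneous w (y i) N) :
    ∃ (d : ℕ) (Y : Fin d → MvPolynomial (Fin n) k), (∀ j, IsWeightedHomogeneous w (Y j) N) ∧
      Function.Injective (aeval (R := k) fun j => Ideal.Quotient.mk Q (Y j)) ∧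
      ∀ i, IsIntegral (Algebra.adjoin k (Set.range fun j => Ideal.Quotient.mk Q (Y j)))
        (Ideal.Quotient.mk Q (y i)) := by
  induction r with
  | zero =>
    refine ⟨0, y, hy, ?_, fun i => i.elim0⟩
    rw [injective_iff_map_eq_zero]
    intro G hG
    by_contra hG0
    rw [MvPolynomial.eq_C_of_isEmpty G] at hG hG0
    have ha : coeff 0 G ≠ 0 := fun h => hG0 (by rw [h, C_0])
    rw [aeval_C] at hG
    have h1 : Ideal.Quotient.mk Q (C (coeff 0 G)) = 0 := hG
    rw [Ideal.Quotient.eq_zero_iff_mem] at h1
    exact hQt (Ideal.eq_top_of_isUnit_mem Q h1 ((isUnit_iff_ne_zero.2 ha).map C))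
  | succ r ih =>
    by_cases hinj : Function.Injective (aeval (R := k) fun j => Ideal.Quotient.mk Q (y j))
    · exact ⟨r + 1, y, hy, hinj, fun i =>
        z5_mem _ (Algebra.subset_adjoin ⟨i, rfl⟩)⟩
    · rw [injective_iff_map_eq_zero] at hinj
      push Not at hinj
      obtain ⟨G, hG, hG0⟩ := hinj
      obtain ⟨m, hm⟩ : ∃ m, homogeneousComponent m G ≠ 0 := by
        by_contra hall
        push Not at hall
        apply hG0
        rw [← sum_homogeneousComponent G]
        exact Finset.sum_eq_zero fun i _ => hall i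
      have hGQ : aeval y G ∈ Q := by
        rw [← Ideal.Quotient.eq_zero_iff_mem]
        exact (z5_aeval Q y G).trans hG
      have hGm : aeval (R := k) (fun j => Ideal.Quotient.mk Q (y j)) (homogeneousComponent m G) = 0 := by
        rw [← z5_aeval, Ideal.Quotient.eq_zero_iff_mem, ← Z1_comp w N hN y hy G m]
        exact hQ _ hGQ _
      obtain ⟨c, hc⟩ := Z2_pt (homogeneousComponent m G) m (homogeneousComponent_isHomogeneous m G) hm
      obtain ⟨d, Y, hY, hYi, hint⟩ := ih (fun i => y i.succ - c i • y 0) (fun i => by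
        have h1 := (mem_weightedHomogeneousSubmodule k w N (y i.succ)).2 (hy i.succ)
        have h2 := (mem_weightedHomogeneousSubmodule k w N (y 0)).2 (hy 0)
        exact (mem_weightedHomogeneousSubmodule k w N _).1 (Submodule.sub_mem _ h1 (Submodule.smul_mem _ (c i) h2)))
      have h0 : IsIntegral (Algebra.adjoin k (Set.range fun j => Ideal.Quotient.mk Q (Y j)))
          (Ideal.Quotient.mk Q (y 0)) := by
        refine z5_trans _ (Algebra.adjoin k (Set.range fun i : Fin r =>
          (Ideal.Quotient.mk Q (y i.succ)) - c i • (Ideal.Quotient.mk Q (y 0)))) ?_ rfl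
          (Z4_int (fun i => Ideal.Quotient.mk Q (y i)) (homogeneousComponent m G) m
            (homogeneousComponent_isHomogeneous m G) hGm c hc)
        rintro _ ⟨i, rfl⟩
        exact hint i
      refine ⟨d, Y, hY, hYi, fun i => ?_⟩
      refine Fin.cases h0 (fun i => ?_) i
      have h1 : Ideal.Quotient.mk Q (y i.succ) =
          Ideal.Quotient.mk Q (y i.succ - c i • y 0) + Ideal.Quotient.mk Q (C (c i)) * Ideal.Quotient.mk Q (y 0) := by
        rw [← map_mul, ← map_add, smul_eq_C_mul, sub_add_cancel]
      rw [h1]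
      exact (hint i).add ((z5_mem _ (Subalgebra.algebraMap_mem _ (c i))).mul h0)

end Pool.Agent.H78A
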