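import Mathlib

/-!
# H78A, chunks Z7 (M, only Mathlib, two lemmas): homogeneous ideals, powers of the variables
-/

set_option autoImplicit false

open MvPolynomial

namespace Pool.Agent.H78A

/-- Proof. The weighted homogeneous submodules form a graded algebra (`MvPolynomial.weightedGradedAlgebra k w`), and the component of degree `m` of the
decomposition is `weightedHomogeneousComponent w m` (`MvPolynomial.weightedDecomposition` …, `decompose'_apply`). `Q` is a homogeneous ideal (`hQ`), the ideal
generated by the homogeneous elements `Y j` is homogeneous (`Ideal.homogeneous_span`), the sum of homogeneous ideals is homogeneous (`Ideal.IsHomogeneous.sup`). (Or by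
hand: `component_m (g * Y j) = component_(m - N) g * Y j` for `m ≥ N` and `0` otherwise.) -/
theorem Z7_hom {k : Type*} [Field k] {n d : ℕ} (w : Fin n → ℕ) (Q : Ideal (MvPolynomial (Fin n) k))
    (hQ : ∀ f ∈ Q, ∀ m, weightedHomogeneousComponent w m f ∈ Q) (N : ℕ) (Y : Fin d → MvPolynomial (Fin n) k)
    (hY : ∀ j, IsWeightedHomogeneous w (Y j) N) :
    ∀ f ∈ Q ⊔ Ideal.span (Set.range Y), ∀ m,
      weightedHomogeneousComponent w m f ∈ Q ⊔ Ideal.span (Set.range Y) := by
  classical
  have h0 : ∀ c : MvPolynomial (Fin n) k, ∀ j m, weightedHomogeneousComponent w m (c * Y j) ∈ Ideal.span (Set.range Y) := by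
    intro c j m
    have h1 : c * Y j = ∑ v ∈ c.support, monomial v (coeff v c) * Y j := by
      rw [← Finset.sum_mul, support_sum_monomial_coeff]
    rw [h1, map_sum]
    refine Ideal.sum_mem _ fun v _ => ?_
    have h2 : IsWeightedHomogeneous w (monomial v (coeff v c) * Y j) (Finsupp.weight w v + N) :=
      (isWeightedHomogeneous_monomial w v _ rfl).mul (hY j)
    by_cases h3 : m = Finsupp.weight w v + N
    · rw [h3, h2.weightedHomogeneousComponent_same]
      exact Ideal.mul_mem_left _ _ (Ideal.subset_span ⟨j, rfl⟩)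
    · rw [h2.weightedHomogeneousComponent_ne m h3]
      exact Ideal.zero_mem _
  intro f hf m
  obtain ⟨q, hq, s, hs, rfl⟩ := Submodule.mem_sup.1 hf
  obtain ⟨c, rfl⟩ := (Ideal.mem_span_range_iff_exists_fun).1 hs
  rw [map_add, map_sum]
  exact Submodule.add_mem_sup (hQ q hq m) (Ideal.sum_mem _ fun j _ => h0 (c j) j m)

/-- Proof. `mk (X i)` is integral over `B = MvPolynomial (Fin d) k` (`hfin`, `RingHom.Finite.to_isIntegral`): a monic `p ∈ B[T]`, degree `M`, with
`p(mk (X i)) = 0` (`RingHom.IsIntegralElem`). So `X i ^ M + ∑_{l < M} (aeval Y (p.coeff l)) X i ^ l ∈ Q`. Modulo `span (range Y)` the polynomial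
`aeval Y b` is the constant `C (constantCoeff b)` (`b - C (constantCoeff b)` is in the ideal of the variables; induction on `b`). So
`f = X i ^ M + ∑_{l < M} C (e_l) X i ^ l` is in `Q' = Q ⊔ span (range Y)`, and the component of degree `M * w i` of `f` is `X i ^ M` (`w i > 0`, the
other terms have the degrees `l w i < M w i`). `Z7_hom`. -/
theorem Z7_pow {k : Type*} [Field k] {n d : ℕ} (w : Fin n → ℕ) (hw : ∀ i, 0 < w i)
    (Q : Ideal (MvPolynomial (Fin n) k)) (hQ : ∀ f ∈ Q, ∀ m, weightedHomogeneousComponent w m f ∈ Q) (N : ℕ)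
    (Y : Fin d → MvPolynomial (Fin n) k) (hY : ∀ j, IsWeightedHomogeneous w (Y j) N)
    (hfin : (aeval (R := k) fun j => Ideal.Quotient.mk Q (Y j)).toRingHom.Finite) (i : Fin n) :
    ∃ M : ℕ, (X i : MvPolynomial (Fin n) k) ^ M ∈ Q ⊔ Ideal.span (Set.range Y) := by
  classical
  let I : Ideal (MvPolynomial (Fin n) k) := Ideal.span (Set.range Y)
  obtain ⟨p, hp, hpe⟩ := hfin.to_isIntegral (Ideal.Quotient.mk Q (X i))
  let M := p.natDegree
  have hf : ∀ b : MvPolynomial (Fin d) k,
      (aeval (R := k) fun j => Ideal.Quotient.mk Q (Y j)).toRingHom b = Ideal.Quotient.mk Q (aeval Y b) := by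
    intro b
    have h1 := comp_aeval_apply (f := Y) (Ideal.Quotient.mkₐ k Q) b
    exact h1.symm
  have h1 : ∑ l ∈ Finset.range (M + 1), aeval Y (p.coeff l) * X i ^ l ∈ Q := by
    rw [← Ideal.Quotient.eq_zero_iff_mem, ← hpe, Polynomial.eval₂_eq_sum_range, map_sum]
    refine Finset.sum_congr rfl fun l _ => ?_
    rw [map_mul, map_pow, hf]
  have h2 : ∀ b : MvPolynomial (Fin d) k, aeval Y b - C (constantCoeff b) ∈ I := by
    intro b
    rw [← Ideal.Quotient.eq_zero_iff_mem, map_sub, sub_eq_zero]
    have h3 := comp_aeval_apply (f := Y) (Ideal.Quotient.mkₐ k I) b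
    have h4 : (fun j => (Ideal.Quotient.mkₐ k I) (Y j)) = 0 := by
      funext j
      exact Ideal.Quotient.eq_zero_iff_mem.2 (Ideal.subset_span ⟨j, rfl⟩)
    rw [h4, aeval_zero] at h3
    exact h3
  have h3 : ∑ l ∈ Finset.range (M + 1), C (constantCoeff (p.coeff l)) * X i ^ l ∈ Q ⊔ I := by
    have h4 : ∑ l ∈ Finset.range (M + 1), C (constantCoeff (p.coeff l)) * X i ^ l =
        ∑ l ∈ Finset.range (M + 1), aeval Y (p.coeff l) * X i ^ l +
          ∑ l ∈ Finset.range (M + 1), (-(X i ^ l)) * (aeval Y (p.coeff l) - C (constantCoeff (p.coeff l))) := by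
      rw [← Finset.sum_add_distrib]
      refine Finset.sum_congr rfl fun l _ => ?_
      ring
    rw [h4]
    exact Submodule.add_mem_sup h1 (Ideal.sum_mem _ fun l _ => Ideal.mul_mem_left _ _ (h2 _))
  refine ⟨M, ?_⟩
  have h4 := Z7_hom w Q hQ N Y hY _ h3 (M * w i)
  have h5 : ∀ l, IsWeightedHomogeneous w (C (constantCoeff (p.coeff l)) * (X i : MvPolynomial (Fin n) k) ^ l) (l * w i) := by
    intro l
    have h6 := ((isWeightedHomogeneous_X k w i).pow l).C_mul (constantCoeff (p.coeff l))
    rwa [smul_eq_mul] at h6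
  rw [map_sum, Finset.sum_eq_single M] at h4
  · rw [(h5 M).weightedHomogeneousComponent_same] at h4
    have h6 : p.coeff M = 1 := hp
    rw [h6, map_one, map_one, one_mul] at h4
    exact h4
  · intro l _ hl
    refine (h5 l).weightedHomogeneousComponent_ne _ fun h => hl ?_
    exact (Nat.eq_of_mul_eq_mul_right (hw i) h).symm
  · intro h
    exact absurd (Finset.mem_range.2 (Nat.lt_succ_self M)) h

end Pool.Agent.H78A
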